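import Pool.Agent.Helper47.LB.Basic

/-!
BLOCK LB-H. Algebra and measurability of the weights `sf`, `cr`, `ph`, `XX`, `Ph`.

All are finite products or sums; `Fintype.prod_sum_type`, `Equiv.prod_comp`, `Finset.prod_comm`,
`Real.mul_self_sqrt`. Bounded and measurable: `Bd.prod`, `Bd.mul`, `Bd.comp`, `Bd.integral`.
`FB.Bd_im`: transport the field `meas` by `Fintype.equivFin`.
-/

set_option autoImplicit false

open MeasureTheory Finset

namespace Pool.Agent.Helper47.LB

open Pool.Agent.Helper47.KP (Bd pim)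

section

variable {X : Type} {ι ι' κ κ' : Type} [Fintype ι] [Fintype ι'] [Fintype κ] [Fintype κ']

theorem image_elim [DecidableEq X] (z : ι → X) (a : κ → X) :
    univ.image (Sum.elim z a) = univ.image z ∪ univ.image a := by
  ext x
  simp

theorem image_equiv [DecidableEq X] (e : ι' ≃ ι) (z : ι → X) :
    (univ.image fun i => z (e i)) = univ.image z := by
  ext x
  simp only [mem_image, mem_univ, true_and]
  exact (e.surjective.exists (p := fun i => z i = x)).symm

theorem sf_equiv [DecidableEq ι] [DecidableEq ι'] (g : X → X → ℝ) (e : ι' ≃ ι) (z : ι → X) :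
    sf g (fun i => z (e i)) = sf g z := by
  unfold sf
  refine Fintype.prod_equiv e _ _ fun i => Fintype.prod_equiv e _ _ fun j => ?_
  by_cases h : i = j
  · rw [if_pos h, if_pos (by rw [h])]
  · rw [if_neg h, if_neg (fun h' => h (e.injective h'))]

theorem sf_elim [DecidableEq ι] [DecidableEq κ] {g : X → X → ℝ} (hs : ∀ x y, g x y = g y x)
    (h0 : ∀ x y, 0 ≤ g x y) (z : ι → X) (a : κ → X) :
    sf g (Sum.elim z a) = sf g z * (cr g z a * sf g a) := by
  have h1 : ∀ i k, g (z i) (a k) = √(g (z i) (a k)) * √(g (a k) (z i)) := by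
    intro i k
    rw [hs (a k) (z i), Real.mul_self_sqrt (h0 _ _)]
  have h2 : cr g z a = (∏ i, ∏ k, √(g (z i) (a k))) * ∏ k, ∏ i, √(g (a k) (z i)) := by
    unfold cr
    rw [Finset.prod_comm (s := (univ : Finset κ)), ← prod_mul_distrib]
    refine prod_congr rfl fun i _ => ?_
    rw [← prod_mul_distrib]
    exact prod_congr rfl fun k _ => h1 i k
  rw [h2]
  unfold sf
  rw [Fintype.prod_sum_type]
  simp only [Fintype.prod_sum_type, Sum.elim_inl, Sum.elim_inr, Sum.inl.injEq, Sum.inr.injEq,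
    reduceCtorEq, if_false, prod_mul_distrib]
  ring

theorem cr_equiv (g : X → X → ℝ) (e : ι' ≃ ι) (f : κ' ≃ κ) (z : ι → X) (a : κ → X) :
    cr g (fun i => z (e i)) (fun i => a (f i)) = cr g z a := by
  unfold cr
  exact Fintype.prod_equiv e _ _ fun i => Fintype.prod_equiv f _ _ fun j => rfl

theorem cr_elim_left (g : X → X → ℝ) (z : ι → X) (y : ι' → X) (a : κ → X) :
    cr g (Sum.elim z y) a = cr g z a * cr g y a := by
  unfold cr
  rw [Fintype.prod_sum_type]
  rfl

theorem cr_elim_right (g : X → X → ℝ) (z : ι → X) (a : κ → X) (b : κ' → X) :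
    cr g z (Sum.elim a b) = cr g z a * cr g z b := by
  unfold cr
  rw [← prod_mul_distrib]
  refine prod_congr rfl fun i _ => ?_
  rw [Fintype.prod_sum_type]
  rfl

theorem sf_nonneg [DecidableEq ι] (g : X → X → ℝ) (z : ι → X) : 0 ≤ sf g z := by
  unfold sf
  refine prod_nonneg fun i _ => prod_nonneg fun j _ => ?_
  split_ifs
  · exact zero_le_one
  · exact Real.sqrt_nonneg _

theorem cr_nonneg {g : X → X → ℝ} (h0 : ∀ x y, 0 ≤ g x y) (z : ι → X) (a : κ → X) :
    0 ≤ cr g z a := by
  unfold cr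
  exact prod_nonneg fun i _ => prod_nonneg fun j _ => h0 _ _

theorem sf_le [DecidableEq ι] {g : X → X → ℝ} {G : ℝ} (hG : 1 ≤ G) (h : ∀ x y, g x y ≤ G)
    (z : ι → X) : sf g z ≤ G ^ (Fintype.card ι * Fintype.card ι) := by
  have hf : ∀ i j : ι, 0 ≤ (if i = j then 1 else √(g (z i) (z j))) ∧
      (if i = j then 1 else √(g (z i) (z j))) ≤ G := by
    intro i j
    split_ifs
    · exact ⟨zero_le_one, hG⟩
    · refine ⟨Real.sqrt_nonneg _, ?_⟩
      rw [Real.sqrt_le_left (by linarith)]
      nlinarith [h (z i) (z j)]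
  unfold sf
  have h1 : ∀ i : ι, (∏ j, if i = j then 1 else √(g (z i) (z j))) ≤ G ^ Fintype.card ι := by
    intro i
    refine (prod_le_prod (fun j _ => (hf i j).1) fun j _ => (hf i j).2).trans ?_
    rw [prod_const, card_univ]
  refine (prod_le_prod (fun i _ => prod_nonneg fun j _ => (hf i j).1) fun i _ => h1 i).trans ?_
  rw [prod_const, card_univ, pow_mul]

theorem cr_le {g : X → X → ℝ} {G : ℝ} (h0 : ∀ x y, 0 ≤ g x y) (h : ∀ x y, g x y ≤ G)
    (z : ι → X) (a : κ → X) : cr g z a ≤ G ^ (Fintype.card ι * Fintype.card κ) := by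
  unfold cr
  have h1 : ∀ i : ι, (∏ j, g (z i) (a j)) ≤ G ^ Fintype.card κ := by
    intro i
    refine (prod_le_prod (fun j _ => h0 _ _) fun j _ => h _ _).trans ?_
    rw [prod_const, card_univ]
  refine (prod_le_prod (fun i _ => prod_nonneg fun j _ => h0 _ _) fun i _ => h1 i).trans ?_
  rw [prod_const, card_univ, ← pow_mul, mul_comm]

end

section

variable {X : Type} [MeasurableSpace X] {ι ι' κ κ' : Type} [Fintype ι] [Fintype ι'] [Fintype κ]
  [Fintype κ']

theorem Ker.bd {σ : Measure X} {g : X → X → ℝ} {G v ε : ℝ} (K : Ker σ g G v ε) :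
    Bd fun p : X × X => g p.1 p.2 := by
  refine ⟨K.meas, G, fun p => ?_⟩
  rw [abs_of_nonneg (K.nonneg _ _)]
  exact K.le _ _

theorem Bd_sqrt {Y : Type} [MeasurableSpace Y] {f : Y → ℝ} (h : Bd f) : Bd fun y => √(f y) := by
  obtain ⟨C, hC⟩ := h.bd
  refine ⟨h.meas.sqrt, √C, fun y => ?_⟩
  rw [abs_of_nonneg (Real.sqrt_nonneg _)]
  exact Real.sqrt_le_sqrt ((le_abs_self _).trans (hC y))

theorem Bd_sf [DecidableEq ι] {g : X → X → ℝ} (hg : Bd fun p : X × X => g p.1 p.2) :
    Bd fun z : ι → X => sf g z := by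
  unfold sf
  refine Bd.prod _ fun i _ => Bd.prod _ fun j _ => ?_
  by_cases hij : i = j
  · simpa [hij] using Bd.const 1
  · simp only [if_neg hij]
    exact Bd_sqrt (hg.comp (g := fun z : ι → X => (z i, z j))
      ((measurable_pi_apply i).prodMk (measurable_pi_apply j)))

theorem Bd_cr {g : X → X → ℝ} (hg : Bd fun p : X × X => g p.1 p.2) :
    Bd fun p : (ι → X) × (κ → X) => cr g p.1 p.2 := by
  unfold cr
  refine Bd.prod _ fun i _ => Bd.prod _ fun j _ => ?_
  have m1 : Measurable (fun p : (ι → X) × (κ → X) => p.1 i) :=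
    (measurable_pi_apply i).comp measurable_fst
  have m2 : Measurable (fun p : (ι → X) × (κ → X) => p.2 j) :=
    (measurable_pi_apply j).comp measurable_snd
  exact hg.comp (g := fun p : (ι → X) × (κ → X) => (p.1 i, p.2 j)) (m1.prodMk m2)

omit [Fintype ι] [Fintype κ] in
theorem measurable_elim : Measurable fun p : (ι → X) × (κ → X) => Sum.elim p.1 p.2 := by
  refine measurable_pi_iff.2 fun s => ?_
  cases s with
  | inl i => exact (measurable_pi_apply i).comp measurable_fst
  | inr k => exact (measurable_pi_apply k).comp measurable_snd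

variable [DecidableEq X] (σ : Measure X) [IsProbabilityMeasure σ] (t : ℕ) (N : ℝ)
  {g : X → X → ℝ} {F : Finset X → ℝ}

theorem FB.Bd_im (hF : FB F) (ι : Type) [Fintype ι] : Bd fun z : ι → X => F (univ.image z) := by
  have e := Fintype.equivFin ι
  have h1 : (fun z : ι → X => F (univ.image z)) =
      fun z : ι → X => F (univ.image fun k => z (e.symm k)) := by
    funext z
    rw [image_equiv e.symm z]
  obtain ⟨C, hC⟩ := hF.bd
  refine ⟨?_, C, fun z => hC _⟩
  rw [h1]
  have h2 : Measurable fun (z : ι → X) (k : Fin (Fintype.card ι)) => z (e.symm k) :=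
    measurable_pi_iff.2 fun k => measurable_pi_apply _
  exact (hF.meas _).comp h2

theorem Bd_ph [DecidableEq κ] (hg : Bd fun p : X × X => g p.1 p.2) (hF : FB F) :
    Bd fun p : (ι → X) × (κ → X) => ph t g F p.1 p.2 := by
  unfold ph
  by_cases h : Fintype.card ι + Fintype.card κ ≤ t
  · simp only [if_pos h]
    refine Bd.mul ?_ (Bd.mul (Bd_cr hg) ((Bd_sf hg).comp measurable_snd))
    have h1 := (hF.Bd_im (ι ⊕ κ)).comp (g := fun p : (ι → X) × (κ → X) => Sum.elim p.1 p.2)
      measurable_elim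
    simpa only [image_elim] using h1
  · simp only [if_neg h]
    exact Bd.const 0

theorem Bd_XX (hg : Bd fun p : X × X => g p.1 p.2) (hF : FB F) :
    Bd fun z : ι → X => XX σ t N g F z := by
  unfold XX
  exact Bd.sum _ fun p _ => (Bd.const _).mul
    (Bd.integral (F := fun q : (ι → X) × (Fin p → X) => ph t g F q.1 q.2) (Bd_ph t hg hF) _)

theorem Bd_Ph [DecidableEq κ] (hg : Bd fun p : X × X => g p.1 p.2) (hF : FB F) :
    Bd fun p : (ι → X) × (κ → X) => Ph σ t N g F p.1 p.2 := by
  unfold Ph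
  exact (Bd.mul (Bd_cr hg) ((Bd_sf hg).comp measurable_snd)).mul
    ((Bd_XX σ t N (ι := ι ⊕ κ) hg hF).comp
      (g := fun p : (ι → X) × (κ → X) => Sum.elim p.1 p.2) measurable_elim)

omit [MeasurableSpace X] in
theorem ph_equiv' [DecidableEq κ] [DecidableEq κ'] (e : ι' ≃ ι) (f : κ' ≃ κ) (z : ι → X)
    (a : κ → X) : ph t g F (fun i => z (e i)) (fun i => a (f i)) = ph t g F z a := by
  unfold ph
  rw [Fintype.card_congr e, Fintype.card_congr f, image_equiv e, image_equiv f, cr_equiv,
    sf_equiv]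

omit [IsProbabilityMeasure σ] in
theorem XX_equiv (e : ι' ≃ ι) (z : ι → X) : XX σ t N g F (fun i => z (e i)) = XX σ t N g F z := by
  unfold XX
  refine sum_congr rfl fun p _ => ?_
  congr 1
  refine integral_congr_ae (Filter.Eventually.of_forall fun a => ?_)
  exact ph_equiv' t e (Equiv.refl _) z a

omit [MeasurableSpace X] in
theorem ph_equiv [DecidableEq κ] [DecidableEq κ'] (e : ι' ≃ ι) (f : κ' ≃ κ) (z : ι → X)
    (a : κ → X) : ph t g F (fun i => z (e i)) (fun i => a (f i)) = ph t g F z a :=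
  ph_equiv' t e f z a

omit [MeasurableSpace X] in
/-- adding the points `a₁` to `z` -/
theorem ph_elim [DecidableEq κ] [DecidableEq κ'] (hs : ∀ x y, g x y = g y x)
    (h0 : ∀ x y, 0 ≤ g x y) (z : ι → X) (a₁ : κ → X) (a₀ : κ' → X) :
    ph t g F z (Sum.elim a₁ a₀) = cr g z a₁ * sf g a₁ * ph t g F (Sum.elim z a₁) a₀ := by
  unfold ph
  rw [Fintype.card_sum, Fintype.card_sum, ← add_assoc]
  by_cases h : Fintype.card ι + Fintype.card κ + Fintype.card κ' ≤ t
  · rw [if_pos h, if_pos h, image_elim, image_elim, union_assoc, cr_elim_left, cr_elim_right,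
      sf_elim hs h0]
    ring
  · rw [if_neg h, if_neg h, mul_zero]

omit [IsProbabilityMeasure σ] in
theorem XX_of_lt (z : ι → X) (h : t < Fintype.card ι) : XX σ t N g F z = 0 := by
  unfold XX
  refine sum_eq_zero fun p _ => ?_
  have h1 : ∀ a : Fin p → X, ph t g F z a = 0 := by
    intro a
    unfold ph
    exact if_neg (by omega)
  simp only [h1, integral_zero, mul_zero]

end

end Pool.Agent.Helper47.LB
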