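import Pool.Agent.Helper47.LB.Trunc

/-!
BLOCK LB-Q. Approximation of the truncated kernel by finite sums of rank one kernels.

For `S₀` with `SepS R t S₀` let `C(S₀)` be the set of all `S` with `SepS R t S` and
`∀ T, SepS R t T → |K S T - K S₀ T| ≤ η / 2`.
(1) There are finitely many `S_1, …, S_n` such that every `S` with `SepS R t S` lies in some
`C(S_i)`: every separated `S` is `univ.image z` with `z ∈ SepT R p`, `p = #S ≤ t`; for
`p, q ≤ t` the function `K (im z) (im w)` is uniformly continuous on the compact set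
`SepT p ×ˢ SepT q`, so there is `δ > 0` such that `dist z z' < δ` (`z, z' ∈ SepT p`) implies
`|K (im z) (im w) - K (im z') (im w)| ≤ η / 2` for all `w ∈ SepT q`, `q ≤ t`; take finite
`δ`-nets of the compact sets `SepT p`, `p ≤ t`.
(2) Let `s S` be the first `i` with `S ∈ C(S_i)`. Then `|K S T - K S_{s S} S_{s T}| ≤ η`
for separated `S, T` (use symmetry for the second variable).
(3) The finite matrix `K S_i S_j` is positive semidefinite, hence
`K S_i S_j = ∑ k, R k i * R k j` (`Matrix.posSemidef_iff_eq_sum_vecMulVec`, see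
`Pool.Agent.Helper47.KP.Form_nonneg` in KP/Disc.lean for the same step). Put
`F k S = R k (s S)` if `SepS R t S`, `0` otherwise.
(4) `FB (F k)`: bounded, finitely many values; measurability by `meas_of_inj`: the set
`{z ∈ SepT p | univ.image z ∈ C(S_i)}` is closed (an intersection of closed sets, because
`z ↦ K (im z) T` is continuous on the closed set `SepT p`; write `T = univ.image w`).
-/

set_option autoImplicit false

open MeasureTheory Finset

namespace Pool.Agent.Helper47.LB

open Pool.Agent.Helper47.KP (Bd pim)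

variable {X : Type} [MetricSpace X] [CompactSpace X] [MeasurableSpace X] [BorelSpace X]
  [DecidableEq X] {R : X → X → Prop} {t : ℕ} {K : Finset X → Finset X → ℝ}

omit [MeasurableSpace X] [BorelSpace X] in
/-- step (1), uniform continuity -/
theorem exists_delta (hR : IsClosed {p : X × X | R p.1 p.2}) (hK : PK R t K) {η : ℝ}
    (hη : 0 < η) :
    ∃ δ : ℝ, 0 < δ ∧ ∀ p q, p ≤ t → q ≤ t → ∀ z ∈ SepT R p, ∀ z' ∈ SepT R p, dist z z' < δ →
      ∀ w ∈ SepT R q, |K (univ.image z) (univ.image w) - K (univ.image z') (univ.image w)| ≤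
        η / 2 := by
  have h1 : ∀ p q : ℕ, ∃ δ : ℝ, 0 < δ ∧ (p ≤ t → q ≤ t → ∀ z ∈ SepT R p, ∀ z' ∈ SepT R p,
      dist z z' < δ → ∀ w ∈ SepT R q,
      |K (univ.image z) (univ.image w) - K (univ.image z') (univ.image w)| ≤ η / 2) := by
    intro p q
    by_cases hp : p ≤ t ∧ q ≤ t
    · have hc : IsCompact (SepT R p ×ˢ SepT R q) :=
        (isClosed_SepT hR p).isCompact.prod (isClosed_SepT hR q).isCompact
      have hu := hc.uniformContinuousOn_of_continuous (hK.cont p q hp.1 hp.2)
      rw [Metric.uniformContinuousOn_iff] at hu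
      obtain ⟨δ, hδ, h⟩ := hu (η / 2) (half_pos hη)
      refine ⟨δ, hδ, fun _ _ z hz z' hz' hd w hw => ?_⟩
      have := h (z, w) ⟨hz, hw⟩ (z', w) ⟨hz', hw⟩ (by
        rw [Prod.dist_eq, dist_self, max_eq_left dist_nonneg]
        exact hd)
      rw [Real.dist_eq] at this
      exact this.le
    · exact ⟨1, one_pos, fun h h' => absurd ⟨h, h'⟩ hp⟩
  choose d hd0 hd using h1
  have h2 : ∀ᶠ δ in nhdsWithin (0 : ℝ) (Set.Ioi 0), ∀ p ∈ range (t + 1), ∀ q ∈ range (t + 1),
      δ < d p q := by
    rw [Filter.eventually_all_finset]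
    intro p _
    rw [Filter.eventually_all_finset]
    intro q _
    filter_upwards [Ioo_mem_nhdsGT (hd0 p q)] with x hx
    exact hx.2
  obtain ⟨δ, hδ1, hδ2⟩ := (h2.and self_mem_nhdsWithin).exists
  refine ⟨δ, hδ2, fun p q hp hq z hz z' hz' hdd w hw => ?_⟩
  exact hd p q hp hq z hz z' hz' (hdd.trans (hδ1 p (mem_range.2 (Nat.lt_succ_of_le hp)) q
    (mem_range.2 (Nat.lt_succ_of_le hq)))) w hw

omit [MeasurableSpace X] [BorelSpace X] in
/-- step (1), the finite net -/
theorem exists_net (hR : IsClosed {p : X × X | R p.1 p.2}) (hirr : ∀ x, ¬ R x x)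
    (hK : PK R t K) {η : ℝ} (hη : 0 < η) :
    ∃ (n : ℕ) (Sn : Fin n → Finset X), (∀ i, SepS R t (Sn i)) ∧
      ∀ S, SepS R t S → ∃ i, ∀ T, SepS R t T → |K S T - K (Sn i) T| ≤ η / 2 := by
  classical
  obtain ⟨δ, hδ, hδK⟩ := exists_delta hR hK hη
  have h1 : ∀ p : ℕ, ∃ N : Finset (Fin p → X), (∀ z ∈ N, z ∈ SepT R p) ∧
      ∀ z ∈ SepT R p, ∃ z' ∈ N, dist z z' < δ := by
    intro p
    obtain ⟨N, hN1, hN2, hN3⟩ := (isClosed_SepT hR p).isCompact.finite_cover_balls hδ
    refine ⟨hN2.toFinset, fun z hz => hN1 (hN2.mem_toFinset.1 hz), fun z hz => ?_⟩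
    have := hN3 hz
    simp only [Set.mem_iUnion, Metric.mem_ball, exists_prop] at this
    obtain ⟨z', h1, h2⟩ := this
    exact ⟨z', hN2.mem_toFinset.2 h1, h2⟩
  choose N hN1 hN2 using h1
  set 𝒮 : Finset (Finset X) := (range (t + 1)).biUnion fun p => (N p).image fun z => univ.image z
    with h𝒮
  refine ⟨𝒮.card, fun i => (𝒮.equivFin.symm i : Finset X), fun i => ?_, fun S hS => ?_⟩
  · have hall : ∀ S ∈ 𝒮, SepS R t S := by
      intro S h2
      rw [h𝒮, mem_biUnion] at h2
      obtain ⟨p, hp, h3⟩ := h2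
      rw [mem_image] at h3
      obtain ⟨z, hz, h4⟩ := h3
      rw [← h4]
      exact (SepS_image (inj_of_SepT hirr (hN1 p z hz))).2
        ⟨Nat.lt_succ_iff.1 (mem_range.1 hp), hN1 p z hz⟩
    exact hall _ (𝒮.equivFin.symm i).2
  · obtain ⟨p, hp, z, hz, rfl⟩ := exists_tuple hS
    obtain ⟨z', hz', hd⟩ := hN2 p z hz
    have hm : univ.image z' ∈ 𝒮 := by
      rw [h𝒮, mem_biUnion]
      exact ⟨p, mem_range.2 (Nat.lt_succ_of_le hp), mem_image_of_mem _ hz'⟩
    refine ⟨𝒮.equivFin ⟨_, hm⟩, fun T hT => ?_⟩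
    obtain ⟨q, hq, w, hw, rfl⟩ := exists_tuple hT
    simp only [Equiv.symm_apply_apply]
    exact hδK p q hp hq z hz z' (hN1 p z' hz') hd w hw

omit [MetricSpace X] [CompactSpace X] [MeasurableSpace X] [BorelSpace X] in
/-- step (3), the finite matrix -/
theorem exists_factor [TopologicalSpace X] (hK : PK R t K) {n : ℕ} (Sn : Fin n → Finset X)
    (hS : ∀ i, SepS R t (Sn i)) :
    ∃ (m : ℕ) (B : Fin m → Fin n → ℝ), ∀ i j, K (Sn i) (Sn j) = ∑ k, B k i * B k j := by
  let Mx : Matrix (Fin n) (Fin n) ℝ := fun k l => K (Sn k) (Sn l)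
  have hMx : Mx.PosSemidef := by
    refine Matrix.PosSemidef.of_dotProduct_mulVec_nonneg ?_ (fun c => ?_)
    · ext k l
      simp only [Matrix.conjTranspose_apply, star_trivial]
      exact hK.symm _ _ (hS _) (hS _)
    · refine (hK.psd n Sn c hS).trans (le_of_eq ?_)
      simp only [dotProduct, Matrix.mulVec, Mx, Pi.star_apply, star_trivial, Finset.mul_sum]
      apply Finset.sum_congr rfl
      intro k _
      apply Finset.sum_congr rfl
      intro l _
      ring
  obtain ⟨m, B, hB⟩ := Matrix.posSemidef_iff_eq_sum_vecMulVec.1 hMx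
  refine ⟨m, B, fun i j => ?_⟩
  have h1 := congrFun (congrFun hB i) j
  simp only [Mx, Matrix.sum_apply, Matrix.vecMulVec_apply, star_trivial] at h1
  exact h1

omit [MeasurableSpace X] [BorelSpace X] [CompactSpace X] in
/-- the cells are closed -/
theorem isClosed_cell (hR : IsClosed {p : X × X | R p.1 p.2}) (hK : PK R t K) (S₀ : Finset X)
    (c : ℝ) {m : ℕ} (hm : m ≤ t) :
    IsClosed {z : Fin m → X | z ∈ SepT R m ∧
      ∀ T, SepS R t T → |K (univ.image z) T - K S₀ T| ≤ c} := by
  have e : {z : Fin m → X | z ∈ SepT R m ∧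
      ∀ T, SepS R t T → |K (univ.image z) T - K S₀ T| ≤ c} =
      SepT R m ∩ ⋂ T : Finset X, ⋂ (_ : SepS R t T), (SepT R m ∩
        (fun z : Fin m → X => |K (univ.image z) T - K S₀ T|) ⁻¹' Set.Iic c) := by
    ext z
    simp only [Set.mem_inter_iff, Set.mem_iInter, Set.mem_preimage, Set.mem_Iic]
    constructor
    · rintro ⟨h1, h2⟩
      exact ⟨h1, fun T hT => ⟨h1, h2 T hT⟩⟩
    · rintro ⟨h1, h2⟩
      exact ⟨h1, fun T hT => (h2 T hT).2⟩
  rw [e]
  refine (isClosed_SepT hR m).inter (isClosed_iInter fun T => isClosed_iInter fun hT => ?_)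
  obtain ⟨q, hq, w, hw, rfl⟩ := exists_tuple hT
  have hc : ContinuousOn (fun z : Fin m → X => K (univ.image z) (univ.image w)) (SepT R m) := by
    have h1 : ContinuousOn (fun z : Fin m → X => (z, w)) (SepT R m) :=
      (continuous_id.prodMk continuous_const).continuousOn
    exact (hK.cont m q hm hq).comp h1 fun z hz => ⟨hz, hw⟩
  exact ((hc.sub continuousOn_const).abs).preimage_isClosed_of_isClosed (isClosed_SepT hR m)
    isClosed_Iic

open Classical in
/-- the indicator function of a cell -/
noncomputable def cell (R : X → X → Prop) (t : ℕ) (K : Finset X → Finset X → ℝ) (S₀ : Finset X)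
    (c : ℝ) (S : Finset X) : ℝ :=
  if SepS R t S ∧ ∀ T, SepS R t T → |K S T - K S₀ T| ≤ c then 1 else 0

theorem measurable_cell (hR : IsClosed {p : X × X | R p.1 p.2}) (hirr : ∀ x, ¬ R x x)
    (hK : PK R t K) (S₀ : Finset X) (c : ℝ) (m : ℕ) :
    Measurable fun z : Fin m → X => cell R t K S₀ c (univ.image z) := by
  classical
  have hd : MeasurableSet {p : X × X | p.1 = p.2} :=
    (isClosed_eq continuous_fst continuous_snd).measurableSet
  refine meas_of_inj hd (F := cell R t K S₀ c) (fun m => ?_) m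
  by_cases hm : m ≤ t
  · have e : (fun z : Fin m → X => if Function.Injective z then
        cell R t K S₀ c (univ.image z) else 0) =
        {z : Fin m → X | z ∈ SepT R m ∧
          ∀ T, SepS R t T → |K (univ.image z) T - K S₀ T| ≤ c}.indicator fun _ => (1 : ℝ) := by
      funext z
      by_cases hz : z ∈ {z : Fin m → X | z ∈ SepT R m ∧
          ∀ T, SepS R t T → |K (univ.image z) T - K S₀ T| ≤ c}
      · have hi := inj_of_SepT hirr hz.1
        rw [Set.indicator_of_mem hz, if_pos hi, cell,
          if_pos ⟨(SepS_image hi).2 ⟨hm, hz.1⟩, hz.2⟩]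
      · rw [Set.indicator_of_notMem hz]
        split_ifs with hi
        · rw [cell, if_neg]
          rintro ⟨h1, h2⟩
          exact hz ⟨((SepS_image hi).1 h1).2, h2⟩
        · rfl
    rw [e]
    exact measurable_const.indicator (isClosed_cell hR hK S₀ c hm).measurableSet
  · have e : (fun z : Fin m → X => if Function.Injective z then
        cell R t K S₀ c (univ.image z) else 0) = fun _ => 0 := by
      funext z
      split_ifs with hi
      · rw [cell, if_neg]
        rintro ⟨h1, _⟩
        exact hm ((SepS_image hi).1 h1).1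
      · rfl
    rw [e]
    exact measurable_const

theorem exists_approx (hR : IsClosed {p : X × X | R p.1 p.2}) (hirr : ∀ x, ¬ R x x)
    (hK : PK R t K) {η : ℝ} (hη : 0 < η) :
    ∃ (n : ℕ) (F : Fin n → Finset X → ℝ), (∀ k, FB (F k)) ∧
      ∀ S T, |trunc R t K S T - ∑ k, F k S * F k T| ≤ η := by
  classical
  obtain ⟨n, Sn, hSn, hnet⟩ := exists_net hR hirr hK hη
  obtain ⟨m, B, hB⟩ := exists_factor hK Sn hSn
  -- the cells, made disjoint
  let c : Fin n → Finset X → ℝ := fun i => cell R t K (Sn i) (η / 2)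
  let D : Fin n → Finset X → ℝ := fun i S => c i S * ∏ j ∈ univ.filter (fun j => j < i), (1 - c j S)
  have hc01 : ∀ i S, c i S = 0 ∨ c i S = 1 := by
    intro i S
    simp only [c, cell]
    split_ifs
    · exact Or.inr rfl
    · exact Or.inl rfl
  have hD0 : ∀ S, ¬ SepS R t S → ∀ i, D i S = 0 := by
    intro S hS i
    have : c i S = 0 := by
      simp only [c, cell]
      rw [if_neg fun h => hS h.1]
    simp only [D, this, zero_mul]
  have hD1 : ∀ S, SepS R t S → ∃ i, (∀ T, SepS R t T → |K S T - K (Sn i) T| ≤ η / 2) ∧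
      ∀ j, D j S = if j = i then 1 else 0 := by
    intro S hS
    have hne : (univ.filter fun i => c i S = 1).Nonempty := by
      obtain ⟨i, hi⟩ := hnet S hS
      refine ⟨i, mem_filter.2 ⟨mem_univ _, ?_⟩⟩
      simp only [c, cell]
      rw [if_pos ⟨hS, hi⟩]
    set i := (univ.filter fun i => c i S = 1).min' hne with hi
    have hi1 : c i S = 1 := by
      have := (univ.filter fun i => c i S = 1).min'_mem hne
      rw [mem_filter] at this
      exact this.2
    have hi2 : ∀ j, j < i → c j S = 0 := by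
      intro j hj
      rcases hc01 j S with h | h
      · exact h
      · exact absurd hj (not_lt.2 ((univ.filter fun i => c i S = 1).min'_le j
          (mem_filter.2 ⟨mem_univ _, h⟩)))
    refine ⟨i, ?_, fun j => ?_⟩
    · by_contra hcon
      have : c i S = 0 := by
        simp only [c, cell]
        rw [if_neg fun h => hcon h.2]
      rw [hi1] at this
      exact one_ne_zero this
    · rcases lt_trichotomy j i with h | h | h
      · rw [if_neg h.ne]
        simp only [D, hi2 j h, zero_mul]
      · rw [h, if_pos rfl]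
        simp only [D, hi1, one_mul]
        refine Finset.prod_eq_one fun k hk => ?_
        rw [hi2 k (mem_filter.1 hk).2, sub_zero]
      · rw [if_neg h.ne']
        have hp0 : ∏ k ∈ univ.filter (fun k => k < j), (1 - c k S) = 0 :=
          Finset.prod_eq_zero (mem_filter.2 ⟨mem_univ _, h⟩) (by rw [hi1, sub_self])
        simp only [D]
        rw [hp0, mul_zero]
  refine ⟨m, fun k S => ∑ i, B k i * D i S, fun k => ?_, fun S T => ?_⟩
  · -- bounded and measurable
    constructor
    · refine ⟨∑ i, |B k i|, fun S => ?_⟩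
      refine (Finset.abs_sum_le_sum_abs _ _).trans (Finset.sum_le_sum fun i _ => ?_)
      rw [abs_mul]
      refine mul_le_of_le_one_right (abs_nonneg _) ?_
      by_cases hS : SepS R t S
      · obtain ⟨i', _, h2⟩ := hD1 S hS
        rw [h2 i]
        split_ifs <;> simp
      · rw [hD0 S hS i]
        simp
    · intro p
      refine Finset.measurable_sum _ fun i _ => Measurable.const_mul ?_ _
      refine Measurable.mul (measurable_cell hR hirr hK _ _ p) ?_
      refine Finset.measurable_prod _ fun j _ => measurable_const.sub ?_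
      exact measurable_cell hR hirr hK _ _ p
  · by_cases h : SepS R t S ∧ SepS R t T
    · obtain ⟨i, hi1, hi2⟩ := hD1 S h.1
      obtain ⟨j, hj1, hj2⟩ := hD1 T h.2
      have e1 : ∀ k, ∑ i', B k i' * D i' S = B k i := by
        intro k
        simp only [hi2, mul_ite, mul_one, mul_zero, Finset.sum_ite_eq', mem_univ, if_true]
      have e2 : ∀ k, ∑ i', B k i' * D i' T = B k j := by
        intro k
        simp only [hj2, mul_ite, mul_one, mul_zero, Finset.sum_ite_eq', mem_univ, if_true]
      simp only [e1, e2]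
      rw [← hB i j, trunc, if_pos h]
      have h1 := hi1 T h.2
      have h2 := hj1 (Sn i) (hSn i)
      rw [hK.symm T (Sn i) h.2 (hSn i), hK.symm (Sn j) (Sn i) (hSn j) (hSn i)] at h2
      have h3 : K S T - K (Sn i) (Sn j) = (K S T - K (Sn i) T) + (K (Sn i) T - K (Sn i) (Sn j)) := by
        ring
      rw [h3]
      refine (abs_add_le _ _).trans ?_
      linarith
    · rw [trunc, if_neg h]
      have h0 : ∑ k, (∑ i, B k i * D i S) * ∑ i, B k i * D i T = 0 := by
        refine Finset.sum_eq_zero fun k _ => ?_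
        rcases not_and_or.1 h with h' | h'
        · rw [Finset.sum_eq_zero (fun i _ => by rw [hD0 S h' i, mul_zero]), zero_mul]
        · rw [Finset.sum_eq_zero (s := univ) (f := fun i => B k i * D i T)
            (fun i _ => by rw [hD0 T h' i, mul_zero]), mul_zero]
      rw [h0]
      simpa using hη.le

end Pool.Agent.Helper47.LB
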