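import Pool.Agent.Helper47.KP.Weights

/-!
Lower bounds for the Lasserre hierarchy of the kissing problem: basic definitions.

`X` is a probability space, `g : X → X → ℝ` a symmetric kernel with `0 ≤ g ≤ G`, `|g - 1| ≤ 1`,
`∫ (g x y - 1)² dy ≤ v`, such that `g - 1` has operator norm at most `ε`.
-/

set_option autoImplicit false

open MeasureTheory Finset

namespace Pool.Agent.Helper47.LB

open Pool.Agent.Helper47.KP (Bd pim)

section Norm

variable {Y Z : Type} [MeasurableSpace Y] [MeasurableSpace Z]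

/-- The kernel `H` has norm at most `C` as a bilinear form on `L²(μ) × L²(ν)` (tested on bounded
measurable functions). -/
def NB (μ : Measure Y) (ν : Measure Z) (H : Y → Z → ℝ) (C : ℝ) : Prop :=
  ∀ (u : Y → ℝ) (w : Z → ℝ), Bd u → Bd w → |∫ y, ∫ z, u y * w z * H y z ∂ν ∂μ| ≤
    C * (√(∫ y, u y ^ 2 ∂μ) * √(∫ z, w z ^ 2 ∂ν))

end Norm

variable {X : Type} [MeasurableSpace X]

/-- the product measure over a finite index type (`pim σ m = pis σ (Fin m)` by definition) -/
noncomputable abbrev pis (σ : Measure X) (ι : Type) [Fintype ι] : Measure (ι → X) :=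
  Measure.pi fun _ => σ

/-- the standing assumptions on the kernel `g` -/
structure Ker (σ : Measure X) (g : X → X → ℝ) (G v ε : ℝ) : Prop where
  meas : Measurable fun p : X × X => g p.1 p.2
  symm : ∀ x y, g x y = g y x
  nonneg : ∀ x y, 0 ≤ g x y
  le : ∀ x y, g x y ≤ G
  one_le : 1 ≤ G
  abs_sub : ∀ x y, |g x y - 1| ≤ 1
  var : ∀ x, ∫ y, (g x y - 1) ^ 2 ∂σ ≤ v
  v0 : 0 < v
  v1 : v ≤ 1
  ε0 : 0 ≤ ε
  op : NB σ σ (fun x y => g x y - 1) ε

/-- product over all ordered pairs of distinct indices of `√g` (that is, the product of `g` over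
all unordered pairs) -/
noncomputable def sf (g : X → X → ℝ) {ι : Type} [Fintype ι] [DecidableEq ι] (z : ι → X) : ℝ :=
  ∏ i, ∏ j, if i = j then 1 else √(g (z i) (z j))

/-- product of `g` over all pairs (one point of `z`, one point of `a`) -/
noncomputable def cr (g : X → X → ℝ) {ι κ : Type} [Fintype ι] [Fintype κ] (z : ι → X)
    (a : κ → X) : ℝ :=
  ∏ i, ∏ j, g (z i) (a j)

/-- The Möbius transform of `cr` in both arguments: `HH g a b` is the sum, over all bipartite
graphs `E ⊆ ι × κ` without isolated vertices, of `∏_{(i,j) ∈ E} (g (a i) (b j) - 1)`. -/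
noncomputable def HH (g : X → X → ℝ) {ι κ : Type} [Fintype ι] [Fintype κ] (a : ι → X)
    (b : κ → X) : ℝ :=
  ∑ A : Finset ι, (-1 : ℝ) ^ (Fintype.card ι - A.card) * ∏ j, (∏ i ∈ A, g (a i) (b j) - 1)

/-- The recursively defined constants of the norm bound of `HH`. -/
noncomputable def MM (G δ : ℝ) : ℕ → ℕ → ℝ
  | 0, p => if p = 0 then 1 else 0
  | q + 1, p => ∑ k ∈ range p, (p.choose (k + 1) : ℝ) * (G ^ p * δ * MM G δ q (p - 1 - k)) +
      p * G ^ p * MM G δ q p

/-- bounded functions on finite sets which are measurable as functions of tuples -/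
structure FB [DecidableEq X] (F : Finset X → ℝ) : Prop where
  bd : ∃ C : ℝ, ∀ S, |F S| ≤ C
  meas : ∀ m : ℕ, Measurable fun z : Fin m → X => F (univ.image z)

variable [DecidableEq X]

/-- the function `F` with its weights -/
noncomputable def ph (t : ℕ) (g : X → X → ℝ) (F : Finset X → ℝ) {ι κ : Type} [Fintype ι]
    [Fintype κ] [DecidableEq κ] (z : ι → X) (a : κ → X) : ℝ :=
  if Fintype.card ι + Fintype.card κ ≤ t then
    F (univ.image z ∪ univ.image a) * (cr g z a * sf g a) else 0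

/-- the diagonal variables -/
noncomputable def XX (σ : Measure X) (t : ℕ) (N : ℝ) (g : X → X → ℝ) (F : Finset X → ℝ) {ι : Type}
    [Fintype ι] (z : ι → X) : ℝ :=
  ∑ p ∈ range (t + 1), N ^ p / (p.factorial : ℝ) * ∫ a : Fin p → X, ph t g F z a ∂(pim σ p)

/-- the marginals of `ph` -/
noncomputable def Ph (σ : Measure X) (t : ℕ) (N : ℝ) (g : X → X → ℝ) (F : Finset X → ℝ)
    {ι κ : Type} [Fintype ι] [Fintype κ] [DecidableEq κ] (z : ι → X) (a : κ → X) : ℝ :=
  cr g z a * sf g a * XX σ t N g F (Sum.elim z a)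

/-- the squared norms of the diagonal variables -/
noncomputable def YY (σ : Measure X) (t : ℕ) (N : ℝ) (g : X → X → ℝ) (F : Finset X → ℝ)
    (m : ℕ) : ℝ :=
  N ^ m / (m.factorial : ℝ) * ∫ z : Fin m → X, sf g z * XX σ t N g F z ^ 2 ∂(pim σ m)

/-- the moment form, split according to `J ∩ J'`, `J \ J'`, `J' \ J` -/
noncomputable def Form (σ : Measure X) (t : ℕ) (N : ℝ) (g : X → X → ℝ)
    (K : Finset X → Finset X → ℝ) : ℝ :=
  ∑ l ∈ range (t + 1), ∑ p ∈ range (t + 1), ∑ q ∈ range (t + 1),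
    N ^ l / (l.factorial : ℝ) * (N ^ p / (p.factorial : ℝ)) * (N ^ q / (q.factorial : ℝ)) *
      ∫ z : Fin l → X, ∫ a : Fin p → X, ∫ b : Fin q → X,
        (if l + p ≤ t ∧ l + q ≤ t then
          K (univ.image z ∪ univ.image a) (univ.image z ∪ univ.image b) else 0) *
        (sf g z * (cr g z a * sf g a) * (cr g z b * sf g b) * cr g a b)
        ∂(pim σ q) ∂(pim σ p) ∂(pim σ l)

/-- the sum `∑_{J ∪ J' = S, #J, #J' ≤ t} K(J, J')` in terms of the indices of a tuple -/
noncomputable def AK (t : ℕ) (K : Finset X → Finset X → ℝ) {m : ℕ} (x : Fin m → X) : ℝ :=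
  ∑ J : Finset (Fin m), ∑ J' : Finset (Fin m),
    if J ∪ J' = univ ∧ J.card ≤ t ∧ J'.card ≤ t then K (J.image x) (J'.image x) else 0

/-- the moment functional -/
noncomputable def Lam (σ : Measure X) (t : ℕ) (N : ℝ) (g : X → X → ℝ)
    (K : Finset X → Finset X → ℝ) : ℝ :=
  ∑ m ∈ range (2 * t + 1), N ^ m / (m.factorial : ℝ) *
    ∫ x : Fin m → X, sf g x * AK t K x ∂(pim σ m)

end Pool.Agent.Helper47.LB
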