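import Pool.Agent.Helper47.LB.Alg

/-!
BLOCK LB-O. The constraints: `Lam ≤ K ∅ ∅ - N`.

If `sf g x ≠ 0` then all `g (x a) (x b) ≠ 0` for `a ≠ b`, so `x` is injective (`g x x = 0`) and
`S = univ.image x` satisfies the hypothesis on pairs; `AK t K x = ∑_{J, J' ⊆ S, J ∪ J' = S,
#J, #J' ≤ t} K J J'` by the bijection `J ↦ J.image x`. So for `2 ≤ m ≤ 2 t`: `sf x * AK x ≤ 0`, for
`m = 1`: `sf x = 1` and `AK x ≤ -1`, for `m = 0`: `sf x * AK x = K ∅ ∅`. If the integrand of
some term `m ≥ 1` were not integrable its integral is `0` by convention, so integrability is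
needed for `m = 1`: it follows from `hK`.
-/

set_option autoImplicit false

open MeasureTheory Finset

namespace Pool.Agent.Helper47.LB

open Pool.Agent.Helper47.KP (Bd pim)

variable {X : Type} [MeasurableSpace X] [DecidableEq X] {σ : Measure X} [IsProbabilityMeasure σ]
  {g : X → X → ℝ} {G v ε : ℝ}

omit [MeasurableSpace X] [DecidableEq X] in
lemma sf_pair {m : ℕ} {x : Fin m → X} (h : sf g x ≠ 0) {i j : Fin m} (hij : i ≠ j) :
    g (x i) (x j) ≠ 0 := by
  unfold sf at h
  have h1 := prod_ne_zero_iff.1 h i (mem_univ _)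
  have h2 := prod_ne_zero_iff.1 h1 j (mem_univ _)
  rw [if_neg hij] at h2
  intro h3
  rw [h3, Real.sqrt_zero] at h2
  exact h2 rfl

omit [MeasurableSpace X] in
/-- for an injective tuple `AK` is the sum over the subsets of the image -/
lemma AK_eq_image (t : ℕ) (K : Finset X → Finset X → ℝ) {m : ℕ} {x : Fin m → X}
    (hx : Function.Injective x) :
    AK t K x = ∑ J ∈ (univ.image x).powerset, ∑ J' ∈ (univ.image x).powerset,
      if J ∪ J' = univ.image x ∧ J.card ≤ t ∧ J'.card ≤ t then K J J' else 0 := by
  have key : ∀ f : Finset X → ℝ, ∑ J ∈ (univ.image x).powerset, f J =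
      ∑ J : Finset (Fin m), f (J.image x) := by
    intro f
    symm
    refine sum_nbij (fun J => J.image x) ?_ ?_ ?_ ?_
    · intro J _
      rw [mem_powerset]
      exact image_subset_image (subset_univ _)
    · intro J _ J' _ h
      exact image_injective hx h
    · intro S hS
      rw [mem_coe, mem_powerset] at hS
      refine ⟨univ.filter fun i => x i ∈ S, by simp, ?_⟩
      ext y
      simp only [mem_image, mem_filter, mem_univ, true_and]
      constructor
      · rintro ⟨i, hi, rfl⟩
        exact hi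
      · intro hy
        obtain ⟨i, _, rfl⟩ := mem_image.1 (hS hy)
        exact ⟨i, hy, rfl⟩
    · intro J _
      rfl
  rw [key]
  unfold AK
  refine sum_congr rfl fun J _ => ?_
  rw [key]
  refine sum_congr rfl fun J' _ => ?_
  rw [card_image_of_injective _ hx, card_image_of_injective _ hx, ← image_union]
  have e : ((J ∪ J').image x = univ.image x) ↔ J ∪ J' = univ :=
    ⟨fun h => image_injective hx h, fun h => by rw [h]⟩
  simp only [e]

omit [DecidableEq X] in
lemma Bd_AK [DecidableEq X] (t : ℕ) {K : Finset X → Finset X → ℝ}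
    (hK : ∀ p q : ℕ, Bd fun w : (Fin p → X) × (Fin q → X) => K (univ.image w.1) (univ.image w.2))
    (m : ℕ) : Bd fun x : Fin m → X => AK t K x := by
  have im : ∀ (J : Finset (Fin m)) (x : Fin m → X),
      J.image x = univ.image fun i : Fin J.card => x (J.orderEmbOfFin rfl i) := by
    intro J x
    ext y
    simp only [mem_image, mem_univ, true_and]
    constructor
    · rintro ⟨a, ha, rfl⟩
      have h1 : a ∈ Set.range (J.orderEmbOfFin rfl) := by
        rw [range_orderEmbOfFin]
        exact ha
      obtain ⟨i, hi⟩ := h1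
      exact ⟨i, by rw [hi]⟩
    · rintro ⟨i, rfl⟩
      exact ⟨_, orderEmbOfFin_mem _ _ _, rfl⟩
  unfold AK
  refine Bd.sum _ fun J _ => Bd.sum _ fun J' _ => ?_
  split_ifs with h
  · have h1 := (hK J.card J'.card).comp
      (g := fun x : Fin m → X => ((fun i : Fin J.card => x (J.orderEmbOfFin rfl i)),
        (fun i : Fin J'.card => x (J'.orderEmbOfFin rfl i))))
      ((measurable_pi_lambda _ fun i => measurable_pi_apply _).prodMk
        (measurable_pi_lambda _ fun i => measurable_pi_apply _))
    simp only [im]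
    exact h1
  · exact Bd.const 0

theorem Lam_le (k : Ker σ g G v ε) (hg : ∀ x, g x x = 0) {t : ℕ} (ht : 1 ≤ t) {N : ℝ} (hN : 0 ≤ N)
    {K : Finset X → Finset X → ℝ}
    (hK : ∀ p q : ℕ, Bd fun w : (Fin p → X) × (Fin q → X) => K (univ.image w.1) (univ.image w.2))
    (hc : ∀ S : Finset X, S.Nonempty → S.card ≤ 2 * t →
      (∀ x ∈ S, ∀ y ∈ S, x ≠ y → g x y ≠ 0) →
      (∑ J ∈ S.powerset, ∑ J' ∈ S.powerset, if J ∪ J' = S ∧ J.card ≤ t ∧ J'.card ≤ t then
        K J J' else 0) ≤ if S.card = 1 then -1 else 0) :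
    Lam σ t N g K ≤ K ∅ ∅ - N := by
  have h0 : N ^ 0 / (Nat.factorial 0 : ℝ) * ∫ x : Fin 0 → X, sf g x * AK t K x ∂(pim σ 0) =
      K ∅ ∅ := by
    have h1 : ∀ x : Fin 0 → X, sf g x * AK t K x = K ∅ ∅ := by
      intro x
      have e1 : sf g x = 1 := by
        unfold sf
        simp
      have e2 : AK t K x = K ∅ ∅ := by
        unfold AK
        rw [Fintype.sum_unique, Fintype.sum_unique]
        have : (default : Finset (Fin 0)) = ∅ := Subsingleton.elim _ _
        rw [this, if_pos ⟨Subsingleton.elim _ _, by simp, by simp⟩, image_empty]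
      rw [e1, e2, one_mul]
    simp only [h1]
    simp
  have hpos : ∀ m : ℕ, 1 ≤ m → m ≤ 2 * t → ∀ x : Fin m → X,
      sf g x * AK t K x ≤ if m = 1 then sf g x * (-1) else 0 := by
    intro m hm hmt x
    by_cases hs : sf g x = 0
    · rw [hs]
      simp
    have hx : Function.Injective x := by
      intro i j hij
      by_contra hne
      have := sf_pair hs hne
      rw [hij] at this
      exact this (hg _)
    have hcard : (univ.image x).card = m := by
      rw [card_image_of_injective _ hx, card_univ, Fintype.card_fin]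
    have h1 := hc (univ.image x) (card_pos.1 (by omega)) (by omega) (by
      intro a ha b hb hab
      obtain ⟨i, _, rfl⟩ := mem_image.1 ha
      obtain ⟨j, _, rfl⟩ := mem_image.1 hb
      exact sf_pair hs fun h => hab (by rw [h]))
    rw [← AK_eq_image t K hx, hcard] at h1
    have h2 : 0 ≤ sf g x := sf_nonneg g x
    calc sf g x * AK t K x ≤ sf g x * (if m = 1 then -1 else 0) :=
          mul_le_mul_of_nonneg_left h1 h2
      _ = _ := by split_ifs <;> simp
  have h1 : N ^ 1 / (Nat.factorial 1 : ℝ) * ∫ x : Fin 1 → X, sf g x * AK t K x ∂(pim σ 1) ≤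
      -N := by
    have e1 : ∀ x : Fin 1 → X, sf g x = 1 := by
      intro x
      unfold sf
      simp
    have e2 : ∫ x : Fin 1 → X, sf g x * AK t K x ∂(pim σ 1) ≤ -1 := by
      have e3 : ∫ x : Fin 1 → X, sf g x * AK t K x ∂(pim σ 1) ≤
          ∫ _ : Fin 1 → X, (-1 : ℝ) ∂(pim σ 1) := by
        apply integral_mono
        · simp only [e1, one_mul]
          exact (Bd_AK t hK 1).integrable _
        · exact integrable_const _
        · intro x
          have := hpos 1 le_rfl (by omega) x
          rw [if_pos rfl, e1, one_mul] at this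
          simp only [e1, one_mul] at this ⊢
          exact this
      simpa using e3
    calc N ^ 1 / (Nat.factorial 1 : ℝ) * ∫ x : Fin 1 → X, sf g x * AK t K x ∂(pim σ 1)
        = N * ∫ x : Fin 1 → X, sf g x * AK t K x ∂(pim σ 1) := by simp
      _ ≤ N * (-1) := mul_le_mul_of_nonneg_left e2 hN
      _ = -N := by ring
  have h2 : ∀ m ∈ range (2 * t - 1), N ^ (m + 1 + 1) / (Nat.factorial (m + 1 + 1) : ℝ) *
      ∫ x : Fin (m + 1 + 1) → X, sf g x * AK t K x ∂(pim σ (m + 1 + 1)) ≤ 0 := by
    intro m hm
    rw [mem_range] at hm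
    apply mul_nonpos_of_nonneg_of_nonpos (by positivity)
    apply integral_nonpos
    intro x
    have := hpos (m + 1 + 1) (by omega) (by omega) x
    rw [if_neg (by omega)] at this
    exact this
  unfold Lam
  have e : 2 * t + 1 = (2 * t - 1) + 1 + 1 := by omega
  rw [e, sum_range_succ', sum_range_succ', h0]
  have h3 := sum_nonpos h2
  simp only [zero_add]
  linarith

end Pool.Agent.Helper47.LB
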