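import Pool.Agent.Helper47.KP.Extremal

/-!
BLOCK LB-S. Existence of the polynomial `q`.

The bilinear form `(c, e) ↦ ∫_{-b}^b pol c * pol e * wt D` on `Fin (n + 1) → ℝ` is positive
definite (`N1_pos`, or directly: `∫ (pol c)² wt D = 0` implies that `pol c` vanishes on `(-b, b)`),
so the linear map `c ↦ ∫ pol c * pol · * wt D` to the dual is injective, hence surjective
(`LinearMap.injective_iff_surjective_of_finrank_eq_finrank`, or use matrices). Apply this to the
functional `f ↦ ∫_{1/2}^1 f * wt D`. `pol_eq` turns polynomials of degree at most `n` into `pol c`.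
-/

set_option autoImplicit false

open MeasureTheory Set Polynomial

namespace Pool.Agent.Helper47.LB

open Pool.Agent.Helper47.KP (wt pol)

open Pool.Agent.Helper47.KP (pol_add pol_smul pol_eq pol_natDegree pol_eval pol_coeff
  continuous_wt wt_pos wt_nonneg)

lemma dual_cont (f : ℝ[X]) (D : ℕ) : Continuous fun t : ℝ => f.eval t * wt D t :=
  f.continuous.mul (continuous_wt D)

lemma dual_cont2 (f g : ℝ[X]) (D : ℕ) :
    Continuous fun t : ℝ => f.eval t * (g.eval t * wt D t) :=
  f.continuous.mul (dual_cont g D)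

lemma dual_add {n : ℕ} (c e : Fin (n + 1) → ℝ) (t : ℝ) :
    (pol (c + e)).eval t = (pol c).eval t + (pol e).eval t := by
  have := pol_add c e 1 t
  rwa [one_smul, one_mul] at this

/-- the bilinear form -/
noncomputable def dualForm (n D : ℕ) (b : ℝ) :
    (Fin (n + 1) → ℝ) →ₗ[ℝ] (Fin (n + 1) → ℝ) →ₗ[ℝ] ℝ :=
  LinearMap.mk₂ ℝ (fun c e => ∫ t in (-b)..b, (pol c).eval t * ((pol e).eval t * wt D t))
    (by
      intro c c' e
      rw [← intervalIntegral.integral_add ((dual_cont2 _ _ D).intervalIntegrable _ _)
        ((dual_cont2 _ _ D).intervalIntegrable _ _)]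
      refine intervalIntegral.integral_congr fun t _ => ?_
      simp only [dual_add]
      ring)
    (by
      intro s c e
      rw [smul_eq_mul, ← intervalIntegral.integral_const_mul]
      refine intervalIntegral.integral_congr fun t _ => ?_
      simp only [pol_smul]
      ring)
    (by
      intro c e e'
      rw [← intervalIntegral.integral_add ((dual_cont2 _ _ D).intervalIntegrable _ _)
        ((dual_cont2 _ _ D).intervalIntegrable _ _)]
      refine intervalIntegral.integral_congr fun t _ => ?_
      simp only [dual_add]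
      ring)
    (by
      intro s c e
      rw [smul_eq_mul, ← intervalIntegral.integral_const_mul]
      refine intervalIntegral.integral_congr fun t _ => ?_
      simp only [pol_smul]
      ring)

/-- the functional -/
noncomputable def dualFun (n D : ℕ) : (Fin (n + 1) → ℝ) →ₗ[ℝ] ℝ where
  toFun e := ∫ t in (1 / 2 : ℝ)..1, (pol e).eval t * wt D t
  map_add' e e' := by
    rw [← intervalIntegral.integral_add ((dual_cont _ D).intervalIntegrable _ _)
      ((dual_cont _ D).intervalIntegrable _ _)]
    refine intervalIntegral.integral_congr fun t _ => ?_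
    simp only [dual_add]
    ring
  map_smul' s e := by
    rw [RingHom.id_apply, smul_eq_mul, ← intervalIntegral.integral_const_mul]
    refine intervalIntegral.integral_congr fun t _ => ?_
    simp only [pol_smul]
    ring

lemma dualForm_pos (n D : ℕ) {b : ℝ} (hb0 : 0 < b) (hb1 : b < 1) {c : Fin (n + 1) → ℝ}
    (hc : c ≠ 0) : 0 < dualForm n D b c c := by
  have hp : pol c ≠ 0 := by
    intro h
    apply hc
    funext k
    rw [← pol_coeff c k, h]
    simp
  have hroot : ∃ t ∈ Ioo (-b) b, (pol c).eval t ≠ 0 := by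
    by_contra hcon
    push Not at hcon
    apply hp
    apply Polynomial.eq_zero_of_infinite_isRoot
    apply (Ioo_infinite (show -b < b by linarith)).mono
    intro t ht
    exact hcon t ht
  obtain ⟨t₀, ht₀, hne⟩ := hroot
  change 0 < ∫ t in (-b)..b, (pol c).eval t * ((pol c).eval t * wt D t)
  refine intervalIntegral.integral_pos (by linarith) (dual_cont2 _ _ D).continuousOn ?_ ?_
  · intro t _
    rw [← mul_assoc]
    exact mul_nonneg (mul_self_nonneg _) (wt_nonneg _ _)
  · refine ⟨t₀, ⟨ht₀.1.le, ht₀.2.le⟩, ?_⟩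
    rw [← mul_assoc]
    refine mul_pos (mul_self_pos.2 hne) (wt_pos ?_)
    rw [abs_lt]
    constructor
    · linarith [ht₀.1]
    · linarith [ht₀.2]

theorem exists_q (n D : ℕ) {b : ℝ} (hb0 : 0 < b) (hb1 : b < 1) :
    ∃ q : ℝ[X], q.natDegree ≤ n ∧ ∀ f : ℝ[X], f.natDegree ≤ n →
      ∫ t in (-b)..b, q.eval t * (f.eval t * wt D t) =
        ∫ t in (1 / 2 : ℝ)..1, f.eval t * wt D t := by
  have hinj : Function.Injective (dualForm n D b) := by
    rw [← LinearMap.ker_eq_bot, LinearMap.ker_eq_bot']
    intro c hc
    by_contra hne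
    have h := dualForm_pos n D hb0 hb1 hne
    rw [hc] at h
    exact lt_irrefl _ h
  have hsurj : Function.Surjective (dualForm n D b) :=
    (LinearMap.injective_iff_surjective_of_finrank_eq_finrank
      (Subspace.dual_finrank_eq (K := ℝ) (V := Fin (n + 1) → ℝ)).symm).1 hinj
  obtain ⟨c, hc⟩ := hsurj (dualFun n D)
  refine ⟨pol c, pol_natDegree c, fun f hf => ?_⟩
  have h := congrArg (fun F : (Fin (n + 1) → ℝ) →ₗ[ℝ] ℝ => F (fun k => f.coeff k)) hc
  change ∫ t in (-b)..b, (pol c).eval t *
    ((pol (fun k : Fin (n + 1) => f.coeff k)).eval t * wt D t) =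
    ∫ t in (1 / 2 : ℝ)..1, (pol (fun k : Fin (n + 1) => f.coeff k)).eval t * wt D t at h
  rwa [pol_eq hf] at h

end Pool.Agent.Helper47.LB
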