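import Pool.Agent.Helper47.LB.Basic

/-!
BLOCK LB-D. The kernel `HH`.

`HH_cons`: write `P A y = ∏ i ∈ A, g (a i) y` and, for `A : Finset ι`,
`R A = ∏ j, (P A (b j) - 1)`, `Hs A = ∑ B ⊆ A, (-1)^(#A - #B) R B` (`= HH g (a|A) b`). Möbius
inversion over subsets: `R A = ∑ B ⊆ A, Hs B`. The left side is
`∑ A, (-1)^(n - #A) (P A b0 - 1) R A = ∑ A, (-1)^(n-#A) (P A b0 - 1) ∑ B ⊆ A, Hs B
 = ∑ B, Hs B * ∑ {A ⊇ B} (-1)^(n - #A) (P A b0 - 1)` and
`∑ {A ⊇ B} (-1)^(n-#A) P A b0 = P B b0 * ∏ i ∉ B, (g (a i) b0 - 1)` (`Finset.prod_add` or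
`Finset.prod_sub`-type expansion over the subsets of the complement of `B`), while
`∑ {A ⊇ B} (-1)^(n-#A) = if B = univ then 1 else 0`.
-/

set_option autoImplicit false

open MeasureTheory Finset

namespace Pool.Agent.Helper47.LB

open Pool.Agent.Helper47.KP (Bd pim)

variable {X : Type} (g : X → X → ℝ)

theorem Bd_HH [MeasurableSpace X] {g : X → X → ℝ} (hg : Bd fun p : X × X => g p.1 p.2)
    {ι κ : Type} [Fintype ι] [Fintype κ] :
    Bd fun p : (ι → X) × (κ → X) => HH g p.1 p.2 := by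
  unfold HH
  refine Bd.sum _ fun A _ => (Bd.const _).mul (Bd.prod _ fun j _ => ?_)
  have h1 : Bd fun p : (ι → X) × (κ → X) => ∏ i ∈ A, g (p.1 i) (p.2 j) :=
    Bd.prod _ fun i _ => hg.comp (g := fun p : (ι → X) × (κ → X) => (p.1 i, p.2 j))
      (((measurable_pi_apply i).comp measurable_fst).prodMk
        ((measurable_pi_apply j).comp measurable_snd))
  have h2 := h1.add (Bd.const (-1))
  simpa only [sub_eq_add_neg] using h2

theorem HH_zero {ι : Type} [Fintype ι] (a : ι → X) (b : Fin 0 → X) :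
    HH g a b = if Fintype.card ι = 0 then 1 else 0 := by
  unfold HH
  have h := Fintype.sum_pow_mul_eq_add_pow ι (1 : ℝ) (-1)
  simp only [one_pow, one_mul, add_neg_cancel] at h
  simp only [univ_eq_empty, prod_empty, mul_one]
  rw [h, zero_pow_eq]

theorem HH_empty {ι : Type} [Fintype ι] (hι : Fintype.card ι = 0) {q : ℕ} (a : ι → X)
    (b : Fin (q + 1) → X) : HH g a b = 0 := by
  unfold HH
  have := Fintype.card_eq_zero_iff.1 hι
  refine sum_eq_zero fun A _ => ?_
  have hA : A = ∅ := by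
    ext i
    exact isEmptyElim i
  subst hA
  simp

theorem HH_equiv {ι ι' : Type} [Fintype ι] [Fintype ι'] {κ : Type} [Fintype κ] (e : ι' ≃ ι)
    (a : ι → X) (b : κ → X) : HH g (fun i => a (e i)) b = HH g a b := by
  unfold HH
  refine Fintype.sum_equiv e.finsetCongr _ _ fun A => ?_
  rw [Equiv.finsetCongr_apply, card_map, Fintype.card_congr e]
  simp only [prod_map, Equiv.coe_toEmbedding]

/-- The kernel of a subfamily as a sum over the subsets. -/
theorem HH_sub {ι : Type} [Fintype ι] [DecidableEq ι] {κ : Type} [Fintype κ] (a : ι → X)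
    (b : κ → X) (B : Finset ι) : HH g (fun i : {i // i ∈ B} => a i) b =
      ∑ A ∈ B.powerset, (-1 : ℝ) ^ (B.card - A.card) *
        ∏ j, (∏ i ∈ A, g (a i) (b j) - 1) := by
  unfold HH
  symm
  refine sum_bij' (fun A _ => A.subtype (· ∈ B)) (fun C _ => C.map (Function.Embedding.subtype _))
    (fun A _ => mem_univ _) (fun C _ => ?_) (fun A hA => ?_) (fun C _ => ?_) (fun A hA => ?_)
  · rw [mem_powerset]
    intro i hi
    rw [mem_map] at hi
    obtain ⟨j, _, rfl⟩ := hi
    exact j.2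
  · rw [subtype_map, filter_eq_self]
    exact fun i hi => mem_powerset.1 hA hi
  · ext i
    simp
  · have h1 : (A.subtype (· ∈ B)).map (Function.Embedding.subtype _) = A := by
      rw [subtype_map, filter_eq_self]
      exact fun i hi => mem_powerset.1 hA hi
    have h2 : (A.subtype (· ∈ B)).card = A.card := by
      conv_rhs => rw [← h1]
      rw [card_map]
    have h3 : ∀ j, ∏ i ∈ A, g (a i) (b j) = ∏ i ∈ A.subtype (· ∈ B), g (a i) (b j) := by
      intro j
      conv_lhs => rw [← h1]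
      rw [prod_map]
      rfl
    rw [h2, Fintype.card_coe]
    simp only [h3]

/-- The inner alternating sum. -/
theorem HH_inner {ι : Type} [Fintype ι] [DecidableEq ι] (x : ι → ℝ) (A : Finset ι) :
    ∑ B ∈ univ.filter (fun B => A ⊆ B), (-1 : ℝ) ^ (B.card - A.card) *
      ((∏ i ∈ B, x i) * ∏ i ∈ Bᶜ, (x i - 1)) =
      (-1 : ℝ) ^ (Fintype.card ι - A.card) * ∏ i ∈ A, x i := by
  have h := prod_add (fun i => - x i) (fun i => x i - 1) Aᶜ
  have h0 : ∏ i ∈ Aᶜ, (- x i + (x i - 1)) = (-1 : ℝ) ^ (Fintype.card ι - A.card) := by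
    rw [← card_compl, ← prod_const]
    exact prod_congr rfl fun i _ => by ring
  rw [h0] at h
  rw [h, sum_mul]
  refine sum_bij' (fun B _ => B \ A) (fun C _ => A ∪ C) (fun B hB => ?_) (fun C hC => ?_)
    (fun B hB => ?_) (fun C hC => ?_) (fun B hB => ?_)
  · rw [mem_powerset]
    intro i hi
    rw [mem_sdiff] at hi
    exact mem_compl.2 hi.2
  · rw [mem_filter]
    exact ⟨mem_univ _, subset_union_left⟩
  · exact union_sdiff_of_subset (mem_filter.1 hB).2
  · rw [union_sdiff_left, Finset.sdiff_eq_self_iff_disjoint]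
    rw [mem_powerset] at hC
    exact disjoint_left.2 fun i hi hA => mem_compl.1 (hC hi) hA
  · have hAB := (mem_filter.1 hB).2
    have h1 : Aᶜ \ (B \ A) = Bᶜ := by
      ext i
      simp only [mem_sdiff, mem_compl, not_and, not_not]
      constructor
      · rintro ⟨h1, h2⟩ h3
        exact h1 (h2 h3)
      · intro h
        exact ⟨fun h1 => h (hAB h1), fun h1 => absurd h1 h⟩
    rw [h1, prod_neg, card_sdiff_of_subset hAB, ← prod_sdiff hAB]
    ring

theorem HH_cons {ι : Type} [Fintype ι] [DecidableEq ι] {q : ℕ} (a : ι → X) (b0 : X)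
    (b : Fin q → X) :
    HH g a (Fin.cons b0 b : Fin (q + 1) → X) = (∏ i, g (a i) b0 - 1) * HH g a b +
      ∑ A ∈ univ.erase (univ : Finset ι), (∏ i : {i // i ∈ A}, g (a i) b0) *
        (HH g (fun i : {i // i ∈ A} => a i) b * ∏ i : {i // i ∉ A}, (g (a i) b0 - 1)) := by
  set R : Finset ι → ℝ := fun A => ∏ j, (∏ i ∈ A, g (a i) (b j) - 1) with hR
  set x : ι → ℝ := fun i => g (a i) b0 with hx
  have e1 : HH g a (Fin.cons b0 b : Fin (q + 1) → X) =
      ∑ A : Finset ι, (-1 : ℝ) ^ (Fintype.card ι - A.card) * ((∏ i ∈ A, x i) * R A) -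
        HH g a b := by
    unfold HH
    rw [← sum_sub_distrib]
    refine sum_congr rfl fun A _ => ?_
    rw [Fin.prod_univ_succ]
    simp only [Fin.cons_zero, Fin.cons_succ]
    change _ * ((∏ i ∈ A, x i - 1) * R A) = _ * (_ * R A) - _ * R A
    ring
  have e2 : ∀ A : Finset ι, (∏ i : {i // i ∈ A}, g (a i) b0) = ∏ i ∈ A, x i := fun A =>
    prod_coe_sort A x
  have e3 : ∀ A : Finset ι, (∏ i : {i // i ∉ A}, (g (a i) b0 - 1)) = ∏ i ∈ Aᶜ, (x i - 1) := by
    intro A
    exact (prod_subtype Aᶜ (fun i => mem_compl) (fun i => x i - 1)).symm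
  have e4 : HH g (fun i : {i // i ∈ (univ : Finset ι)} => a i) b = HH g a b := by
    rw [HH_sub]
    unfold HH
    rw [powerset_univ, card_univ]
  have e5 : ∑ A : Finset ι, (∏ i ∈ A, x i) *
      (HH g (fun i : {i // i ∈ A} => a i) b * ∏ i ∈ Aᶜ, (x i - 1)) =
      ∑ A : Finset ι, (-1 : ℝ) ^ (Fintype.card ι - A.card) * ((∏ i ∈ A, x i) * R A) := by
    have e6 : ∀ B : Finset ι, (∏ i ∈ B, x i) *
        (HH g (fun i : {i // i ∈ B} => a i) b * ∏ i ∈ Bᶜ, (x i - 1)) =
        ∑ A ∈ B.powerset, (-1 : ℝ) ^ (B.card - A.card) *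
          ((∏ i ∈ B, x i) * ∏ i ∈ Bᶜ, (x i - 1)) * R A := by
      intro B
      rw [HH_sub, sum_mul, mul_sum]
      exact sum_congr rfl fun A _ => by
        simp only [hR]
        ring
    simp only [e6]
    rw [sum_comm' (t' := univ) (s' := fun A => univ.filter (fun B => A ⊆ B))]
    · refine sum_congr rfl fun A _ => ?_
      rw [← sum_mul, HH_inner]
      ring
    · intro B A
      simp
  rw [e1, ← e5, ← add_sum_erase _ _ (mem_univ (univ : Finset ι)), e4, compl_univ, prod_empty]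
  simp only [e2, e3]
  ring

end Pool.Agent.Helper47.LB
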