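import Pool.Agent.Helper47.LB.LemU
import Pool.Agent.Helper47.LB.Mob

/-!
BLOCK LB-K. The two sided expansion.

For fixed `b : Fin q → X`, `cr g a b = ∏ i, (1 + k (a i))` with `k x = ∏ j, g x (b j) - 1`. So by
Fubini and `lemU` the left side is
`∑ q, N^q/q! ∫ b, ph z b * ∑ p, N^p/p! ∫ a, Ph z a * ∏ i, (∏ j, g (a i) (b j) - 1)`. Exchange:
for fixed `a : Fin p → X`, `∏ i, (∏ j, g (a i) (b j) - 1) = ∑ A : Finset (Fin p), (-1)^(p - #A) *
∏ j, (1 + k' (b j))` with `k' y = ∏ i ∈ A, g (a i) y - 1`, and again `lemU`, and the definition of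
`HH`.
-/

set_option autoImplicit false

open MeasureTheory Finset

namespace Pool.Agent.Helper47.LB

open Pool.Agent.Helper47.KP (Bd pim)

variable {X : Type} [MeasurableSpace X] [DecidableEq X] {σ : Measure X} [IsProbabilityMeasure σ]
  {g : X → X → ℝ} {G v ε : ℝ}

namespace Expand

/-- the kernel in the middle of the expansion -/
noncomputable def KK (g : X → X → ℝ) {p q : ℕ} (a : Fin p → X) (b : Fin q → X) : ℝ :=
  ∏ i, (∏ j, g (a i) (b j) - 1)

omit [DecidableEq X] in
theorem Bd_prod_left {g : X → X → ℝ} (hg : Bd fun p : X × X => g p.1 p.2) {q : ℕ}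
    (b : Fin q → X) : Bd fun x : X => ∏ j, g x (b j) - 1 := by
  have h1 : Bd fun x : X => ∏ j, g x (b j) :=
    Bd.prod _ fun j _ => hg.comp (g := fun x : X => (x, b j))
      (measurable_id.prodMk measurable_const)
  simpa only [sub_eq_add_neg] using h1.add (Bd.const (-1))

omit [DecidableEq X] in
theorem Bd_prod_right {g : X → X → ℝ} (hg : Bd fun p : X × X => g p.1 p.2) {p : ℕ}
    (a : Fin p → X) (A : Finset (Fin p)) : Bd fun y : X => ∏ i ∈ A, g (a i) y - 1 := by
  have h1 : Bd fun y : X => ∏ i ∈ A, g (a i) y :=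
    Bd.prod _ fun i _ => hg.comp (g := fun y : X => (a i, y))
      (measurable_const.prodMk measurable_id)
  simpa only [sub_eq_add_neg] using h1.add (Bd.const (-1))

omit [DecidableEq X] in
theorem Bd_KK {g : X → X → ℝ} (hg : Bd fun p : X × X => g p.1 p.2) (p q : ℕ) :
    Bd fun x : (Fin p → X) × (Fin q → X) => KK g x.1 x.2 := by
  unfold KK
  refine Bd.prod _ fun i _ => ?_
  have h1 : Bd fun x : (Fin p → X) × (Fin q → X) => ∏ j, g (x.1 i) (x.2 j) :=
    Bd.prod _ fun j _ => hg.comp (g := fun x : (Fin p → X) × (Fin q → X) => (x.1 i, x.2 j))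
      (((measurable_pi_apply i).comp measurable_fst).prodMk
        ((measurable_pi_apply j).comp measurable_snd))
  simpa only [sub_eq_add_neg] using h1.add (Bd.const (-1))

omit [DecidableEq X] in
/-- collecting the inner sums -/
theorem collect (n p : ℕ) (c : ℕ → ℝ) {U : (Fin p → X) → ℝ} {W : ∀ q, (Fin q → X) → ℝ}
    {K : ∀ q, (Fin p → X) → (Fin q → X) → ℝ} (hU : Bd U) (hW : ∀ q, Bd (W q))
    (hK : ∀ q, Bd fun x : (Fin p → X) × (Fin q → X) => K q x.1 x.2) :
    ∑ q ∈ range n, c p * c q * ∫ a : Fin p → X, ∫ b : Fin q → X, U a * W q b * K q a b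
        ∂(pim σ q) ∂(pim σ p) =
      c p * ∫ a : Fin p → X, U a * ∑ q ∈ range n, c q *
        ∫ b : Fin q → X, W q b * K q a b ∂(pim σ q) ∂(pim σ p) := by
  have h1 : ∀ q, Bd fun a : Fin p → X => ∫ b : Fin q → X, W q b * K q a b ∂(pim σ q) := by
    intro q
    have h2 : Bd fun x : (Fin p → X) × (Fin q → X) => W q x.2 * K q x.1 x.2 :=
      ((hW q).comp measurable_snd).mul (hK q)
    exact h2.integral (pim σ q)
  have h3 : ∫ a : Fin p → X, U a * ∑ q ∈ range n, c q *
      ∫ b : Fin q → X, W q b * K q a b ∂(pim σ q) ∂(pim σ p) =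
      ∑ q ∈ range n, ∫ a : Fin p → X, U a * (c q *
        ∫ b : Fin q → X, W q b * K q a b ∂(pim σ q)) ∂(pim σ p) := by
    rw [← integral_finsetSum]
    · simp only [mul_sum]
    · intro q _
      exact (hU.mul ((Bd.const (c q)).mul (h1 q))).integrable _
  rw [h3, mul_sum]
  refine sum_congr rfl fun q _ => ?_
  rw [mul_assoc, ← integral_const_mul]
  congr 1
  refine integral_congr_ae (Filter.Eventually.of_forall fun a => ?_)
  show c q * ∫ b : Fin q → X, U a * W q b * K q a b ∂(pim σ q) =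
    U a * (c q * ∫ b : Fin q → X, W q b * K q a b ∂(pim σ q))
  have h4 : ∫ b : Fin q → X, U a * W q b * K q a b ∂(pim σ q) =
      U a * ∫ b : Fin q → X, W q b * K q a b ∂(pim σ q) := by
    rw [← integral_const_mul]
    simp only [mul_assoc]
  rw [h4]
  ring

/-- exchanging the functions of the second variable -/
theorem side (n : ℕ) (c : ℕ → ℝ) {U : ∀ p, (Fin p → X) → ℝ} {W W' : ∀ q, (Fin q → X) → ℝ}
    {K K' : ∀ p q, (Fin p → X) → (Fin q → X) → ℝ} (hU : ∀ p, Bd (U p)) (hW : ∀ q, Bd (W q))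
    (hW' : ∀ q, Bd (W' q))
    (hK : ∀ p q, Bd fun x : (Fin p → X) × (Fin q → X) => K p q x.1 x.2)
    (hK' : ∀ p q, Bd fun x : (Fin p → X) × (Fin q → X) => K' p q x.1 x.2)
    (h : ∀ p (a : Fin p → X), ∑ q ∈ range n, c q *
      ∫ b : Fin q → X, W q b * K p q a b ∂(pim σ q) =
        ∑ q ∈ range n, c q * ∫ b : Fin q → X, W' q b * K' p q a b ∂(pim σ q)) :
    ∑ p ∈ range n, ∑ q ∈ range n, c p * c q * ∫ a : Fin p → X, ∫ b : Fin q → X,
        U p a * W q b * K p q a b ∂(pim σ q) ∂(pim σ p) =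
      ∑ p ∈ range n, ∑ q ∈ range n, c p * c q * ∫ a : Fin p → X, ∫ b : Fin q → X,
        U p a * W' q b * K' p q a b ∂(pim σ q) ∂(pim σ p) := by
  refine sum_congr rfl fun p _ => ?_
  rw [collect n p c (hU p) hW (hK p), collect n p c (hU p) hW' (hK' p)]
  simp only [h p]

omit [DecidableEq X] in
/-- Fubini -/
theorem swap (p q : ℕ) {U : (Fin p → X) → ℝ} {W : (Fin q → X) → ℝ}
    {K : (Fin p → X) → (Fin q → X) → ℝ} (hU : Bd U) (hW : Bd W)
    (hK : Bd fun x : (Fin p → X) × (Fin q → X) => K x.1 x.2) :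
    ∫ a : Fin p → X, ∫ b : Fin q → X, U a * W b * K a b ∂(pim σ q) ∂(pim σ p) =
      ∫ b : Fin q → X, ∫ a : Fin p → X, W b * U a * K a b ∂(pim σ p) ∂(pim σ q) := by
  have h1 : Bd fun x : (Fin p → X) × (Fin q → X) => U x.1 * W x.2 * K x.1 x.2 :=
    ((hU.comp measurable_fst).mul (hW.comp measurable_snd)).mul hK
  rw [integral_integral_swap (h1.integrable _)]
  refine integral_congr_ae (Filter.Eventually.of_forall fun b => ?_)
  refine integral_congr_ae (Filter.Eventually.of_forall fun a => ?_)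
  show U a * W b * K a b = W b * U a * K a b
  ring

omit [DecidableEq X] in
theorem Bd_swap {p q : ℕ} {K : (Fin p → X) → (Fin q → X) → ℝ}
    (hK : Bd fun x : (Fin p → X) × (Fin q → X) => K x.1 x.2) :
    Bd fun x : (Fin q → X) × (Fin p → X) => K x.2 x.1 :=
  hK.comp (g := fun x : (Fin q → X) × (Fin p → X) => (x.2, x.1))
    (measurable_snd.prodMk measurable_fst)

/-- exchanging the functions of the first variable -/
theorem side' (n : ℕ) (c : ℕ → ℝ) {U U' : ∀ p, (Fin p → X) → ℝ} {W : ∀ q, (Fin q → X) → ℝ}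
    {K K' : ∀ p q, (Fin p → X) → (Fin q → X) → ℝ} (hU : ∀ p, Bd (U p)) (hU' : ∀ p, Bd (U' p))
    (hW : ∀ q, Bd (W q))
    (hK : ∀ p q, Bd fun x : (Fin p → X) × (Fin q → X) => K p q x.1 x.2)
    (hK' : ∀ p q, Bd fun x : (Fin p → X) × (Fin q → X) => K' p q x.1 x.2)
    (h : ∀ q (b : Fin q → X), ∑ p ∈ range n, c p *
      ∫ a : Fin p → X, U p a * K p q a b ∂(pim σ p) =
        ∑ p ∈ range n, c p * ∫ a : Fin p → X, U' p a * K' p q a b ∂(pim σ p)) :
    ∑ p ∈ range n, ∑ q ∈ range n, c p * c q * ∫ a : Fin p → X, ∫ b : Fin q → X,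
        U p a * W q b * K p q a b ∂(pim σ q) ∂(pim σ p) =
      ∑ p ∈ range n, ∑ q ∈ range n, c p * c q * ∫ a : Fin p → X, ∫ b : Fin q → X,
        U' p a * W q b * K' p q a b ∂(pim σ q) ∂(pim σ p) := by
  have e : ∀ (V : ∀ p, (Fin p → X) → ℝ) (H : ∀ p q, (Fin p → X) → (Fin q → X) → ℝ),
      (∀ p, Bd (V p)) → (∀ p q, Bd fun x : (Fin p → X) × (Fin q → X) => H p q x.1 x.2) →
      ∑ p ∈ range n, ∑ q ∈ range n, c p * c q * ∫ a : Fin p → X, ∫ b : Fin q → X,
        V p a * W q b * H p q a b ∂(pim σ q) ∂(pim σ p) =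
      ∑ q ∈ range n, ∑ p ∈ range n, c q * c p * ∫ b : Fin q → X, ∫ a : Fin p → X,
        W q b * V p a * H p q a b ∂(pim σ p) ∂(pim σ q) := by
    intro V H hV hH
    rw [sum_comm]
    refine sum_congr rfl fun q _ => sum_congr rfl fun p _ => ?_
    rw [swap p q (hV p) (hW q) (hH p q), mul_comm (c p) (c q)]
  rw [e U K hU hK, e U' K' hU' hK']
  exact side n c (U := W) (W := U) (W' := U') (K := fun q p b a => K p q a b)
    (K' := fun q p b a => K' p q a b) hW hU hU' (fun q p => Bd_swap (hK p q))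
    (fun q p => Bd_swap (hK' p q)) h

end Expand

open Expand in
theorem expand (K : Ker σ g G v ε) (t : ℕ) (N : ℝ) {F : Finset X → ℝ} (hF : FB F) {ι : Type}
    [Fintype ι] (z : ι → X) :
    ∑ p ∈ range (t + 1), ∑ q ∈ range (t + 1),
      N ^ p / (p.factorial : ℝ) * (N ^ q / (q.factorial : ℝ)) *
      ∫ a : Fin p → X, ∫ b : Fin q → X, ph t g F z a * ph t g F z b * cr g a b
        ∂(pim σ q) ∂(pim σ p) =
    ∑ p ∈ range (t + 1), ∑ q ∈ range (t + 1),
      N ^ p / (p.factorial : ℝ) * (N ^ q / (q.factorial : ℝ)) *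
      ∫ a : Fin p → X, ∫ b : Fin q → X, Ph σ t N g F z a * Ph σ t N g F z b * HH g a b
        ∂(pim σ q) ∂(pim σ p) := by
  have hg : Bd fun p : X × X => g p.1 p.2 := K.bd
  have hph : ∀ p : ℕ, Bd fun a : Fin p → X => ph t g F z a := fun p =>
    (Bd_ph (ι := ι) (κ := Fin p) t hg hF).comp (g := fun a : Fin p → X => (z, a))
      (measurable_const.prodMk measurable_id)
  have hPh : ∀ p : ℕ, Bd fun a : Fin p → X => Ph σ t N g F z a := fun p =>
    (Bd_Ph (ι := ι) (κ := Fin p) σ t N hg hF).comp (g := fun a : Fin p → X => (z, a))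
      (measurable_const.prodMk measurable_id)
  -- the first variable
  have s1 := side' (σ := σ) (t + 1) (fun p => N ^ p / (p.factorial : ℝ))
    (U := fun p a => ph t g F z a) (U' := fun p a => Ph σ t N g F z a)
    (W := fun q b => ph t g F z b) (K := fun p q a b => cr g a b) (K' := fun p q a b => KK g a b)
    hph hPh hph (fun p q => Bd_cr hg) (fun p q => Bd_KK hg p q) (by
      intro q b
      have h1 := lemU K t N hF z (Bd_prod_left hg b)
      have h2 : ∀ (p : ℕ) (a : Fin p → X), cr g a b = ∏ i, (1 + (∏ j, g (a i) (b j) - 1)) := by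
        intro p a
        unfold cr
        exact prod_congr rfl fun i _ => by ring
      simp only [h2]
      exact h1)
  refine s1.trans ?_
  -- the second variable
  exact side (σ := σ) (t + 1) (fun p => N ^ p / (p.factorial : ℝ))
    (U := fun p a => Ph σ t N g F z a) (W := fun q b => ph t g F z b)
    (W' := fun q b => Ph σ t N g F z b) (K := fun p q a b => KK g a b)
    (K' := fun p q a b => HH g a b) hPh hph hPh (fun p q => Bd_KK hg p q)
    (fun p q => Bd_HH hg) (by
      intro p a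
      have h1 : ∀ (q : ℕ) (b : Fin q → X), KK g a b = ∑ A : Finset (Fin p),
          (-1 : ℝ) ^ (p - A.card) * ∏ j, (1 + (∏ i ∈ A, g (a i) (b j) - 1)) := by
        intro q b
        unfold KK
        simp only [sub_eq_add_neg]
        rw [prod_add, powerset_univ]
        refine sum_congr rfl fun A _ => ?_
        rw [prod_const, card_univ_sdiff, Fintype.card_fin, prod_comm, mul_comm]
        congr 1
        exact prod_congr rfl fun j _ => by ring
      have h2 : ∀ A : Finset (Fin p), Bd fun y : X => ∏ i ∈ A, g (a i) y - 1 := fun A =>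
        Bd_prod_right hg a A
      have h3 : ∀ (A : Finset (Fin p)), ∑ q ∈ range (t + 1), N ^ q / (q.factorial : ℝ) *
          ∫ b : Fin q → X, ph t g F z b * ∏ j, (1 + (∏ i ∈ A, g (a i) (b j) - 1)) ∂(pim σ q) =
          ∑ q ∈ range (t + 1), N ^ q / (q.factorial : ℝ) *
          ∫ b : Fin q → X, Ph σ t N g F z b * ∏ j, (∏ i ∈ A, g (a i) (b j) - 1) ∂(pim σ q) :=
        fun A => lemU K t N hF z (h2 A)
      -- both sides as sums over `A`
      have key : ∀ (V : ∀ q, (Fin q → X) → ℝ) (m : ∀ q, Finset (Fin p) → (Fin q → X) → ℝ),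
          (∀ q, Bd (V q)) → (∀ q A, Bd (m q A)) →
          ∑ q ∈ range (t + 1), N ^ q / (q.factorial : ℝ) * ∫ b : Fin q → X, V q b *
            ∑ A : Finset (Fin p), (-1 : ℝ) ^ (p - A.card) * m q A b ∂(pim σ q) =
          ∑ A : Finset (Fin p), (-1 : ℝ) ^ (p - A.card) * ∑ q ∈ range (t + 1),
            N ^ q / (q.factorial : ℝ) * ∫ b : Fin q → X, V q b * m q A b ∂(pim σ q) := by
        intro V m hV hm
        have h4 : ∀ q, ∫ b : Fin q → X, V q b *
            ∑ A : Finset (Fin p), (-1 : ℝ) ^ (p - A.card) * m q A b ∂(pim σ q) =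
            ∑ A : Finset (Fin p), (-1 : ℝ) ^ (p - A.card) *
              ∫ b : Fin q → X, V q b * m q A b ∂(pim σ q) := by
          intro q
          have h5 : (fun b : Fin q → X => V q b *
              ∑ A : Finset (Fin p), (-1 : ℝ) ^ (p - A.card) * m q A b) =
              fun b => ∑ A : Finset (Fin p), (-1 : ℝ) ^ (p - A.card) * (V q b * m q A b) := by
            funext b
            rw [mul_sum]
            exact sum_congr rfl fun A _ => by ring
          rw [h5, integral_finsetSum]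
          · exact sum_congr rfl fun A _ => integral_const_mul _ _
          · intro A _
            exact ((Bd.const _).mul ((hV q).mul (hm q A))).integrable _
        simp only [h4]
        simp only [mul_sum]
        rw [sum_comm]
        exact sum_congr rfl fun A _ => sum_congr rfl fun q _ => by ring
      have hm1 : ∀ q (A : Finset (Fin p)), Bd fun b : Fin q → X =>
          ∏ j, (1 + (∏ i ∈ A, g (a i) (b j) - 1)) := fun q A =>
        Bd.prod _ fun j _ => (Bd.const 1).add ((h2 A).comp (measurable_pi_apply j))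
      have hm2 : ∀ q (A : Finset (Fin p)), Bd fun b : Fin q → X =>
          ∏ j, (∏ i ∈ A, g (a i) (b j) - 1) := fun q A =>
        Bd.prod _ fun j _ => (h2 A).comp (measurable_pi_apply j)
      have k1 := key (fun q b => ph t g F z b)
        (fun q A b => ∏ j, (1 + (∏ i ∈ A, g (a i) (b j) - 1))) hph hm1
      have k2 := key (fun q b => Ph σ t N g F z b)
        (fun q A b => ∏ j, (∏ i ∈ A, g (a i) (b j) - 1)) hPh hm2
      simp only [h1]
      refine k1.trans ?_
      simp only [h3]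
      refine k2.symm.trans ?_
      unfold HH
      simp only [Fintype.card_fin])

end Pool.Agent.Helper47.LB
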