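import Pool.Agent.Helper47.KP.Sphere

/-!
Feasible solutions of the Lasserre hierarchy of the kissing problem; soundness.
-/

set_option autoImplicit false

open Finset
open scoped RealInnerProductSpace

namespace Pool.Agent.Helper47.LB

open Pool.Agent.Helper47.KP (Sph EE)

/-- separated finite sets of the sphere -/
def Separated {d : ℕ} (S : Finset (Sph d)) : Prop :=
  ∀ x ∈ S, ∀ y ∈ S, x ≠ y → ⟪(x : EE d), (y : EE d)⟫ ≤ 1 / 2

open Classical in
/-- the operator `A_t` -/
noncomputable def opA {d : ℕ} (t : ℕ) (K : Finset (Sph d) → Finset (Sph d) → ℝ)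
    (S : Finset (Sph d)) : ℝ :=
  ∑ J ∈ S.powerset, ∑ J' ∈ S.powerset,
    if J ∪ J' = S ∧ J.card ≤ t ∧ J'.card ≤ t then K J J' else 0

open Classical in
/-- feasible solutions of level `t` -/
structure LFeas (d t : ℕ) (K : Finset (Sph d) → Finset (Sph d) → ℝ) : Prop where
  cont : ∀ p q, p ≤ t → q ≤ t → ContinuousOn
    (fun w : (Fin p → Sph d) × (Fin q → Sph d) => K (univ.image w.1) (univ.image w.2))
    {w | (∀ a b, a ≠ b → ⟪(w.1 a : EE d), (w.1 b : EE d)⟫ ≤ 1 / 2) ∧
      ∀ a b, a ≠ b → ⟪(w.2 a : EE d), (w.2 b : EE d)⟫ ≤ 1 / 2}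
  symm : ∀ S T, S.card ≤ t → T.card ≤ t → Separated S → Separated T → K S T = K T S
  psd : ∀ (n : ℕ) (S : Fin n → Finset (Sph d)) (c : Fin n → ℝ),
    (∀ i, (S i).card ≤ t ∧ Separated (S i)) → 0 ≤ ∑ i, ∑ j, c i * c j * K (S i) (S j)
  le : ∀ S : Finset (Sph d), S.Nonempty → S.card ≤ 2 * t → Separated S →
    opA t K S ≤ if S.card = 1 then -1 else 0

open Classical in
/-- summing `A_t K` over the subsets of `I` -/
theorem sum_opA {d : ℕ} (t : ℕ) (K : Finset (Sph d) → Finset (Sph d) → ℝ) (I : Finset (Sph d)) :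
    ∑ S ∈ I.powerset, opA t K S =
      ∑ J ∈ I.powerset with J.card ≤ t, ∑ J' ∈ I.powerset with J'.card ≤ t, K J J' := by
  have e1 : ∀ S ∈ I.powerset, opA t K S = ∑ J ∈ I.powerset, ∑ J' ∈ I.powerset,
      if J ∪ J' = S ∧ J.card ≤ t ∧ J'.card ≤ t then K J J' else 0 := by
    intro S hS
    rw [mem_powerset] at hS
    unfold opA
    have hsub := powerset_mono.2 hS
    rw [← sum_subset hsub]
    · refine sum_congr rfl fun J _ => ?_
      rw [← sum_subset hsub]
      intro J' _ hJ'
      rw [if_neg]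
      rintro ⟨h, -, -⟩
      exact hJ' (mem_powerset.2 (h ▸ subset_union_right))
    · intro J _ hJ
      apply sum_eq_zero
      intro J' _
      rw [if_neg]
      rintro ⟨h, -, -⟩
      exact hJ (mem_powerset.2 (h ▸ subset_union_left))
  rw [sum_congr rfl e1, sum_comm, sum_filter]
  refine sum_congr rfl fun J hJ => ?_
  rw [sum_comm]
  by_cases hJt : J.card ≤ t
  · rw [if_pos hJt, sum_filter]
    refine sum_congr rfl fun J' hJ' => ?_
    by_cases hJt' : J'.card ≤ t
    · rw [if_pos hJt']
      simp only [hJt, hJt', and_true]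
      rw [sum_ite_eq, if_pos]
      rw [mem_powerset] at hJ hJ' ⊢
      exact union_subset hJ hJ'
    · rw [if_neg hJt']
      apply sum_eq_zero
      intro S _
      rw [if_neg]
      rintro ⟨-, -, h⟩
      exact hJt' h
  · rw [if_neg hJt]
    apply sum_eq_zero
    intro J' _
    apply sum_eq_zero
    intro S _
    rw [if_neg]
    rintro ⟨-, h, -⟩
    exact hJt h

/-- Every feasible solution bounds the size of every separated set. -/
theorem feasible_bound {d t : ℕ} (ht : 1 ≤ t) {K : Finset (Sph d) → Finset (Sph d) → ℝ}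
    (hf : LFeas d t K) {I : Finset (Sph d)} (hI : Separated I) : (I.card : ℝ) ≤ K ∅ ∅ := by
  classical
  -- positivity
  have h1 : 0 ≤ ∑ J ∈ I.powerset with J.card ≤ t, ∑ J' ∈ I.powerset with J'.card ≤ t, K J J' := by
    set P := I.powerset.filter fun J => J.card ≤ t with hP
    have h2 := hf.psd P.card (fun i => (P.equivFin.symm i : Finset (Sph d))) (fun _ => 1) (by
      intro i
      have h3 : ∀ J ∈ P, J ⊆ I ∧ J.card ≤ t := fun J hJ => by
        rw [hP, mem_filter, mem_powerset] at hJ
        exact hJ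
      replace h3 := h3 _ (P.equivFin.symm i).2
      exact ⟨h3.2, fun x hx y hy => hI x (h3.1 hx) y (h3.1 hy)⟩)
    simp only [one_mul] at h2
    have e1 : ∑ J ∈ P, ∑ J' ∈ P, K J J' = ∑ i : Fin P.card, ∑ j : Fin P.card,
        K (P.equivFin.symm i : Finset (Sph d)) (P.equivFin.symm j : Finset (Sph d)) := by
      rw [← sum_coe_sort P (fun J => ∑ J' ∈ P, K J J'),
        ← Equiv.sum_comp P.equivFin.symm (fun J : P => ∑ J' ∈ P, K J J')]
      refine sum_congr rfl fun i _ => ?_
      rw [← sum_coe_sort P (fun J' => K (P.equivFin.symm i : Finset (Sph d)) J'),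
        ← Equiv.sum_comp P.equivFin.symm
          (fun J' : P => K (P.equivFin.symm i : Finset (Sph d)) (J' : Finset (Sph d)))]
    rw [e1]
    exact h2
  have h2 : ∀ S ∈ I.powerset, opA t K S ≤
      (if S.card = 0 then K ∅ ∅ else 0) - (if S.card = 1 then 1 else 0) := by
    intro S hS
    rcases S.eq_empty_or_nonempty with rfl | hSn
    · simp [opA]
    · have hc0 : S.card ≠ 0 := (card_pos.2 hSn).ne'
      rw [if_neg hc0, zero_sub]
      by_cases hc : S.card ≤ 2 * t
      · have := hf.le S hSn hc (fun x hx y hy =>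
          hI x (mem_powerset.1 hS hx) y (mem_powerset.1 hS hy))
        refine this.trans (le_of_eq ?_)
        split_ifs <;> norm_num
      · rw [if_neg (by omega), neg_zero]
        apply le_of_eq
        unfold opA
        apply sum_eq_zero; intro J _
        apply sum_eq_zero; intro J' _
        rw [if_neg]
        rintro ⟨h, h3, h4⟩
        have h5 := card_union_le J J'
        rw [h] at h5
        omega
  have h3 := sum_le_sum h2
  rw [sum_opA, sum_sub_distrib] at h3
  have e1 : ∀ (m : ℕ) (c : ℝ), ∑ S ∈ I.powerset, (if S.card = m then c else 0) =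
      (I.card.choose m : ℝ) * c := by
    intro m c
    rw [← sum_filter, sum_const, nsmul_eq_mul]
    congr 2
    rw [← card_powersetCard]
    congr 1
    ext S
    simp [mem_powersetCard]
  rw [e1, e1, Nat.choose_one_right, Nat.choose_zero_right] at h3
  push_cast at h3
  linarith

end Pool.Agent.Helper47.LB
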