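import Pool.Agent.Helper47.LB.Basic

/-!
BLOCK LB-I. Splitting integrals over tuples, and sums over subsets.

`int_equiv`: `MeasureTheory.measurePreserving_piCongrLeft`,
`MeasureTheory.measurePreserving_sumPiEquivProdPi` (or `..._symm`), Fubini (`integral_prod`).
`sum_split`: `∑_{A ⊆ Fin m} f (#A) (m - #A) = ∑_{r ≤ m} choose m r * f r (m - r)`
(`Finset.sum_powerset_apply_card`), `choose m r / m! = 1 / (r! (m-r)!)`, and re-index
`(m, r) ↦ (r, m - r)`.
-/

set_option autoImplicit false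

open MeasureTheory Finset

namespace Pool.Agent.Helper47.LB

open Pool.Agent.Helper47.KP (Bd pim)

variable {X : Type} [MeasurableSpace X] (σ : Measure X) [IsProbabilityMeasure σ]

theorem int_reindex {ι ρ : Type} [Fintype ι] [Fintype ρ] (e : ι ≃ ρ) (Ψ : (ι → X) → ℝ) :
    ∫ x : ρ → X, Ψ (fun i => x (e i)) ∂(pis σ ρ) = ∫ y : ι → X, Ψ y ∂(pis σ ι) := by
  have h := measurePreserving_piCongrLeft (α := fun _ : ρ => X) (fun _ : ρ => σ) e
  have h1 := h.integral_comp' (fun x : ρ → X => Ψ (fun i => x (e i)))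
  rw [← h1]
  refine integral_congr_ae (Filter.Eventually.of_forall fun y => ?_)
  refine congrArg Ψ (funext fun i => ?_)
  exact MeasurableEquiv.piCongrLeft_apply_apply (β := fun _ : ρ => X) e y i

theorem int_equiv {ι κ ρ : Type} [Fintype ι] [Fintype κ] [Fintype ρ] (e : ι ⊕ κ ≃ ρ)
    {Ψ : (ι → X) → (κ → X) → ℝ} (hΨ : Bd fun p : (ι → X) × (κ → X) => Ψ p.1 p.2) :
    ∫ x : ρ → X, Ψ (fun i => x (e (Sum.inl i))) (fun j => x (e (Sum.inr j))) ∂(pis σ ρ) =
      ∫ y : ι → X, ∫ b : κ → X, Ψ y b ∂(pis σ κ) ∂(pis σ ι) := by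
  have h0 := int_reindex σ e (fun y : ι ⊕ κ → X => Ψ (fun i => y (Sum.inl i))
    (fun j => y (Sum.inr j)))
  rw [h0]
  have h := measurePreserving_sumPiEquivProdPi (X := fun _ : ι ⊕ κ => X) (fun _ => σ)
  have h1 := h.integral_comp' (fun p : (ι → X) × (κ → X) => Ψ p.1 p.2)
  have h2 := integral_prod (μ := pis σ ι) (ν := pis σ κ)
    (fun p : (ι → X) × (κ → X) => Ψ p.1 p.2) (hΨ.integrable _)
  rw [← h2, ← h1]
  rfl

theorem sum_split (N : ℝ) (M : ℕ) (f : ℕ → ℕ → ℝ) :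
    ∑ m ∈ range (M + 1), N ^ m / (m.factorial : ℝ) *
      ∑ A : Finset (Fin m), f A.card (m - A.card) =
    ∑ r ∈ range (M + 1), ∑ q ∈ range (M + 1), if r + q ≤ M then
      N ^ r / (r.factorial : ℝ) * (N ^ q / (q.factorial : ℝ)) * f r q else 0 := by
  have hA : ∀ m : ℕ, N ^ m / (m.factorial : ℝ) * ∑ A : Finset (Fin m), f A.card (m - A.card) =
      ∑ r ∈ range (m + 1), N ^ r / (r.factorial : ℝ) *
        (N ^ (m - r) / ((m - r).factorial : ℝ)) * f r (m - r) := by
    intro m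
    have h1 := Finset.sum_powerset_apply_card (x := (univ : Finset (Fin m)))
      (fun r => f r (m - r))
    rw [Finset.powerset_univ, Finset.card_univ, Fintype.card_fin] at h1
    rw [h1, mul_sum]
    refine sum_congr rfl fun r hr => ?_
    have hr' : r ≤ m := Nat.lt_succ_iff.1 (mem_range.1 hr)
    have h2 : ((m.choose r : ℕ) : ℝ) * (r.factorial : ℝ) * ((m - r).factorial : ℝ) =
        (m.factorial : ℝ) := by
      exact_mod_cast Nat.choose_mul_factorial_mul_factorial hr'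
    have h3 : (m.factorial : ℝ) ≠ 0 := by exact_mod_cast m.factorial_ne_zero
    have h4 : (r.factorial : ℝ) ≠ 0 := by exact_mod_cast r.factorial_ne_zero
    have h5 : ((m - r).factorial : ℝ) ≠ 0 := by exact_mod_cast (m - r).factorial_ne_zero
    have h6 : N ^ m = N ^ r * N ^ (m - r) := by rw [← pow_add, Nat.add_sub_cancel' hr']
    rw [nsmul_eq_mul, h6, ← h2]
    have h7 : ((m.choose r : ℕ) : ℝ) ≠ 0 := by
      exact_mod_cast (Nat.choose_pos hr').ne'
    field_simp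
  rw [sum_congr rfl fun m _ => hA m, sum_sigma', sum_sigma']
  rw [← Finset.sum_filter (fun x : (_ : ℕ) × ℕ => x.1 + x.2 ≤ M)
    (fun x => N ^ x.1 / (x.1.factorial : ℝ) * (N ^ x.2 / (x.2.factorial : ℝ)) * f x.1 x.2)]
  refine Finset.sum_bij' (fun x _ => ⟨x.2, x.1 - x.2⟩) (fun x _ => ⟨x.1 + x.2, x.1⟩)
    ?_ ?_ ?_ ?_ ?_
  · rintro ⟨m, r⟩ h
    simp only [mem_sigma, mem_range, mem_filter] at h ⊢
    omega
  · rintro ⟨r, q⟩ h
    simp only [mem_sigma, mem_range, mem_filter] at h ⊢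
    omega
  · rintro ⟨m, r⟩ h
    simp only [mem_sigma, mem_range] at h
    have : r + (m - r) = m := by omega
    simp [this]
  · rintro ⟨r, q⟩ h
    simp
  · rintro ⟨m, r⟩ h
    rfl

/-- an equivalence which sends the left summand to `A` -/
theorem exists_split {m : ℕ} (A : Finset (Fin m)) : ∃ e : Fin A.card ⊕ Fin (m - A.card) ≃ Fin m,
    (univ.image fun i => e (Sum.inl i)) = A ∧ (univ.image fun j => e (Sum.inr j)) = Aᶜ := by
  have hc : (Aᶜ).card = m - A.card := by rw [card_compl, Fintype.card_fin]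
  let e1 : Fin A.card ≃ A := A.equivFin.symm
  let e2 : Fin (m - A.card) ≃ (Aᶜ : Finset (Fin m)) := ((Aᶜ).equivFinOfCardEq hc).symm
  let e3 : (Aᶜ : Finset (Fin m)) ≃ {x // ¬ x ∈ A} :=
    Equiv.subtypeEquivRight fun x => by simp
  let e : Fin A.card ⊕ Fin (m - A.card) ≃ Fin m :=
    (Equiv.sumCongr e1 (e2.trans e3)).trans (Equiv.sumCompl fun x => x ∈ A)
  refine ⟨e, ?_, ?_⟩
  · ext x
    simp only [mem_image, mem_univ, true_and]
    constructor
    · rintro ⟨i, rfl⟩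
      exact (e1 i).2
    · intro hx
      refine ⟨e1.symm ⟨x, hx⟩, ?_⟩
      change ((e1 (e1.symm ⟨x, hx⟩) : A) : Fin m) = x
      rw [Equiv.apply_symm_apply]
  · ext x
    simp only [mem_image, mem_univ, true_and]
    constructor
    · rintro ⟨j, rfl⟩
      exact (e2 j).2
    · intro hx
      refine ⟨e2.symm ⟨x, hx⟩, ?_⟩
      change ((e2 (e2.symm ⟨x, hx⟩) : (Aᶜ : Finset (Fin m))) : Fin m) = x
      rw [Equiv.apply_symm_apply]

end Pool.Agent.Helper47.LB
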