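import Pool.Agent.Helper47.LB.Alg
import Pool.Agent.Helper47.LB.Split

/-!
BLOCK LB-N. The moment functional is the form.

`AK t K x = ∑ J : Finset (Fin m), ∑ L ⊆ J, [#J ≤ t][#L + (m - #J) ≤ t] K (x J) (x (L ∪ Jᶜ))`
(`J' = L ∪ Jᶜ`, `L = J ∩ J'`). Fix `J` with `#J = r`, `m - r = q`, and the equivalence `e` of
`exists_split`; by `int_equiv`, `image` of composites and `sf_equiv`,
`∫ sf x * ∑_{L ⊆ J} ... = ∫_y ∫_b sf (Sum.elim y b) * ∑_{L : Finset (Fin r)} [r ≤ t][#L + q ≤ t]
K (im y) (y L ∪ im b) = f r q`, and `sum_split` (with `M = 2 t`). In `f r q`, for each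
`L : Finset (Fin r)` again `exists_split` and `int_equiv`: it is
`∑_L f' q #L (r - #L)` with `f' q l p = ∫_z ∫_a ∫_b sf (Sum.elim (Sum.elim z a) b)
[l + p ≤ t][l + q ≤ t] K (im z ∪ im a) (im z ∪ im b)`, and `sum_split` in `r` (again with
`M = 2 t`); the conditions `l + p ≤ t`, `l + q ≤ t` imply `l + p + q ≤ 2 t` and `l, p, q ≤ t`, so
all the other range conditions can be dropped. Finally `sf_elim`, `cr_elim_left`.
-/

set_option autoImplicit false

open MeasureTheory Finset

namespace Pool.Agent.Helper47.LB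

open Pool.Agent.Helper47.KP (Bd pim)

variable {X : Type} [MeasurableSpace X] [DecidableEq X] {σ : Measure X} [IsProbabilityMeasure σ]
  {g : X → X → ℝ} {G v ε : ℝ}

omit [MeasurableSpace X] in
/-- combinatorial form of `AK` -/
theorem AK_eq {t m : ℕ} (K : Finset X → Finset X → ℝ) (x : Fin m → X) :
    AK t K x = ∑ J : Finset (Fin m), ∑ L ∈ J.powerset,
      if J.card ≤ t ∧ L.card + (m - J.card) ≤ t then K (J.image x) ((L ∪ Jᶜ).image x) else 0 := by
  unfold AK
  refine sum_congr rfl fun J _ => ?_
  have h1 : ∀ J' : Finset (Fin m),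
      (if J ∪ J' = univ ∧ J.card ≤ t ∧ J'.card ≤ t then K (J.image x) (J'.image x) else 0) =
      if J ∪ J' = univ then (if J.card ≤ t ∧ J'.card ≤ t then K (J.image x) (J'.image x) else 0)
        else 0 := fun J' => ite_and _ _ _ _
  simp only [h1]
  rw [← sum_filter]
  symm
  refine sum_bij' (fun L _ => L ∪ Jᶜ) (fun J' _ => J ∩ J') ?_ ?_ ?_ ?_ ?_
  · intro L _
    simp only [mem_filter, mem_univ, true_and]
    ext i
    simp only [mem_union, mem_compl, mem_univ, iff_true]
    tauto
  · intro J' _
    rw [mem_powerset]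
    exact inter_subset_left
  · intro L hL
    rw [mem_powerset] at hL
    ext i
    simp only [mem_inter, mem_union, mem_compl]
    have := @hL i
    tauto
  · intro J' hJ'
    simp only [mem_filter, mem_univ, true_and] at hJ'
    ext i
    have h2 : i ∈ J ∪ J' := by rw [hJ']; exact mem_univ i
    simp only [mem_union, mem_inter, mem_compl] at h2 ⊢
    tauto
  · intro L hL
    rw [mem_powerset] at hL
    have h2 : (L ∪ Jᶜ).card = L.card + (m - J.card) := by
      rw [card_union_of_disjoint, card_compl, Fintype.card_fin]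
      rw [disjoint_left]
      intro i hi hi'
      exact (mem_compl.1 hi') (hL hi)
    rw [h2]

namespace Ident

theorem BdK {K : Finset X → Finset X → ℝ}
    (hK : ∀ p q : ℕ, Bd fun w : (Fin p → X) × (Fin q → X) => K (univ.image w.1) (univ.image w.2))
    {Y : Type} [MeasurableSpace Y] {ι κ : Type} [Fintype ι] [Fintype κ]
    {u : Y → ι → X} {w : Y → κ → X} (hu : Measurable u) (hw : Measurable w) :
    Bd fun y => K (univ.image (u y)) (univ.image (w y)) := by
  have hm : Measurable (fun y : Y => ((fun i => u y ((Fintype.equivFin ι).symm i)),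
      (fun i => w y ((Fintype.equivFin κ).symm i)))) :=
    (measurable_pi_lambda _ fun i => (measurable_pi_apply _).comp hu).prodMk
      (measurable_pi_lambda _ fun i => (measurable_pi_apply _).comp hw)
  have h := (hK (Fintype.card ι) (Fintype.card κ)).comp hm
  have h2 : ∀ y, K (univ.image (u y)) (univ.image (w y)) =
      K (univ.image fun i => u y ((Fintype.equivFin ι).symm i))
        (univ.image fun i => w y ((Fintype.equivFin κ).symm i)) := by
    intro y
    rw [image_equiv, image_equiv]
  simp only [h2]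
  exact h

omit [DecidableEq X] in
theorem meas_elim {Y : Type} [MeasurableSpace Y] {ι κ : Type} [Fintype ι] [Fintype κ]
    {u : Y → ι → X} {w : Y → κ → X} (hu : Measurable u) (hw : Measurable w) :
    Measurable fun y => (Sum.elim (u y) (w y) : ι ⊕ κ → X) := by
  rw [measurable_pi_iff]
  intro i
  rcases i with i | i
  · exact (measurable_pi_apply i).comp hu
  · exact (measurable_pi_apply i).comp hw

/-- the first integrand -/
noncomputable def Psi1 (t : ℕ) (g : X → X → ℝ) (K : Finset X → Finset X → ℝ) (r q : ℕ)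
    (y : Fin r → X) (b : Fin q → X) : ℝ :=
  sf g (Sum.elim y b) * ∑ L : Finset (Fin r),
    if r ≤ t ∧ L.card + q ≤ t then K (univ.image y) (L.image y ∪ univ.image b) else 0

/-- the second integrand -/
noncomputable def Psi2 (t : ℕ) (g : X → X → ℝ) (K : Finset X → Finset X → ℝ) (q l p : ℕ)
    (z : Fin l → X) (a : Fin p → X) (b : Fin q → X) : ℝ :=
  sf g (Sum.elim (Sum.elim z a) b) *
    if l + p ≤ t ∧ l + q ≤ t then K (univ.image (Sum.elim z a)) (univ.image (Sum.elim z b)) else 0

noncomputable def f1 (σ : Measure X) (t : ℕ) (g : X → X → ℝ) (K : Finset X → Finset X → ℝ)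
    (r q : ℕ) : ℝ :=
  ∫ y : Fin r → X, ∫ b : Fin q → X, Psi1 t g K r q y b ∂(pis σ (Fin q)) ∂(pis σ (Fin r))

noncomputable def f2 (σ : Measure X) (t : ℕ) (g : X → X → ℝ) (K : Finset X → Finset X → ℝ)
    (q l p : ℕ) : ℝ :=
  ∫ z : Fin l → X, ∫ a : Fin p → X, ∫ b : Fin q → X, Psi2 t g K q l p z a b ∂(pis σ (Fin q))
    ∂(pis σ (Fin p)) ∂(pis σ (Fin l))

omit [MeasurableSpace X] in
theorem image_split {m r : ℕ} {ρ : Type} (e : Fin r ⊕ ρ ≃ Fin m) {J : Finset (Fin m)}
    (he : (univ.image fun i => e (Sum.inl i)) = J) (x : Fin m → X) :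
    J.image x = univ.image fun i => x (e (Sum.inl i)) := by
  rw [← he, image_image]
  rfl

theorem Bd_term1 {K : Finset X → Finset X → ℝ}
    (hK : ∀ p q : ℕ, Bd fun w : (Fin p → X) × (Fin q → X) => K (univ.image w.1) (univ.image w.2))
    (t r q : ℕ) (L : Finset (Fin r)) :
    Bd fun p : (Fin r → X) × (Fin q → X) => (if r ≤ t ∧ L.card + q ≤ t then
      K (univ.image p.1) (L.image p.1 ∪ univ.image p.2) else 0) := by
  split_ifs
  · obtain ⟨e, he, -⟩ := exists_split L
    have h1 : ∀ p : (Fin r → X) × (Fin q → X), L.image p.1 ∪ univ.image p.2 =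
        univ.image (Sum.elim (fun i => p.1 (e (Sum.inl i))) p.2) := by
      intro p
      rw [image_elim, image_split e he]
    simp only [h1]
    refine BdK hK measurable_fst (meas_elim ?_ measurable_snd)
    exact measurable_pi_lambda _ fun i => (measurable_pi_apply _).comp measurable_fst
  · exact Bd.const 0

theorem Bd_Psi1 (hg : Bd fun p : X × X => g p.1 p.2) {K : Finset X → Finset X → ℝ}
    (hK : ∀ p q : ℕ, Bd fun w : (Fin p → X) × (Fin q → X) => K (univ.image w.1) (univ.image w.2))
    (t r q : ℕ) : Bd fun p : (Fin r → X) × (Fin q → X) => Psi1 t g K r q p.1 p.2 := by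
  refine Bd.mul ?_ (Bd.sum _ fun L _ => Bd_term1 hK t r q L)
  exact (Bd_sf (ι := Fin r ⊕ Fin q) hg).comp (meas_elim measurable_fst measurable_snd)

theorem Bd_Psi2 (hg : Bd fun p : X × X => g p.1 p.2) {K : Finset X → Finset X → ℝ}
    (hK : ∀ p q : ℕ, Bd fun w : (Fin p → X) × (Fin q → X) => K (univ.image w.1) (univ.image w.2))
    (t q l p : ℕ) : Bd fun w : ((Fin l → X) × (Fin p → X)) × (Fin q → X) =>
      Psi2 t g K q l p w.1.1 w.1.2 w.2 := by
  have m1 : Measurable fun w : ((Fin l → X) × (Fin p → X)) × (Fin q → X) => w.1.1 :=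
    measurable_fst.comp measurable_fst
  have m2 : Measurable fun w : ((Fin l → X) × (Fin p → X)) × (Fin q → X) => w.1.2 :=
    measurable_snd.comp measurable_fst
  have m3 : Measurable fun w : ((Fin l → X) × (Fin p → X)) × (Fin q → X) => w.2 :=
    measurable_snd
  refine Bd.mul ((Bd_sf (ι := (Fin l ⊕ Fin p) ⊕ Fin q) hg).comp
    (meas_elim (meas_elim m1 m2) m3)) ?_
  split_ifs
  · exact BdK hK (meas_elim m1 m2) (meas_elim m1 m3)
  · exact Bd.const 0

theorem step1 (hg : Bd fun p : X × X => g p.1 p.2) {K : Finset X → Finset X → ℝ}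
    (hK : ∀ p q : ℕ, Bd fun w : (Fin p → X) × (Fin q → X) => K (univ.image w.1) (univ.image w.2))
    (t : ℕ) {m : ℕ} (J : Finset (Fin m)) :
    ∫ x : Fin m → X, sf g x * ∑ L ∈ J.powerset,
      (if J.card ≤ t ∧ L.card + (m - J.card) ≤ t then K (J.image x) ((L ∪ Jᶜ).image x) else 0)
      ∂(pim σ m) = f1 σ t g K J.card (m - J.card) := by
  obtain ⟨e, he, he'⟩ := exists_split J
  have h1 := int_equiv σ e (Bd_Psi1 hg hK t J.card (m - J.card))
  unfold f1
  rw [← h1]
  refine integral_congr_ae (Filter.Eventually.of_forall fun x => ?_)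
  show _ = Psi1 t g K J.card (m - J.card) (fun i => x (e (Sum.inl i))) (fun j => x (e (Sum.inr j)))
  unfold Psi1
  have h3 : Sum.elim (fun i => x (e (Sum.inl i))) (fun j => x (e (Sum.inr j))) =
      fun i => x (e i) := by
    funext i
    rcases i with i | i <;> rfl
  rw [h3, sf_equiv g e x]
  refine congrArg (sf g x * ·) ?_
  have hu : Function.Injective fun i => e (Sum.inl i) := fun i j hij =>
    Sum.inl_injective (e.injective hij)
  have hJ : J.image x = univ.image fun i => x (e (Sum.inl i)) := image_split e he x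
  have hJ' : Jᶜ.image x = univ.image fun j => x (e (Sum.inr j)) := by
    rw [← he', image_image]
    rfl
  symm
  refine sum_bij (fun (L : Finset (Fin J.card)) _ => L.image fun i => e (Sum.inl i))
    ?_ ?_ ?_ ?_
  · intro L _
    rw [mem_powerset]
    conv_rhs => rw [← he]
    exact image_subset_image (subset_univ L)
  · intro L _ L' _ h
    exact image_injective hu h
  · intro L' hL'
    rw [mem_powerset] at hL'
    refine ⟨univ.filter fun i => e (Sum.inl i) ∈ L', mem_univ _, ?_⟩
    ext i
    simp only [mem_image, mem_filter, mem_univ, true_and]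
    constructor
    · rintro ⟨j, hj, rfl⟩
      exact hj
    · intro hi
      have h4 := hL' hi
      rw [← he] at h4
      obtain ⟨j, -, rfl⟩ := mem_image.1 h4
      exact ⟨j, hi, rfl⟩
  · intro L _
    rw [card_image_of_injective _ hu, image_union, hJ', image_image, hJ]
    rfl

theorem step2 (hg : Bd fun p : X × X => g p.1 p.2) {K : Finset X → Finset X → ℝ}
    (hK : ∀ p q : ℕ, Bd fun w : (Fin p → X) × (Fin q → X) => K (univ.image w.1) (univ.image w.2))
    (t r q : ℕ) : f1 σ t g K r q = ∑ L : Finset (Fin r), f2 σ t g K q L.card (r - L.card) := by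
  have hterm : ∀ L : Finset (Fin r), Bd fun p : (Fin r → X) × (Fin q → X) =>
      sf g (Sum.elim p.1 p.2) * (if r ≤ t ∧ L.card + q ≤ t then
      K (univ.image p.1) (L.image p.1 ∪ univ.image p.2) else 0) := fun L =>
    ((Bd_sf (ι := Fin r ⊕ Fin q) hg).comp (meas_elim measurable_fst measurable_snd)).mul
      (Bd_term1 hK t r q L)
  unfold f1
  have h1 : ∀ y : Fin r → X, ∫ b : Fin q → X, Psi1 t g K r q y b ∂(pis σ (Fin q)) =
      ∑ L : Finset (Fin r), ∫ b : Fin q → X, sf g (Sum.elim y b) *
        (if r ≤ t ∧ L.card + q ≤ t then K (univ.image y) (L.image y ∪ univ.image b) else 0)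
        ∂(pis σ (Fin q)) := by
    intro y
    unfold Psi1
    simp only [mul_sum]
    rw [integral_finsetSum]
    intro L _
    exact ((hterm L).comp (g := fun b : Fin q → X => (y, b))
      (measurable_const.prodMk measurable_id)).integrable _
  simp only [h1]
  rw [integral_finsetSum]
  swap
  · intro L _
    exact ((hterm L).integral (pis σ (Fin q))).integrable _
  refine sum_congr rfl fun L _ => ?_
  obtain ⟨e, he, -⟩ := exists_split L
  have h2 := int_equiv σ e (Ψ := fun (z : Fin L.card → X) (a : Fin (r - L.card) → X) =>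
    ∫ b : Fin q → X, Psi2 t g K q L.card (r - L.card) z a b ∂(pis σ (Fin q)))
    ((Bd_Psi2 hg hK t q L.card (r - L.card)).integral (pis σ (Fin q)))
  unfold f2
  rw [← h2]
  refine integral_congr_ae (Filter.Eventually.of_forall fun y => ?_)
  show ∫ b : Fin q → X, _ ∂(pis σ (Fin q)) = ∫ b : Fin q → X, Psi2 t g K q L.card (r - L.card)
    (fun i => y (e (Sum.inl i))) (fun j => y (e (Sum.inr j))) b ∂(pis σ (Fin q))
  refine integral_congr_ae (Filter.Eventually.of_forall fun b => ?_)
  show _ = Psi2 t g K q L.card (r - L.card)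
    (fun i => y (e (Sum.inl i))) (fun j => y (e (Sum.inr j))) b
  unfold Psi2
  have hLr : L.card ≤ r := by simpa using card_le_univ L
  have h3 : (Sum.elim (fun i => y (e (Sum.inl i))) (fun j => y (e (Sum.inr j))) :
      Fin L.card ⊕ Fin (r - L.card) → X) = fun i => y (e i) := by
    funext i
    rcases i with i | i <;> rfl
  have h4 : (Sum.elim (fun i => y (e i)) b : (Fin L.card ⊕ Fin (r - L.card)) ⊕ Fin q → X) =
      fun i => (Sum.elim y b : Fin r ⊕ Fin q → X) (Equiv.sumCongr e (Equiv.refl _) i) := by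
    funext i
    rcases i with i | i <;> rfl
  rw [h3, h4, sf_equiv, image_equiv, image_elim, ← image_split e he]
  have h5 : L.card + (r - L.card) = r := by omega
  rw [h5]

omit [IsProbabilityMeasure σ] in
theorem f2_zero (t : ℕ) (K : Finset X → Finset X → ℝ) (q l p : ℕ)
    (h : ¬ (l + p ≤ t ∧ l + q ≤ t)) : f2 σ t g K q l p = 0 := by
  unfold f2 Psi2
  simp only [if_neg h, mul_zero, integral_zero]

end Ident

open Ident in
theorem Lam_eq_Form (k : Ker σ g G v ε) (t : ℕ) (N : ℝ) {K : Finset X → Finset X → ℝ}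
    (hK : ∀ p q : ℕ, Bd fun w : (Fin p → X) × (Fin q → X) => K (univ.image w.1) (univ.image w.2)) :
    Lam σ t N g K = Form σ t N g K := by
  have hg : Bd fun p : X × X => g p.1 p.2 := k.bd
  have hA : ∀ m : ℕ, ∫ x : Fin m → X, sf g x * AK t K x ∂(pim σ m) =
      ∑ J : Finset (Fin m), f1 σ t g K J.card (m - J.card) := by
    intro m
    simp only [AK_eq, mul_sum (s := (univ : Finset (Finset (Fin m))))]
    rw [integral_finsetSum]
    · exact sum_congr rfl fun J _ => step1 hg hK t J
    · intro J _
      refine Bd.integrable (Bd.mul (Bd_sf hg) (Bd.sum _ fun L _ => ?_)) _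
      split_ifs
      · obtain ⟨e, he, -⟩ := exists_split J
        obtain ⟨e', he', -⟩ := exists_split (L ∪ Jᶜ)
        simp only [image_split e he, image_split e' he']
        exact BdK hK (measurable_pi_lambda _ fun i => measurable_pi_apply _)
          (measurable_pi_lambda _ fun i => measurable_pi_apply _)
      · exact Bd.const 0
  unfold Lam
  simp only [hA]
  rw [sum_split]
  -- drop the condition
  have hB : ∀ r q : ℕ, (if r + q ≤ 2 * t then N ^ r / (r.factorial : ℝ) *
      (N ^ q / (q.factorial : ℝ)) * f1 σ t g K r q else 0) =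
      N ^ q / (q.factorial : ℝ) * (N ^ r / (r.factorial : ℝ) *
        ∑ L : Finset (Fin r), f2 σ t g K q L.card (r - L.card)) := by
    intro r q
    split_ifs with h
    · rw [step2 hg hK]
      ring
    · rw [sum_eq_zero]
      · ring
      · intro L _
        refine f2_zero t K q _ _ fun h1 => h ?_
        have hLr : L.card ≤ r := by simpa using card_le_univ L
        omega
  simp only [hB]
  rw [sum_comm]
  simp only [← mul_sum]
  have hC : ∀ q : ℕ, ∑ r ∈ range (2 * t + 1), N ^ r / (r.factorial : ℝ) *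
      ∑ L : Finset (Fin r), f2 σ t g K q L.card (r - L.card) =
      ∑ l ∈ range (2 * t + 1), ∑ p ∈ range (2 * t + 1), if l + p ≤ 2 * t then
        N ^ l / (l.factorial : ℝ) * (N ^ p / (p.factorial : ℝ)) * f2 σ t g K q l p else 0 :=
    fun q => sum_split N (2 * t) (f2 σ t g K q)
  simp only [hC]
  have hsub : range (t + 1) ⊆ range (2 * t + 1) := by
    intro i hi
    rw [mem_range] at hi ⊢
    omega
  have hD : ∀ q : ℕ, (∑ l ∈ range (2 * t + 1), ∑ p ∈ range (2 * t + 1), if l + p ≤ 2 * t then
        N ^ l / (l.factorial : ℝ) * (N ^ p / (p.factorial : ℝ)) * f2 σ t g K q l p else 0) =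
      ∑ l ∈ range (t + 1), ∑ p ∈ range (t + 1),
        N ^ l / (l.factorial : ℝ) * (N ^ p / (p.factorial : ℝ)) * f2 σ t g K q l p := by
    intro q
    have hE : ∀ l p : ℕ, (if l + p ≤ 2 * t then
        N ^ l / (l.factorial : ℝ) * (N ^ p / (p.factorial : ℝ)) * f2 σ t g K q l p else 0) =
        N ^ l / (l.factorial : ℝ) * (N ^ p / (p.factorial : ℝ)) * f2 σ t g K q l p := by
      intro l p
      split_ifs with h
      · rfl
      · rw [f2_zero t K q l p (by omega), mul_zero]
    simp only [hE]
    rw [← sum_subset hsub]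
    · refine sum_congr rfl fun l _ => ?_
      rw [← sum_subset hsub]
      intro p _ hp
      rw [mem_range] at hp
      rw [f2_zero t K q l p (by omega), mul_zero]
    · intro l _ hl
      rw [mem_range] at hl
      refine sum_eq_zero fun p _ => ?_
      rw [f2_zero t K q l p (by omega), mul_zero]
  simp only [hD]
  rw [← sum_subset hsub]
  swap
  · intro q _ hq
    rw [mem_range] at hq
    rw [sum_eq_zero, mul_zero]
    intro l _
    refine sum_eq_zero fun p _ => ?_
    rw [f2_zero t K q l p (by omega), mul_zero]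
  unfold Form
  simp only [mul_sum]
  rw [sum_comm]
  refine sum_congr rfl fun l _ => ?_
  rw [sum_comm]
  refine sum_congr rfl fun p _ => sum_congr rfl fun q _ => ?_
  have hF : f2 σ t g K q l p = ∫ z : Fin l → X, ∫ a : Fin p → X, ∫ b : Fin q → X,
        (if l + p ≤ t ∧ l + q ≤ t then
          K (univ.image z ∪ univ.image a) (univ.image z ∪ univ.image b) else 0) *
        (sf g z * (cr g z a * sf g a) * (cr g z b * sf g b) * cr g a b)
        ∂(pim σ q) ∂(pim σ p) ∂(pim σ l) := by
    unfold f2
    refine integral_congr_ae (Filter.Eventually.of_forall fun z => ?_)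
    refine integral_congr_ae (Filter.Eventually.of_forall fun a => ?_)
    refine integral_congr_ae (Filter.Eventually.of_forall fun b => ?_)
    show Psi2 t g K q l p z a b = _
    unfold Psi2
    rw [image_elim, image_elim, sf_elim k.symm k.nonneg, sf_elim k.symm k.nonneg, cr_elim_left]
    ring
  rw [hF]
  ring

end Pool.Agent.Helper47.LB
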