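import Pool.Agent.Helper47.LB.Approx

/-!
BLOCK LB-R. Positivity for all kernels from positivity for rank one kernels.

`Form` is linear in `K` for kernels with `Bd` on tuples (`integral_add`, three times; the
weights are `Bd`), and `|Form K| ≤ M * sup |K|` with a constant `M` which depends only on
`t, N, G`. By `exists_approx`, `Form (trunc K) ≥ Form (∑ F k ⊗ F k) - M η ≥ - M η` for all `η > 0`.
-/

set_option autoImplicit false

open MeasureTheory Finset

namespace Pool.Agent.Helper47.LB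

open Pool.Agent.Helper47.KP (Bd pim)

section aux

variable {Y₁ Y₂ Y₃ : Type} [MeasurableSpace Y₁] [MeasurableSpace Y₂] [MeasurableSpace Y₃]

/-- additivity of threefold integrals of bounded measurable functions -/
lemma tri_add (μ₁ : Measure Y₁) (μ₂ : Measure Y₂) (μ₃ : Measure Y₃) [IsProbabilityMeasure μ₁]
    [IsProbabilityMeasure μ₂] [IsProbabilityMeasure μ₃] {F₁ F₂ : Y₁ → Y₂ → Y₃ → ℝ}
    (h₁ : Bd fun w : (Y₁ × Y₂) × Y₃ => F₁ w.1.1 w.1.2 w.2)
    (h₂ : Bd fun w : (Y₁ × Y₂) × Y₃ => F₂ w.1.1 w.1.2 w.2) :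
    ∫ z, ∫ a, ∫ b, (F₁ z a b + F₂ z a b) ∂μ₃ ∂μ₂ ∂μ₁ =
      (∫ z, ∫ a, ∫ b, F₁ z a b ∂μ₃ ∂μ₂ ∂μ₁) + ∫ z, ∫ a, ∫ b, F₂ z a b ∂μ₃ ∂μ₂ ∂μ₁ := by
  have k₁ : Bd fun w : Y₁ × Y₂ => ∫ b, F₁ w.1 w.2 b ∂μ₃ := h₁.integral μ₃
  have k₂ : Bd fun w : Y₁ × Y₂ => ∫ b, F₂ w.1 w.2 b ∂μ₃ := h₂.integral μ₃
  have l₁ : Bd fun z : Y₁ => ∫ a, ∫ b, F₁ z a b ∂μ₃ ∂μ₂ := k₁.integral μ₂
  have l₂ : Bd fun z : Y₁ => ∫ a, ∫ b, F₂ z a b ∂μ₃ ∂μ₂ := k₂.integral μ₂
  rw [← integral_add (l₁.integrable μ₁) (l₂.integrable μ₁)]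
  congr 1
  funext z
  have m1 : Measurable fun a : Y₂ => (z, a) := measurable_prodMk_left
  rw [← integral_add ((k₁.comp m1).integrable μ₂) ((k₂.comp m1).integrable μ₂)]
  congr 1
  funext a
  have m2 : Measurable fun b : Y₃ => ((z, a), b) := measurable_prodMk_left
  exact integral_add ((h₁.comp m2).integrable μ₃) ((h₂.comp m2).integrable μ₃)

lemma abs_int_le (μ : Measure Y₁) [IsProbabilityMeasure μ] {f : Y₁ → ℝ} {C : ℝ}
    (h : ∀ y, |f y| ≤ C) : |∫ y, f y ∂μ| ≤ C := by
  have h1 := norm_integral_le_of_norm_le_const (μ := μ) (C := C) (f := f)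
    (Filter.Eventually.of_forall fun x => by rw [Real.norm_eq_abs]; exact h x)
  simpa using h1

end aux

section

variable {X : Type} [MeasurableSpace X] [DecidableEq X] {σ : Measure X} [IsProbabilityMeasure σ]
  {g : X → X → ℝ} {G v ε : ℝ}

omit [MeasurableSpace X] in
lemma image_append {l p : ℕ} (z : Fin l → X) (a : Fin p → X) :
    univ.image (Fin.append z a) = univ.image z ∪ univ.image a := by
  ext x
  simp only [mem_image, mem_univ, true_and, mem_union]
  constructor
  · rintro ⟨i, rfl⟩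
    induction i using Fin.addCases with
    | left i => exact Or.inl ⟨i, (Fin.append_left z a i).symm⟩
    | right i => exact Or.inr ⟨i, (Fin.append_right z a i).symm⟩
  · rintro (⟨i, rfl⟩ | ⟨i, rfl⟩)
    · exact ⟨Fin.castAdd p i, Fin.append_left z a i⟩
    · exact ⟨Fin.natAdd l i, Fin.append_right z a i⟩

omit [DecidableEq X] in
lemma measurable_append (l p : ℕ) :
    Measurable fun w : (Fin l → X) × (Fin p → X) => Fin.append w.1 w.2 := by
  refine measurable_pi_iff.2 fun i => ?_
  induction i using Fin.addCases with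
  | left i =>
    simp only [Fin.append_left]
    exact (measurable_pi_apply i).comp measurable_fst
  | right i =>
    simp only [Fin.append_right]
    exact (measurable_pi_apply i).comp measurable_snd

/-- the integrand of `Form` -/
noncomputable def integrand (t : ℕ) (g : X → X → ℝ) (K : Finset X → Finset X → ℝ) {l p q : ℕ}
    (z : Fin l → X) (a : Fin p → X) (b : Fin q → X) : ℝ :=
  (if l + p ≤ t ∧ l + q ≤ t then
    K (univ.image z ∪ univ.image a) (univ.image z ∪ univ.image b) else 0) *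
    (sf g z * (cr g z a * sf g a) * (cr g z b * sf g b) * cr g a b)

omit [IsProbabilityMeasure σ] in
lemma Form_def (t : ℕ) (N : ℝ) (K : Finset X → Finset X → ℝ) :
    Form σ t N g K = ∑ l ∈ range (t + 1), ∑ p ∈ range (t + 1), ∑ q ∈ range (t + 1),
      N ^ l / (l.factorial : ℝ) * (N ^ p / (p.factorial : ℝ)) * (N ^ q / (q.factorial : ℝ)) *
        ∫ z : Fin l → X, ∫ a : Fin p → X, ∫ b : Fin q → X, integrand t g K z a b
          ∂(pim σ q) ∂(pim σ p) ∂(pim σ l) := rfl

omit [IsProbabilityMeasure σ] in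
lemma Bd_integrand (k : Ker σ g G v ε) (t : ℕ) {K : Finset X → Finset X → ℝ}
    (hK : ∀ p q : ℕ, Bd fun w : (Fin p → X) × (Fin q → X) => K (univ.image w.1) (univ.image w.2))
    (l p q : ℕ) :
    Bd fun w : ((Fin l → X) × (Fin p → X)) × (Fin q → X) =>
      integrand t g K w.1.1 w.1.2 w.2 := by
  unfold integrand
  have m1 : Measurable fun w : ((Fin l → X) × (Fin p → X)) × (Fin q → X) => w.1.1 :=
    measurable_fst.comp measurable_fst
  have m2 : Measurable fun w : ((Fin l → X) × (Fin p → X)) × (Fin q → X) => w.1.2 :=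
    measurable_snd.comp measurable_fst
  have m3 : Measurable fun w : ((Fin l → X) × (Fin p → X)) × (Fin q → X) => w.2 :=
    measurable_snd
  refine Bd.mul ?_ (((((Bd_sf k.bd).comp m1).mul (((Bd_cr k.bd).comp (m1.prodMk m2)).mul
    ((Bd_sf k.bd).comp m2))).mul (((Bd_cr k.bd).comp (m1.prodMk m3)).mul
    ((Bd_sf k.bd).comp m3))).mul ((Bd_cr k.bd).comp (m2.prodMk m3)))
  by_cases h : l + p ≤ t ∧ l + q ≤ t
  · simp only [if_pos h]
    have h1 := (hK (l + p) (l + q)).comp
      (((measurable_append l p).comp (m1.prodMk m2)).prodMk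
        ((measurable_append l q).comp (m1.prodMk m3)))
    simpa only [image_append, Function.comp_apply] using h1
  · simp only [if_neg h]
    exact Bd.const 0

theorem Form_add (k : Ker σ g G v ε) (t : ℕ) (N : ℝ) {K L : Finset X → Finset X → ℝ}
    (hK : ∀ p q : ℕ, Bd fun w : (Fin p → X) × (Fin q → X) => K (univ.image w.1) (univ.image w.2))
    (hL : ∀ p q : ℕ, Bd fun w : (Fin p → X) × (Fin q → X) => L (univ.image w.1) (univ.image w.2)) :
    Form σ t N g (fun S T => K S T + L S T) = Form σ t N g K + Form σ t N g L := by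
  simp only [Form_def]
  rw [← sum_add_distrib]
  refine sum_congr rfl fun l _ => ?_
  rw [← sum_add_distrib]
  refine sum_congr rfl fun p _ => ?_
  rw [← sum_add_distrib]
  refine sum_congr rfl fun q _ => ?_
  rw [← mul_add, ← tri_add _ _ _ (Bd_integrand k t hK l p q) (Bd_integrand k t hL l p q)]
  have e : ∀ (z : Fin l → X) (a : Fin p → X) (b : Fin q → X),
      integrand t g (fun S T => K S T + L S T) z a b = integrand t g K z a b +
        integrand t g L z a b := by
    intro z a b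
    unfold integrand
    split_ifs
    · rw [add_mul]
    · ring
  simp only [e]

lemma FB.bd2 {F : Finset X → ℝ} (hF : FB F) (p q : ℕ) :
    Bd fun w : (Fin p → X) × (Fin q → X) => F (univ.image w.1) * F (univ.image w.2) := by
  have h : ∀ m : ℕ, Bd fun z : Fin m → X => F (univ.image z) := fun m =>
    ⟨hF.meas m, hF.bd.imp fun _ hC z => hC _⟩
  exact ((h p).comp measurable_fst).mul ((h q).comp measurable_snd)

omit [IsProbabilityMeasure σ] in
lemma Form_zero (t : ℕ) (N : ℝ) : Form σ t N g (fun _ _ => 0) = 0 := by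
  simp [Form_def, integrand]

lemma Form_finset_sum (k : Ker σ g G v ε) (t : ℕ) (N : ℝ) (n : ℕ) {F : Fin n → Finset X → ℝ}
    (hF : ∀ i, FB (F i)) (s : Finset (Fin n)) :
    Form σ t N g (fun S T => ∑ i ∈ s, F i S * F i T) =
      ∑ i ∈ s, Form σ t N g (fun S T => F i S * F i T) := by
  induction s using Finset.induction_on with
  | empty => simpa using Form_zero t N
  | insert i s hi ih =>
    simp only [Finset.sum_insert hi]
    rw [Form_add k t N (K := fun S T => F i S * F i T) (L := fun S T => ∑ i ∈ s, F i S * F i T)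
      (fun p q => (hF i).bd2 p q) (fun p q => Bd.sum s fun j _ => (hF j).bd2 p q), ih]

theorem Form_sum (k : Ker σ g G v ε) (t : ℕ) (N : ℝ) (n : ℕ) {F : Fin n → Finset X → ℝ}
    (hF : ∀ i, FB (F i)) :
    Form σ t N g (fun S T => ∑ i, F i S * F i T) =
      ∑ i, Form σ t N g (fun S T => F i S * F i T) :=
  Form_finset_sum k t N n hF univ

theorem abs_Form_le (k : Ker σ g G v ε) (t : ℕ) {N : ℝ} (hN : 0 ≤ N) :
    ∃ M : ℝ, 0 ≤ M ∧ ∀ (K : Finset X → Finset X → ℝ) (C : ℝ), (∀ S T, |K S T| ≤ C) →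
      |Form σ t N g K| ≤ M * C := by
  have hG0 : (0 : ℝ) ≤ G := zero_le_one.trans k.one_le
  have c0 : ∀ l : ℕ, 0 ≤ N ^ l / (l.factorial : ℝ) := fun l => by positivity
  refine ⟨∑ l ∈ range (t + 1), ∑ p ∈ range (t + 1), ∑ q ∈ range (t + 1),
      N ^ l / (l.factorial : ℝ) * (N ^ p / (p.factorial : ℝ)) * (N ^ q / (q.factorial : ℝ)) *
      (G ^ (l * l) * (G ^ (l * p) * G ^ (p * p)) * (G ^ (l * q) * G ^ (q * q)) * G ^ (p * q)),
      ?_, ?_⟩
  · refine sum_nonneg fun l _ => sum_nonneg fun p _ => sum_nonneg fun q _ => ?_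
    have := c0 l; have := c0 p; have := c0 q
    positivity
  · intro K C hC
    have hC0 : 0 ≤ C := (abs_nonneg _).trans (hC ∅ ∅)
    rw [Form_def, sum_mul]
    refine (abs_sum_le_sum_abs _ _).trans (sum_le_sum fun l _ => ?_)
    rw [sum_mul]
    refine (abs_sum_le_sum_abs _ _).trans (sum_le_sum fun p _ => ?_)
    rw [sum_mul]
    refine (abs_sum_le_sum_abs _ _).trans (sum_le_sum fun q _ => ?_)
    have hc : 0 ≤ N ^ l / (l.factorial : ℝ) * (N ^ p / (p.factorial : ℝ)) *
        (N ^ q / (q.factorial : ℝ)) := mul_nonneg (mul_nonneg (c0 l) (c0 p)) (c0 q)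
    rw [abs_mul, abs_of_nonneg hc, mul_assoc (N ^ l / (l.factorial : ℝ) *
      (N ^ p / (p.factorial : ℝ)) * (N ^ q / (q.factorial : ℝ)))]
    refine mul_le_mul_of_nonneg_left ?_ hc
    refine abs_int_le _ fun z => abs_int_le _ fun a => abs_int_le _ fun b => ?_
    unfold integrand
    have s1 : ∀ {m : ℕ} (z : Fin m → X), |sf g z| ≤ G ^ (m * m) := by
      intro m z
      rw [abs_of_nonneg (sf_nonneg g z)]
      simpa using sf_le k.one_le k.le z
    have s2 : ∀ {m m' : ℕ} (z : Fin m → X) (a : Fin m' → X), |cr g z a| ≤ G ^ (m * m') := by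
      intro m m' z a
      rw [abs_of_nonneg (cr_nonneg k.nonneg z a)]
      simpa using cr_le k.nonneg k.le z a
    have i1 : |if l + p ≤ t ∧ l + q ≤ t then
        K (univ.image z ∪ univ.image a) (univ.image z ∪ univ.image b) else 0| ≤ C := by
      split_ifs
      · exact hC _ _
      · simpa using hC0
    rw [abs_mul, mul_comm]
    refine mul_le_mul ?_ i1 (abs_nonneg _) (by positivity)
    rw [abs_mul, abs_mul, abs_mul, abs_mul, abs_mul]
    have := s1 z; have := s1 a; have := s1 b; have := s2 z a; have := s2 z b; have := s2 a b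
    gcongr

end

variable {X : Type} [MetricSpace X] [CompactSpace X] [MeasurableSpace X] [BorelSpace X]
  [DecidableEq X] {σ : Measure X} [IsProbabilityMeasure σ] {g : X → X → ℝ} {G v ε : ℝ}
  {R : X → X → Prop} {t : ℕ} {K : Finset X → Finset X → ℝ}

theorem Form_nonneg (k : Ker σ g G v ε) (hR : IsClosed {p : X × X | R p.1 p.2})
    (hirr : ∀ x, ¬ R x x) (hK : PK R t K) {N : ℝ} (hN : 0 ≤ N)
    (h1 : ∀ F : Finset X → ℝ, FB F → 0 ≤ Form σ t N g (fun S T => F S * F T)) :
    0 ≤ Form σ t N g (trunc R t K) := by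
  obtain ⟨M, hM, hF⟩ := abs_Form_le k t hN
  refine le_of_forall_pos_le_add fun e he => ?_
  have hη : 0 < e / (M + 1) := by positivity
  obtain ⟨n, F, hFB, happ⟩ := exists_approx hR hirr hK hη
  have e1 : (trunc R t K) = fun S T => (∑ i, F i S * F i T) +
      (trunc R t K S T - ∑ i, F i S * F i T) := by
    funext S T
    ring
  have b1 : ∀ p q : ℕ, Bd fun w : (Fin p → X) × (Fin q → X) =>
      ∑ i, F i (univ.image w.1) * F i (univ.image w.2) :=
    fun p q => Bd.sum univ fun j _ => (hFB j).bd2 p q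
  have b2 : ∀ p q : ℕ, Bd fun w : (Fin p → X) × (Fin q → X) =>
      trunc R t K (univ.image w.1) (univ.image w.2) -
        ∑ i, F i (univ.image w.1) * F i (univ.image w.2) := by
    intro p q
    have h2 := (trunc_bd hR hirr hK p q).add ((Bd.const (-1)).mul (b1 p q))
    simpa only [neg_mul, one_mul, ← sub_eq_add_neg] using h2
  have e2 : Form σ t N g (trunc R t K) = (∑ i, Form σ t N g (fun S T => F i S * F i T)) +
      Form σ t N g (fun S T => trunc R t K S T - ∑ i, F i S * F i T) := by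
    conv_lhs => rw [e1]
    rw [Form_add k t N (K := fun S T => ∑ i, F i S * F i T)
      (L := fun S T => trunc R t K S T - ∑ i, F i S * F i T) b1 b2, Form_sum k t N n hFB]
  have h3 := hF (fun S T => trunc R t K S T - ∑ i, F i S * F i T) _ happ
  have h4 : 0 ≤ ∑ i, Form σ t N g (fun S T => F i S * F i T) :=
    sum_nonneg fun i _ => h1 (F i) (hFB i)
  have h5 : M * (e / (M + 1)) ≤ e := by
    rw [mul_div_assoc', div_le_iff₀ (by positivity)]
    nlinarith
  rw [e2]
  have := abs_le.1 h3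
  linarith

end Pool.Agent.Helper47.LB
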