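import Pool.Agent.Helper47.LB.Basic

/-!
BLOCK LB-G. The constants `MM`.

`MM G δ q 0 = 0` for `q ≥ 1`, `MM G δ 0 p = 0` for `p ≥ 1`, `MM G δ 0 0 = 1`, all are `≥ 0`.
Claim: for `1 ≤ p ≤ t`, `1 ≤ q ≤ t`: `MM G δ q p ≤ δ * 2^p * (G^t * (p + 1))^q`, by induction on
`q`. `q = 1`: only the term `k = p - 1` with `MM G δ 0 0 = 1` is not zero, it is `G^p * δ`.
`q + 1` with `q ≥ 1`: in the first sum all `MM G δ q (p-1-k) ≤ 1` by induction and the hypothesis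
(or `= 0`), and `∑_k choose p (k+1) ≤ 2^p`, so
`MM G δ (q+1) p ≤ G^p δ 2^p + p G^p δ 2^p (G^t (p+1))^q ≤ G^p δ 2^p (G^t (p+1))^q (1 + p)`.
(Written by helper60.)
-/

set_option autoImplicit false

open Finset

namespace Pool.Agent.Helper47.LB

theorem MM_succ_zero (G δ : ℝ) (q : ℕ) : MM G δ (q + 1) 0 = 0 := by
  simp [MM]

theorem MM_zero_pos (G δ : ℝ) {p : ℕ} (hp : 1 ≤ p) : MM G δ 0 p = 0 := by
  have : p ≠ 0 := by omega
  simp [MM, this]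

theorem sum_choose_succ_le (p : ℕ) :
    ∑ k ∈ range p, (p.choose (k + 1) : ℝ) ≤ 2 ^ p := by
  have h : ∑ k ∈ range (p + 1), (p.choose k : ℝ) = 2 ^ p := by
    exact_mod_cast congrArg (Nat.cast : ℕ → ℝ) (Nat.sum_range_choose p)
  rw [Finset.sum_range_succ'] at h
  have h0 : (0 : ℝ) ≤ (p.choose 0 : ℝ) := by positivity
  linarith

/-- monotonicity of the bound -/
theorem MM_bound_mono {G δ : ℝ} (hG : 1 ≤ G) (hδ : 0 ≤ δ) {t p q : ℕ}
    (hpt : p ≤ t) (hqt : q ≤ t) :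
    δ * 2 ^ p * (G ^ t * ((p : ℝ) + 1)) ^ q ≤ δ * 2 ^ t * (G ^ t * ((t : ℝ) + 1)) ^ t := by
  have hG0 : 1 ≤ G ^ t := one_le_pow₀ hG
  have hpt' : (p : ℝ) ≤ t := by exact_mod_cast hpt
  have h1 : (G ^ t * ((p : ℝ) + 1)) ≤ G ^ t * ((t : ℝ) + 1) := by gcongr
  have h2 : 1 ≤ G ^ t * ((t : ℝ) + 1) := by
    have : (0 : ℝ) ≤ t := Nat.cast_nonneg t
    nlinarith
  have h3 : (G ^ t * ((p : ℝ) + 1)) ^ q ≤ (G ^ t * ((t : ℝ) + 1)) ^ t :=
    calc (G ^ t * ((p : ℝ) + 1)) ^ q ≤ (G ^ t * ((t : ℝ) + 1)) ^ q := by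
          apply pow_le_pow_left₀ _ h1
          positivity
      _ ≤ (G ^ t * ((t : ℝ) + 1)) ^ t := pow_le_pow_right₀ h2 hqt
  have h4 : (2 : ℝ) ^ p ≤ 2 ^ t := pow_le_pow_right₀ (by norm_num) hpt
  have h5 : δ * 2 ^ p ≤ δ * 2 ^ t := mul_le_mul_of_nonneg_left h4 hδ
  apply mul_le_mul h5 h3
  · positivity
  · positivity

theorem MM_le_aux {G δ : ℝ} (hG : 1 ≤ G) (hδ : 0 ≤ δ) {t : ℕ}
    (h : δ * 2 ^ t * (G ^ t * ((t : ℝ) + 1)) ^ t ≤ 1) :
    ∀ q : ℕ, q + 1 ≤ t → ∀ p : ℕ, 1 ≤ p → p ≤ t →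
      MM G δ (q + 1) p ≤ δ * 2 ^ p * (G ^ t * ((p : ℝ) + 1)) ^ (q + 1) := by
  intro q
  induction q with
  | zero =>
    intro _ p hp hpt
    obtain ⟨m, rfl⟩ : ∃ m, p = m + 1 := ⟨p - 1, by omega⟩
    have hval : MM G δ (0 + 1) (m + 1) = G ^ (m + 1) * δ := by
      rw [MM]
      rw [MM_zero_pos G δ (Nat.succ_le_succ (Nat.zero_le m))]
      rw [Finset.sum_range_succ]
      have hz : ∑ x ∈ range m, ((m + 1).choose (x + 1) : ℝ) *
          (G ^ (m + 1) * δ * MM G δ 0 (m + 1 - 1 - x)) = 0 := by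
        apply Finset.sum_eq_zero
        intro x hx
        have hx' := Finset.mem_range.mp hx
        rw [MM_zero_pos G δ (show 1 ≤ m + 1 - 1 - x by omega)]
        simp
      rw [hz]
      simp [MM]
    rw [hval]
    have hG0 : 1 ≤ G := hG
    have h1 : G ^ (m + 1) ≤ G ^ t := pow_le_pow_right₀ hG0 hpt
    have h2 : (1 : ℝ) ≤ 2 ^ (m + 1) := one_le_pow₀ (by norm_num)
    have h3 : (1 : ℝ) ≤ ((m + 1 : ℕ) : ℝ) + 1 := by
      have : (0 : ℝ) ≤ ((m + 1 : ℕ) : ℝ) := Nat.cast_nonneg _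
      linarith
    have h4 : 0 ≤ G ^ t := by positivity
    rw [zero_add, pow_one]
    calc G ^ (m + 1) * δ ≤ G ^ t * δ := mul_le_mul_of_nonneg_right h1 hδ
      _ = δ * 1 * (G ^ t * 1) := by ring
      _ ≤ δ * 2 ^ (m + 1) * (G ^ t * (((m + 1 : ℕ) : ℝ) + 1)) := by
          apply mul_le_mul
          · exact mul_le_mul_of_nonneg_left h2 hδ
          · exact mul_le_mul_of_nonneg_left h3 h4
          · positivity
          · positivity
  | succ q ih =>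
    intro hq p hp hpt
    have ih' := ih (by omega)
    rw [MM]
    have hGp : 0 ≤ G ^ p * δ := by positivity
    have hone : ∀ k ∈ range p, (p.choose (k + 1) : ℝ) *
        (G ^ p * δ * MM G δ (q + 1) (p - 1 - k)) ≤ (p.choose (k + 1) : ℝ) * (G ^ p * δ) := by
      intro k hk
      have hk' := Finset.mem_range.mp hk
      apply mul_le_mul_of_nonneg_left _ (Nat.cast_nonneg _)
      have : MM G δ (q + 1) (p - 1 - k) ≤ 1 := by
        rcases Nat.eq_zero_or_pos (p - 1 - k) with h0 | h0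
        · rw [h0, MM_succ_zero]; norm_num
        · refine (ih' (p - 1 - k) h0 (by omega)).trans ?_
          refine (MM_bound_mono hG hδ (by omega) (by omega)).trans h
      calc G ^ p * δ * MM G δ (q + 1) (p - 1 - k) ≤ G ^ p * δ * 1 :=
            mul_le_mul_of_nonneg_left this hGp
        _ = G ^ p * δ := mul_one _
    have hsum : ∑ k ∈ range p, (p.choose (k + 1) : ℝ) *
        (G ^ p * δ * MM G δ (q + 1) (p - 1 - k)) ≤ 2 ^ p * (G ^ p * δ) := by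
      refine (Finset.sum_le_sum hone).trans ?_
      rw [← Finset.sum_mul]
      exact mul_le_mul_of_nonneg_right (sum_choose_succ_le p) hGp
    have hsec : (p : ℝ) * G ^ p * MM G δ (q + 1) p ≤
        (p : ℝ) * G ^ p * (δ * 2 ^ p * (G ^ t * ((p : ℝ) + 1)) ^ (q + 1)) :=
      mul_le_mul_of_nonneg_left (ih' p hp hpt) (by positivity)
    have hGt : G ^ p ≤ G ^ t := pow_le_pow_right₀ hG hpt
    have hGt1 : 1 ≤ G ^ t := one_le_pow₀ hG
    have hp0 : (0 : ℝ) ≤ p := Nat.cast_nonneg p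
    have hA1 : 1 ≤ G ^ t * ((p : ℝ) + 1) := by nlinarith
    have hA : 1 ≤ (G ^ t * ((p : ℝ) + 1)) ^ (q + 1) := one_le_pow₀ hA1
    set A : ℝ := (G ^ t * ((p : ℝ) + 1)) ^ (q + 1) with hAdef
    have hA0 : 0 ≤ A := le_trans zero_le_one hA
    have h2p : (0 : ℝ) ≤ 2 ^ p := by positivity
    calc ∑ k ∈ range p, (p.choose (k + 1) : ℝ) *
          (G ^ p * δ * MM G δ (q + 1) (p - 1 - k)) + (p : ℝ) * G ^ p * MM G δ (q + 1) p
        ≤ 2 ^ p * (G ^ p * δ) + (p : ℝ) * G ^ p * (δ * 2 ^ p * A) := add_le_add hsum hsec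
      _ = G ^ p * (δ * 2 ^ p * (1 + p * A)) := by ring
      _ ≤ G ^ t * (δ * 2 ^ p * (A + p * A)) := by
          apply mul_le_mul hGt
          · apply mul_le_mul_of_nonneg_left _ (by positivity)
            linarith
          · positivity
          · positivity
      _ = δ * 2 ^ p * (G ^ t * ((p : ℝ) + 1)) ^ (q + 1 + 1) := by
          rw [pow_succ, ← hAdef]; ring

theorem MM_le {G δ : ℝ} (hG : 1 ≤ G) (hδ : 0 ≤ δ) {t : ℕ}
    (h : δ * 2 ^ t * (G ^ t * ((t : ℝ) + 1)) ^ t ≤ 1) {p q : ℕ} (hp : 1 ≤ p) (hq : 1 ≤ q)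
    (hpt : p ≤ t) (hqt : q ≤ t) :
    MM G δ q p ≤ δ * 2 ^ t * (G ^ t * ((t : ℝ) + 1)) ^ t := by
  obtain ⟨m, rfl⟩ : ∃ m, q = m + 1 := ⟨q - 1, by omega⟩
  exact (MM_le_aux hG hδ h m hqt p hp hpt).trans (MM_bound_mono hG hδ hpt hqt)

end Pool.Agent.Helper47.LB
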