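import Pool.Agent.Helper47.LB.Dens
import Pool.Agent.Helper47.KP.Final

/-!
BLOCK LB-W1. The binomial coefficient.

`m = (d - 3) / 13`. `choose (m + (d-3)) m ≥ choose (m + 13 m) m`, and as in
`log_choose_lower`, `choose_large` of KP/Final.lean (with `log_fact_lower`, `log_fact_upper`)
`log (choose (14 m) m) ≥ m (14 log 14 - 13 log 13) - c - 2 log m`; `d ≤ 13 m + 15`;
`VV d ≥ √(3/4)^(d-3) ≥ √(3/4)^d`; and `14 log 14 - 13 log 13 - (13/2) log (4/3) > 13 * 0.192 * log 2`
because `14^3500 * 3^1625 > 13^3250 * 2^(3250 + 624)` (`decide +kernel`; `13 * 0.192 = 312/125`).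
-/

set_option autoImplicit false

namespace Pool.Agent.Helper47.LB

open Filter Topology

open Pool.Agent.Helper47.KP (log_fact_lower log_fact_upper)

lemma kappa2_pos : 0 < (14 * Real.log 14 - 13 * Real.log 13) -
    13 / 2 * (2 * Real.log 2 - Real.log 3) - (312 / 125) * Real.log 2 := by
  have h : (13 : ℕ) ^ 3250 * 2 ^ 3874 < 14 ^ 3500 * 3 ^ 1625 := by decide +kernel
  have h1 : (13 : ℝ) ^ 3250 * 2 ^ 3874 < 14 ^ 3500 * 3 ^ 1625 := by exact_mod_cast h
  have h2 := Real.log_lt_log (by positivity) h1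
  rw [Real.log_mul (by positivity) (by positivity), Real.log_mul (by positivity) (by positivity),
    Real.log_pow, Real.log_pow, Real.log_pow, Real.log_pow] at h2
  push_cast at h2
  linarith

lemma log_choose_lower2 (m : ℕ) (hm : 1 ≤ m) :
    (m : ℝ) * (14 * Real.log 14 - 13 * Real.log 13) - 2 - Real.log 13 - 2 * Real.log m ≤
      Real.log ((Nat.choose (m + 13 * m) m : ℕ) : ℝ) := by
  have ht' : (0 : ℝ) < m := by exact_mod_cast hm
  have e1 : ((Nat.choose (m + 13 * m) m : ℕ) : ℝ) =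
      ((m + 13 * m).factorial : ℝ) / (m.factorial * (13 * m).factorial) := by
    have h := Nat.choose_mul_factorial_mul_factorial (show m ≤ m + 13 * m by omega)
    rw [Nat.add_sub_cancel_left] at h
    rw [eq_div_iff (by positivity), ← mul_assoc]
    exact_mod_cast h
  rw [e1, Real.log_div (by positivity) (by positivity), Real.log_mul (by positivity)
    (by positivity)]
  have a1 := log_fact_lower (m + 13 * m)
  have a2 := log_fact_upper m (by omega)
  have a3 := log_fact_upper (13 * m) (by omega)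
  push_cast at a1 a2 a3
  have l1 : Real.log ((m : ℝ) + 13 * m) = Real.log 14 + Real.log m := by
    rw [← Real.log_mul (by norm_num) ht'.ne']
    congr 1; ring
  have l3 : Real.log (13 * (m : ℝ)) = Real.log 13 + Real.log m :=
    Real.log_mul (by norm_num) ht'.ne'
  rw [l1] at a1
  rw [l3] at a3
  nlinarith

lemma log_VV_lower {d : ℕ} (hd : 4 ≤ d) :
    -((d : ℝ) / 2 * (2 * Real.log 2 - Real.log 3)) ≤ Real.log (VV d) := by
  have h3 : (0 : ℝ) < √(3 / 4) := Real.sqrt_pos.2 (by norm_num)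
  have hD : (1 : ℝ) ≤ ((d - 3 : ℕ) : ℝ) := by
    exact_mod_cast (show 1 ≤ d - 3 by omega)
  have h1 : (0 : ℝ) ≤ Real.log √(2 * ((d - 3 : ℕ) : ℝ)) := by
    refine Real.log_nonneg ?_
    rw [Real.one_le_sqrt]
    linarith
  have h2 : Real.log √(3 / 4) = -((2 * Real.log 2 - Real.log 3) / 2) := by
    rw [Real.log_sqrt (by norm_num), Real.log_div (by norm_num) (by norm_num),
      show (4 : ℝ) = 2 ^ 2 by norm_num, Real.log_pow]
    push_cast
    ring
  have h4 : 0 ≤ 2 * Real.log 2 - Real.log 3 := by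
    have := Real.log_le_log (show (0 : ℝ) < 3 by norm_num) (show (3 : ℝ) ≤ 2 ^ 2 by norm_num)
    rw [Real.log_pow] at this
    push_cast at this
    linarith
  unfold VV
  rw [Real.log_mul (Real.sqrt_pos.2 (by linarith)).ne' (by positivity), Real.log_pow, h2]
  have h5 : ((d - 3 : ℕ) : ℝ) ≤ d := by exact_mod_cast Nat.sub_le _ _
  nlinarith

theorem VV_choose_large : ∃ d₀ : ℕ, ∀ d : ℕ, d₀ ≤ d →
    (2 : ℝ) ^ ((0.192 : ℝ) * d) ≤
      VV d * (Nat.choose ((d - 3) / 13 + (d - 3)) ((d - 3) / 13) : ℝ) := by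
  set κ := (14 * Real.log 14 - 13 * Real.log 13) with hκ
  set l := 2 * Real.log 2 - Real.log 3 with hl
  set η := κ - 13 / 2 * l - (312 / 125) * Real.log 2 with hη
  have hη0 : 0 < η := kappa2_pos
  have hl0 : 0 ≤ l := by
    have := Real.log_le_log (show (0 : ℝ) < 3 by norm_num) (show (3 : ℝ) ≤ 2 ^ 2 by norm_num)
    rw [Real.log_pow] at this
    push_cast at this
    linarith
  -- the inequality for large m
  have hlog : ∀ᶠ t : ℕ in atTop, Real.log t ≤ η / 4 * t := by
    have h1 := (Real.isLittleO_log_id_atTop.bound (show (0 : ℝ) < η / 4 by positivity))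
    have h2 := tendsto_natCast_atTop_atTop (R := ℝ) |>.eventually h1
    filter_upwards [h2] with t ht
    simp only [id, Real.norm_eq_abs, Nat.abs_cast] at ht
    exact (le_abs_self _).trans ht
  set c := 0.192 * 15 * Real.log 2 + 2 + Real.log 13 + 15 / 2 * l with hc
  have hlin : ∀ᶠ t : ℕ in atTop, c ≤ η / 2 * t := by
    have h1 : Tendsto (fun t : ℕ => η / 2 * (t : ℝ)) atTop atTop :=
      Tendsto.const_mul_atTop (by positivity) tendsto_natCast_atTop_atTop
    exact h1.eventually_ge_atTop c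
  obtain ⟨t₀, ht₀⟩ := eventually_atTop.1 (hlog.and (hlin.and (eventually_ge_atTop 1)))
  refine ⟨13 * t₀ + 4, fun d hd => ?_⟩
  set m := (d - 3) / 13 with hm
  have htt : t₀ ≤ m := by
    rw [hm, Nat.le_div_iff_mul_le (by norm_num)]
    omega
  obtain ⟨h1, h2, h3⟩ := ht₀ m htt
  have hd1 : 13 * m ≤ d - 3 := Nat.mul_div_le _ _
  have hd2 : d ≤ 13 * m + 15 := by
    have := Nat.lt_mul_div_succ (d - 3) (show 0 < 13 by norm_num)
    rw [← hm] at this
    omega
  have hd2' : (d : ℝ) ≤ 13 * m + 15 := by exact_mod_cast hd2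
  have hch : Nat.choose (m + 13 * m) m ≤ Nat.choose (m + (d - 3)) m :=
    Nat.choose_le_choose _ (by omega)
  have hch' : ((Nat.choose (m + 13 * m) m : ℕ) : ℝ) ≤
      ((Nat.choose (m + (d - 3)) m : ℕ) : ℝ) := by exact_mod_cast hch
  have hV0 : 0 < VV d := by
    unfold VV
    have hD : (1 : ℝ) ≤ ((d - 3 : ℕ) : ℝ) := by
      exact_mod_cast (show 1 ≤ d - 3 by omega)
    have h3 : (0 : ℝ) < √(3 / 4) := Real.sqrt_pos.2 (by norm_num)
    have h4 : (0 : ℝ) < √(2 * ((d - 3 : ℕ) : ℝ)) := Real.sqrt_pos.2 (by linarith)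
    positivity
  refine le_trans ?_ (mul_le_mul_of_nonneg_left hch' hV0.le)
  have hpos : (0 : ℝ) < ((Nat.choose (m + 13 * m) m : ℕ) : ℝ) := by
    exact_mod_cast Nat.choose_pos (by omega)
  rw [← Real.log_le_log_iff (by positivity) (mul_pos hV0 hpos), Real.log_mul hV0.ne' hpos.ne',
    Real.log_rpow (by norm_num)]
  have a1 := log_choose_lower2 m h3
  have a2 := log_VV_lower (show 4 ≤ d by omega)
  have hl2 : 0 < Real.log 2 := Real.log_pos (by norm_num)
  have h4 : (0.192 : ℝ) * d * Real.log 2 ≤ 0.192 * (13 * m + 15) * Real.log 2 := by gcongr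
  have h5 : (d : ℝ) / 2 * l ≤ (13 * m + 15) / 2 * l := by gcongr
  rw [← hκ] at a1
  rw [← hl] at a2
  have h6 : κ = η + 13 / 2 * l + (312 / 125) * Real.log 2 := by rw [hη]; ring
  rw [h6] at a1
  nlinarith

end Pool.Agent.Helper47.LB
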