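import Mathlib

/-!
BLOCK LB-W2. Growth of the error factors.

`t ≤ d / (400 log d)`, so for large `d`: `t + 1 ≤ d`, `t * log (t + 1) ≤ t * log d ≤ d / 400`,
`2 log (t + 1) ≤ 2 log d = o(d)`, `t log 4 ≤ d log 4 / (400 log d) = o(d)`, and with
`r = C (2 n + 1) θ^(d-3)`, `n = (d-3)/13`, `log (1 + r)^(2 t²) ≤ 2 t² r ≤ 2 d² C (2 d + 1) θ^(d-3) → 0`.
Altogether `log (…) ≤ d/400 + o(d) ≤ 0.005 * log 2 * d` because `1/400 = 0.0025 < 0.0034…`.
-/

set_option autoImplicit false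

namespace Pool.Agent.Helper47.LB

theorem growth {C θ : ℝ} (hC : 0 < C) (hθ0 : 0 < θ) (hθ1 : θ < 1) : ∃ d₀ : ℕ, 20 ≤ d₀ ∧
    ∀ d : ℕ, d₀ ≤ d → C * (2 * (((d - 3) / 13 : ℕ) : ℝ) + 1) * θ ^ (d - 3) ≤ 1 ∧
      ∀ t : ℕ, 1 ≤ t → (t : ℝ) ≤ d / (400 * Real.log d) →
        ((t : ℝ) + 1) ^ (t + 2) * 4 ^ t *
          (1 + C * (2 * (((d - 3) / 13 : ℕ) : ℝ) + 1) * θ ^ (d - 3)) ^ (2 * t ^ 2) ≤
        (2 : ℝ) ^ ((0.005 : ℝ) * d) := by
  have hθ3 : 0 < θ ^ 3 := pow_pos hθ0 3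
  have h1 : ∀ᶠ d : ℕ in Filter.atTop, (3 * C / θ ^ 3) * ((d : ℝ) ^ 3 * θ ^ d) ≤ 1 / 2 := by
    have ht := tendsto_pow_const_mul_const_pow_of_abs_lt_one 3 (r := θ)
      (by rw [abs_of_pos hθ0]; exact hθ1)
    have ht2 := ht.const_mul (3 * C / θ ^ 3)
    rw [mul_zero] at ht2
    exact (ht2.eventually (eventually_le_nhds (by norm_num : (0 : ℝ) < 1 / 2)))
  have h2 : ∀ᶠ d : ℕ in Filter.atTop, Real.log d ≤ 0.00015 * d := by
    have h := Real.isLittleO_log_id_atTop.bound (by norm_num : (0 : ℝ) < 0.00015)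
    have h' := tendsto_natCast_atTop_atTop.eventually h
    filter_upwards [h'] with d hd
    simp only [id, Real.norm_eq_abs] at hd
    rw [abs_of_nonneg (Nat.cast_nonneg d : (0 : ℝ) ≤ (d : ℝ))] at hd
    exact (le_abs_self _).trans hd
  have h3 : ∀ᶠ d : ℕ in Filter.atTop, 12 ≤ Real.log d :=
    (Real.tendsto_log_atTop.comp tendsto_natCast_atTop_atTop).eventually_ge_atTop 12
  have h4 : ∀ᶠ d : ℕ in Filter.atTop, (4000 : ℝ) ≤ (d : ℝ) :=
    tendsto_natCast_atTop_atTop.eventually_ge_atTop 4000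
  obtain ⟨N, hN⟩ := Filter.eventually_atTop.1 (h1.and (h2.and (h3.and h4)))
  refine ⟨max N 20, le_max_right _ _, fun d hd => ?_⟩
  obtain ⟨k1, k2, k3, k4⟩ := hN d ((le_max_left _ _).trans hd)
  have hd20 : 20 ≤ d := (le_max_right _ _).trans hd
  set r : ℝ := C * (2 * (((d - 3) / 13 : ℕ) : ℝ) + 1) * θ ^ (d - 3) with hr
  have hr0 : 0 ≤ r := by positivity
  have hdpos : (0 : ℝ) < d := by linarith
  have hnat : ((((d - 3) / 13 : ℕ) : ℝ)) ≤ (d : ℝ) := by
    exact_mod_cast (Nat.div_le_self _ _).trans (Nat.sub_le _ _)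
  have hpow : θ ^ (d - 3) = θ ^ d * (θ ^ 3)⁻¹ := pow_sub₀ θ hθ0.ne' (by omega)
  have hrle : r ≤ C * (3 * d) * (θ ^ d * (θ ^ 3)⁻¹) := by
    rw [hr, hpow]
    apply mul_le_mul_of_nonneg_right _ (by positivity)
    apply mul_le_mul_of_nonneg_left _ hC.le
    linarith
  have hd2r : (d : ℝ) ^ 2 * r ≤ 1 / 2 := by
    calc (d : ℝ) ^ 2 * r ≤ (d : ℝ) ^ 2 * (C * (3 * d) * (θ ^ d * (θ ^ 3)⁻¹)) :=
          mul_le_mul_of_nonneg_left hrle (by positivity)
      _ = (3 * C / θ ^ 3) * ((d : ℝ) ^ 3 * θ ^ d) := by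
          rw [div_eq_mul_inv]; ring
      _ ≤ 1 / 2 := k1
  have hd2 : (1 : ℝ) ≤ (d : ℝ) ^ 2 := by nlinarith
  refine ⟨?_, ?_⟩
  · nlinarith
  · intro t ht1 ht
    have ht1' : (1 : ℝ) ≤ t := by exact_mod_cast ht1
    have hlogpos : 0 < Real.log d := by linarith
    have htl : (t : ℝ) * (400 * Real.log d) ≤ d := by
      rwa [le_div_iff₀ (by positivity)] at ht
    have ht4800 : (t : ℝ) * 4800 ≤ d := by nlinarith
    have htd : (t : ℝ) + 1 ≤ d := by linarith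
    have ht0 : (0 : ℝ) < (t : ℝ) + 1 := by linarith
    have hpos : 0 < ((t : ℝ) + 1) ^ (t + 2) * 4 ^ t * (1 + r) ^ (2 * t ^ 2) := by positivity
    rw [Real.rpow_def_of_pos two_pos, ← Real.log_le_iff_le_exp hpos,
      Real.log_mul (by positivity) (by positivity), Real.log_mul (by positivity) (by positivity),
      Real.log_pow, Real.log_pow, Real.log_pow]
    push_cast
    have e1 : ((t : ℝ) + 2) * Real.log (t + 1) ≤ ((t : ℝ) + 2) * Real.log d :=
      mul_le_mul_of_nonneg_left (Real.log_le_log ht0 htd) (by linarith)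
    have e2 : (t : ℝ) * Real.log 4 ≤ 0.0003 * d := by
      have h4 : Real.log 4 ≤ 1.4 := by
        have : (4 : ℝ) = 2 ^ 2 := by norm_num
        rw [this, Real.log_pow]
        have := Real.log_two_lt_d9
        push_cast
        linarith
      have : (t : ℝ) * Real.log 4 ≤ t * 1.4 := mul_le_mul_of_nonneg_left h4 (by linarith)
      linarith
    have e3 : 2 * (t : ℝ) ^ 2 * Real.log (1 + r) ≤ 1 := by
      have h : Real.log (1 + r) ≤ r := by
        have := Real.log_le_sub_one_of_pos (by linarith : (0 : ℝ) < 1 + r)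
        linarith
      have hlog0 : 0 ≤ Real.log (1 + r) := Real.log_nonneg (by linarith)
      have htd2 : (t : ℝ) ^ 2 ≤ (d : ℝ) ^ 2 := by
        apply pow_le_pow_left₀ (by linarith)
        linarith
      calc 2 * (t : ℝ) ^ 2 * Real.log (1 + r) ≤ 2 * (d : ℝ) ^ 2 * r := by
            apply mul_le_mul _ h hlog0 (by positivity)
            linarith
        _ = 2 * ((d : ℝ) ^ 2 * r) := by ring
        _ ≤ 1 := by linarith
    have hl2 := Real.log_two_gt_d9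
    have e4 : (t : ℝ) * Real.log d ≤ d / 400 := by
      have : (t : ℝ) * (400 * Real.log d) = 400 * (t * Real.log d) := by ring
      rw [this] at htl
      linarith
    have e5 : ((t : ℝ) + 2) * Real.log d = t * Real.log d + 2 * Real.log d := by ring
    have e6 : Real.log 2 * (0.005 * (d : ℝ)) ≥ 0.00346 * d := by nlinarith
    linarith

end Pool.Agent.Helper47.LB
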