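import Pool.Agent.Helper47.LB.Dens

/-!
BLOCK LB-W3. The value.

`VV d * (2/√3)^d = √(2 (d-3)) * (2/√3)^3` (as `√(3/4) = √3/2`) `≤ 2^(0.01 d / t)` because
`d / t ≥ 400 log d`, so `2^(0.01 d/t) ≥ 2^(4 log d) = d^(4 log 2) ≥ d^2`.
`VV d ≤ 1` for large `d` (`√(2 D) (√(3/4))^D → 0`).
(`VV_pos` is in `Dens.lean`.)
-/

set_option autoImplicit false

namespace Pool.Agent.Helper47.LB

theorem VV_le_one : ∃ d₀ : ℕ, ∀ d : ℕ, d₀ ≤ d → VV d ≤ 1 := by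
  have hr0 : (0 : ℝ) ≤ √(3 / 4) := Real.sqrt_nonneg _
  have hr1 : √(3 / 4) < (1 : ℝ) := by
    rw [Real.sqrt_lt' one_pos]; norm_num
  have ht := tendsto_pow_const_mul_const_pow_of_abs_lt_one 1
    (show |√(3 / 4 : ℝ)| < 1 by rw [abs_of_nonneg hr0]; exact hr1)
  have hev := ht.eventually_le_const (show (0 : ℝ) < 1 / 2 by norm_num)
  obtain ⟨N, hN⟩ := Filter.eventually_atTop.1 hev
  refine ⟨N + 4, fun d hd => ?_⟩
  have h1 := hN (d - 3) (by omega)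
  unfold VV
  set D := d - 3 with hD
  have hD1 : (1 : ℝ) ≤ (D : ℝ) := by exact_mod_cast (by omega : 1 ≤ D)
  have h2 : √(2 * (D : ℝ)) ≤ 2 * (D : ℝ) := by
    rw [Real.sqrt_le_left (by linarith)]
    nlinarith
  have h3 : (0 : ℝ) ≤ √(3 / 4) ^ D := pow_nonneg hr0 _
  calc √(2 * (D : ℝ)) * √(3 / 4) ^ D ≤ (2 * (D : ℝ)) * √(3 / 4) ^ D :=
        mul_le_mul_of_nonneg_right h2 h3
    _ = 2 * ((D : ℝ) ^ 1 * √(3 / 4) ^ D) := by ring
    _ ≤ 1 := by linarith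

theorem value_le : ∃ d₀ : ℕ, ∀ d : ℕ, d₀ ≤ d → ∀ t : ℕ, 1 ≤ t →
    (t : ℝ) ≤ d / (400 * Real.log d) →
      (2 / √3) ^ d * (2 : ℝ) ^ ((0.08 : ℝ) * d / t) ≤ (2 : ℝ) ^ ((0.09 : ℝ) * d / t) / VV d := by
  refine ⟨4, fun d hd t ht htd => ?_⟩
  have hV := VV_pos hd
  have hd4 : (4 : ℝ) ≤ (d : ℝ) := by exact_mod_cast hd
  have hd0 : (0 : ℝ) < (d : ℝ) := by linarith
  have ht0 : (0 : ℝ) < (t : ℝ) := by exact_mod_cast ht
  have hlog : 0 < Real.log d := Real.log_pos (by linarith)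
  rw [le_div_iff₀ hV]
  have hsplit : (2 : ℝ) ^ ((0.09 : ℝ) * d / t) =
      (2 : ℝ) ^ ((0.08 : ℝ) * d / t) * (2 : ℝ) ^ ((0.01 : ℝ) * d / t) := by
    rw [← Real.rpow_add (by norm_num)]
    congr 1
    ring
  rw [hsplit]
  have hP : (0 : ℝ) < (2 : ℝ) ^ ((0.08 : ℝ) * d / t) := Real.rpow_pos_of_pos (by norm_num) _
  suffices hs : (2 / √3) ^ d * VV d ≤ (2 : ℝ) ^ ((0.01 : ℝ) * d / t) by
    calc (2 / √3) ^ d * (2 : ℝ) ^ ((0.08 : ℝ) * d / t) * VV d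
        = (2 : ℝ) ^ ((0.08 : ℝ) * d / t) * ((2 / √3) ^ d * VV d) := by ring
      _ ≤ _ := mul_le_mul_of_nonneg_left hs hP.le
  -- the right hand side
  have hexp : 4 * Real.log d ≤ (0.01 : ℝ) * d / t := by
    rw [le_div_iff₀ (by positivity)] at htd
    rw [le_div_iff₀ ht0]
    nlinarith
  have hlog2 : (1 : ℝ) / 2 ≤ Real.log 2 := by
    have := Real.log_two_gt_d9
    linarith
  have hrhs : (d : ℝ) ^ 2 ≤ (2 : ℝ) ^ ((0.01 : ℝ) * d / t) := by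
    calc (d : ℝ) ^ 2 = Real.exp (2 * Real.log d) := by
          rw [show 2 * Real.log (d : ℝ) = Real.log d + Real.log d by ring, Real.exp_add,
            Real.exp_log hd0]
          ring
      _ ≤ Real.exp (Real.log 2 * (4 * Real.log d)) := by
          apply Real.exp_le_exp.2
          nlinarith
      _ ≤ Real.exp (Real.log 2 * ((0.01 : ℝ) * d / t)) := by
          apply Real.exp_le_exp.2
          exact mul_le_mul_of_nonneg_left hexp (by linarith)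
      _ = (2 : ℝ) ^ ((0.01 : ℝ) * d / t) := by
          rw [Real.rpow_def_of_pos (by norm_num)]
  refine le_trans ?_ hrhs
  -- the left hand side
  unfold VV
  obtain ⟨D, rfl⟩ : ∃ D, d = D + 3 := ⟨d - 3, by omega⟩
  have hD : D + 3 - 3 = D := by omega
  rw [hD]
  have h3 : (0 : ℝ) < √3 := Real.sqrt_pos.2 (by norm_num)
  have h33 : √3 * √3 = (3 : ℝ) := Real.mul_self_sqrt (by norm_num)
  have h34 : √(3 / 4 : ℝ) = √3 / 2 := by
    rw [Real.sqrt_div (by norm_num)]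
    congr 1
    rw [show (4 : ℝ) = 2 ^ 2 by norm_num]
    exact Real.sqrt_sq (by norm_num)
  rw [h34]
  have hcancel : (2 / √3) ^ D * (√3 / 2) ^ D = (1 : ℝ) := by
    rw [← mul_pow]
    have : 2 / √3 * (√3 / 2) = (1 : ℝ) := by field_simp
    rw [this, one_pow]
  have h2 : (2 / √3) ^ 3 ≤ (2 : ℝ) := by
    rw [div_pow, div_le_iff₀ (by positivity)]
    have h17 : (1.7 : ℝ) ≤ √3 := by
      apply Real.le_sqrt_of_sq_le; norm_num
    have : √3 ^ 3 = 3 * √3 := by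
      calc √3 ^ 3 = (√3 * √3) * √3 := by ring
        _ = 3 * √3 := by rw [h33]
    rw [this]
    nlinarith
  have hs : √(2 * (D : ℝ)) ≤ ((D + 3 : ℕ) : ℝ) := by
    push_cast
    apply Real.sqrt_le_iff.2
    constructor
    · positivity
    · nlinarith [sq_nonneg ((D : ℝ))]
  have hD1 : (4 : ℝ) ≤ ((D + 3 : ℕ) : ℝ) := hd4
  have hsn : (0 : ℝ) ≤ √(2 * (D : ℝ)) := Real.sqrt_nonneg _
  calc (2 / √3) ^ (D + 3) * (√(2 * (D : ℝ)) * (√3 / 2) ^ D)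
      = ((2 / √3) ^ D * (√3 / 2) ^ D) * ((2 / √3) ^ 3 * √(2 * (D : ℝ))) := by ring
    _ = (2 / √3) ^ 3 * √(2 * (D : ℝ)) := by rw [hcancel, one_mul]
    _ ≤ 2 * √(2 * (D : ℝ)) := mul_le_mul_of_nonneg_right h2 hsn
    _ ≤ 2 * ((D + 3 : ℕ) : ℝ) := by linarith
    _ ≤ ((D + 3 : ℕ) : ℝ) ^ 2 := by nlinarith

end Pool.Agent.Helper47.LB
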