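import Pool.Agent.Helper47.LB.N1
import Pool.Agent.Helper47.KP.Op
import Pool.Agent.Helper47.KP.Dens

/-!
BLOCK LB-V. The operator norm of the zonal kernel `g - 1`.

By `op_ineq` (KP/Op.lean) applied to `g` and to `2 - g` (its mean is `1` and its coefficients for
`j ≥ 1` are the negatives, `integral_PP_den`-type: `∫ P_j dden = 0`), the quadratic form
`B(φ, φ)` of `g - 1`, `B(φ, ψ) = ∫∫ φ(x) ψ(y) (g⟪x,y⟫ - 1)`, satisfies
`|B(φ, φ)| ≤ ε ∫ φ²`. `B` is symmetric, so by polarisation
`|B(φ, ψ)| = |B(φ+ψ, φ+ψ) - B(φ-ψ, φ-ψ)| / 4 ≤ (ε/4) (∫ (φ+ψ)² + ∫ (φ-ψ)²)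
= (ε/2) (∫ φ² + ∫ ψ²)`, and scaling (`φ ↦ s φ`, `ψ ↦ s⁻¹ ψ`; treat `∫ φ² = 0` or `∫ ψ² = 0` by
`s → ∞`, that is `|B| ≤ (ε/2)(s² ∫ φ² + s⁻² ∫ ψ²)` for all `s > 0`) gives the claim.
-/

set_option autoImplicit false

open MeasureTheory Set
open scoped RealInnerProductSpace

namespace Pool.Agent.Helper47.LB

open Pool.Agent.Helper47.KP (Bd den PP sig Sph EE)

open Pool.Agent.Helper47.KP

/-- scaling: from the weighted arithmetic bound to the geometric one -/
lemma op_scale {a b c ε : ℝ} (ha : 0 ≤ a) (hb : 0 ≤ b) (hε : 0 ≤ ε)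
    (h : ∀ s : ℝ, 0 < s → c ≤ ε / 2 * (s * a + s⁻¹ * b)) : c ≤ ε * (√a * √b) := by
  have key : ∀ δ : ℝ, 0 < δ → c ≤ ε * (√(a + δ) * √(b + δ)) := by
    intro δ hδ
    have hA : 0 < a + δ := by linarith
    have hB : 0 < b + δ := by linarith
    have hsA : 0 < √(a + δ) := Real.sqrt_pos.2 hA
    have hsB : 0 < √(b + δ) := Real.sqrt_pos.2 hB
    have h1 := h (√(b + δ) / √(a + δ)) (div_pos hsB hsA)
    have e1 : √(b + δ) / √(a + δ) * a ≤ √(a + δ) * √(b + δ) := by
      rw [div_mul_eq_mul_div, div_le_iff₀ hsA]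
      have : √(a + δ) * √(a + δ) = a + δ := Real.mul_self_sqrt hA.le
      nlinarith
    have e2 : (√(b + δ) / √(a + δ))⁻¹ * b ≤ √(a + δ) * √(b + δ) := by
      rw [inv_div, div_mul_eq_mul_div, div_le_iff₀ hsB]
      have : √(b + δ) * √(b + δ) = b + δ := Real.mul_self_sqrt hB.le
      nlinarith
    calc c ≤ ε / 2 * (√(b + δ) / √(a + δ) * a + (√(b + δ) / √(a + δ))⁻¹ * b) := h1
      _ ≤ ε / 2 * (√(a + δ) * √(b + δ) + √(a + δ) * √(b + δ)) := by
          apply mul_le_mul_of_nonneg_left (add_le_add e1 e2) (by positivity)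
      _ = ε * (√(a + δ) * √(b + δ)) := by ring
  have hc : Continuous (fun δ : ℝ => ε * (√(a + δ) * √(b + δ))) := by fun_prop
  have ht : Filter.Tendsto (fun δ : ℝ => ε * (√(a + δ) * √(b + δ))) (nhdsWithin 0 (Ioi 0))
      (nhds (ε * (√a * √b))) := by
    have := hc.tendsto 0
    simp only [add_zero] at this
    exact this.mono_left nhdsWithin_le_nhds
  exact ge_of_tendsto ht (Filter.eventually_of_mem self_mem_nhdsWithin fun δ hδ => key δ hδ)

/-- the form of `g - 1` -/
noncomputable def BF {d : ℕ} (g : ℝ → ℝ) (u w : Sph d → ℝ) : ℝ :=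
  ∫ x : Sph d, ∫ y : Sph d, u x * w y * (g ⟪(x : EE d), (y : EE d)⟫ - 1) ∂(sig d) ∂(sig d)

section

variable {d : ℕ} [NeZero d] {g : ℝ → ℝ} (hg : Measurable g) {G : ℝ} (hG : ∀ t, |g t| ≤ G)

include hg hG

lemma Bd_ker {u w : Sph d → ℝ} (hu : Bd u) (hw : Bd w) :
    Bd (fun p : Sph d × Sph d => u p.1 * w p.2 * (g ⟪(p.1 : EE d), (p.2 : EE d)⟫ - 1)) := by
  have h1 : Bd (fun p : Sph d × Sph d => g ⟪(p.1 : EE d), (p.2 : EE d)⟫) :=
    ⟨hg.comp continuous_inner2.measurable, G, fun p => hG _⟩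
  have h2 : Bd (fun p : Sph d × Sph d => g ⟪(p.1 : EE d), (p.2 : EE d)⟫ - 1) := by
    have := h1.add (Bd.const (-1))
    simpa [sub_eq_add_neg] using this
  exact ((hu.comp measurable_fst).mul (hw.comp measurable_snd)).mul h2

lemma BF_eq {u w : Sph d → ℝ} (hu : Bd u) (hw : Bd w) :
    BF g u w = ∫ p : Sph d × Sph d, u p.1 * w p.2 * (g ⟪(p.1 : EE d), (p.2 : EE d)⟫ - 1)
      ∂((sig d).prod (sig d)) := by
  unfold BF
  exact (integral_prod _ ((Bd_ker hg hG hu hw).integrable _)).symm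

lemma BF_symm {u w : Sph d → ℝ} (hu : Bd u) (hw : Bd w) : BF g u w = BF g w u := by
  unfold BF
  rw [integral_integral_swap ((Bd_ker hg hG hu hw).integrable _)]
  congr 1; funext y
  congr 1; funext x
  rw [real_inner_comm]; ring

lemma BF_add {u v w : Sph d → ℝ} (hu : Bd u) (hv : Bd v) (hw : Bd w) (a b : ℝ) :
    BF g (fun x => a * u x + b * v x) w = a * BF g u w + b * BF g v w := by
  have hau : Bd (fun x => a * u x) := (Bd.const a).mul hu
  have hbv : Bd (fun x => b * v x) := (Bd.const b).mul hv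
  rw [BF_eq hg hG (hau.add hbv) hw, BF_eq hg hG hu hw, BF_eq hg hG hv hw,
    ← integral_const_mul, ← integral_const_mul,
    ← integral_add (((Bd_ker hg hG hu hw).integrable _).const_mul a)
      (((Bd_ker hg hG hv hw).integrable _).const_mul b)]
  congr 1; funext p; ring

lemma BF_QF {u : Sph d → ℝ} (hu : Bd u) :
    BF g u u = QF g u - (∫ x : Sph d, u x ∂(sig d)) ^ 2 := by
  have h1 : ∀ x : Sph d, ∫ y : Sph d, u x * u y * (g ⟪(x : EE d), (y : EE d)⟫ - 1) ∂(sig d) =
      u x * ∫ y : Sph d, u y * g ⟪(x : EE d), y⟫ ∂(sig d) - u x * ∫ y : Sph d, u y ∂(sig d) := by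
    intro x
    have i1 : Integrable (fun y : Sph d => u y * g ⟪(x : EE d), (y : EE d)⟫) (sig d) := by
      have : Bd (fun y : Sph d => g ⟪(x : EE d), (y : EE d)⟫) :=
        ⟨hg.comp (continuous_inner_S _).measurable, G, fun p => hG _⟩
      exact (hu.mul this).integrable _
    have i2 : Integrable u (sig d) := hu.integrable _
    rw [← integral_const_mul, ← integral_const_mul,
      ← integral_sub (i1.const_mul _) (i2.const_mul _)]
    congr 1; funext y; ring
  have hb : Bd (fun x : Sph d => ∫ y : Sph d, u y * g ⟪(x : EE d), y⟫ ∂(sig d)) := by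
    have : Bd (fun p : Sph d × Sph d => u p.2 * g ⟪(p.1 : EE d), (p.2 : EE d)⟫) :=
      (hu.comp measurable_snd).mul ⟨hg.comp continuous_inner2.measurable, G, fun p => hG _⟩
    exact this.integral _
  unfold BF QF
  simp only [h1]
  rw [integral_sub ((hu.mul hb).integrable _) ((hu.mul (Bd.const _)).integrable _),
    integral_mul_const, sq]

end

theorem op_bound {d : ℕ} [NeZero d] (hd : 3 ≤ d) {g : ℝ → ℝ} (hg : Measurable g) {G : ℝ}
    (hG : ∀ t, |g t| ≤ G) (h0 : ∫ t, g t ∂(den d) = 1) {ε : ℝ} (hε : 0 ≤ ε)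
    (hj : ∀ j, 1 ≤ j → |∫ t, g t * (PP d j).eval t ∂(den d)| ≤ ε) :
    NB (sig d) (sig d) (fun x y : Sph d => g ⟪(x : EE d), (y : EE d)⟫ - 1) ε := by
  have hprob : IsProbabilityMeasure (den d) := by
    obtain ⟨x0⟩ := exists_point (d := d)
    rw [← map_inner hd x0]
    exact Measure.isProbabilityMeasure_map (continuous_inner_S _).measurable.aemeasurable
  have hgi : Integrable g (den d) := Integrable.of_bound hg.aestronglyMeasurable G
    (Filter.Eventually.of_forall fun x => by rw [Real.norm_eq_abs]; exact hG x)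
  -- the diagonal bound
  have hdiag : ∀ u : Sph d → ℝ, Bd u → |BF g u u| ≤ ε * ∫ x : Sph d, u x ^ 2 ∂(sig d) := by
    intro u hu
    obtain ⟨B, hB⟩ := hu.bd
    have hBM : BM u B := ⟨hu.meas, hB⟩
    have e1 := op_ineq hd hg hG h0 hε (fun j hj1 => (abs_le.1 (hj j hj1)).1) hBM
    have hg2 : Measurable (fun t => 2 - g t) := measurable_const.sub hg
    have hG2 : ∀ t, |(fun t => 2 - g t) t| ≤ 2 + G := by
      intro t
      have := hG t
      rw [abs_le] at this ⊢
      constructor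
      · show -(2 + G) ≤ 2 - g t
        linarith [this.1, this.2]
      · show 2 - g t ≤ 2 + G
        linarith [this.1, this.2]
    have h02 : ∫ t, (fun t => 2 - g t) t ∂(den d) = 1 := by
      show ∫ t, (2 - g t) ∂(den d) = 1
      rw [integral_sub (integrable_const _) hgi, h0, integral_const]
      simp
      norm_num
    have hj2 : ∀ j, 1 ≤ j → -ε ≤ ∫ t, (fun t => 2 - g t) t * (PP d j).eval t ∂(den d) := by
      intro j hj1
      have hPb : ∃ C : ℝ, ∀ᵐ t ∂(den d), ‖(PP d j).eval t‖ ≤ C := by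
        obtain ⟨C, hC⟩ := (isCompact_Icc (a := (-1 : ℝ)) (b := 1)).image (PP d j).continuous
          |>.isBounded.exists_norm_le
        refine ⟨C, ?_⟩
        filter_upwards [den_supp (d := d)] with t ht
        exact hC _ ⟨t, ht, rfl⟩
      obtain ⟨C, hC⟩ := hPb
      have iP : Integrable (fun t => (PP d j).eval t) (den d) :=
        Integrable.of_bound (PP d j).continuous.aestronglyMeasurable C hC
      have igP : Integrable (fun t => g t * (PP d j).eval t) (den d) :=
        iP.bdd_mul hg.aestronglyMeasurable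
          (Filter.Eventually.of_forall fun x => by rw [Real.norm_eq_abs]; exact hG x)
      have : ∫ t, (fun t => 2 - g t) t * (PP d j).eval t ∂(den d) =
          - ∫ t, g t * (PP d j).eval t ∂(den d) := by
        have h3 : ∫ t, (fun t => 2 - g t) t * (PP d j).eval t ∂(den d) =
            ∫ t, (2 * (PP d j).eval t - g t * (PP d j).eval t) ∂(den d) := by
          congr 1; funext t; ring
        rw [h3, integral_sub (iP.const_mul 2) igP, integral_const_mul, integral_PP_den hd hj1]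
        ring
      rw [this]
      linarith [(abs_le.1 (hj j hj1)).2]
    have e2 := op_ineq hd hg2 hG2 h02 hε hj2 hBM
    have hQ : QF (fun t => 2 - g t) u = 2 * (∫ x : Sph d, u x ∂(sig d)) ^ 2 - QF g u := by
      have a1 := BF_QF hg hG hu
      have a2 := BF_QF hg2 hG2 hu
      have a3 : BF (fun t => 2 - g t) u u = - BF g u u := by
        unfold BF
        rw [← integral_neg]
        congr 1; funext x
        rw [← integral_neg]
        congr 1; funext y
        ring
      linarith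
    rw [hQ] at e2
    rw [BF_QF hg hG hu, abs_le]
    constructor <;> linarith
  intro u w hu hw
  show |BF g u w| ≤ ε * (√(∫ y, u y ^ 2 ∂(sig d)) * √(∫ z, w z ^ 2 ∂(sig d)))
  have hu2 : Bd (fun x => u x ^ 2) := by
    have := hu.mul hu
    simpa [sq] using this
  have hw2 : Bd (fun x => w x ^ 2) := by
    have := hw.mul hw
    simpa [sq] using this
  have huw : Bd (fun x => u x * w x) := hu.mul hw
  apply op_scale (integral_nonneg fun x => sq_nonneg _) (integral_nonneg fun x => sq_nonneg _) hε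
  intro s hs
  set r := √s with hr
  have hr0 : 0 < r := Real.sqrt_pos.2 hs
  have hrs : r * r = s := Real.mul_self_sqrt hs.le
  have hp : Bd (fun x => r * u x + r⁻¹ * w x) := ((Bd.const r).mul hu).add ((Bd.const r⁻¹).mul hw)
  have hm : Bd (fun x => r * u x + (-r⁻¹) * w x) :=
    ((Bd.const r).mul hu).add ((Bd.const (-r⁻¹)).mul hw)
  have dp := hdiag _ hp
  have dm := hdiag _ hm
  have exp1 : ∀ a b : ℝ, BF g (fun x => a * u x + b * w x) (fun x => a * u x + b * w x) =
      a ^ 2 * BF g u u + 2 * (a * b) * BF g u w + b ^ 2 * BF g w w := by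
    intro a b
    have hab : Bd (fun x => a * u x + b * w x) := ((Bd.const a).mul hu).add ((Bd.const b).mul hw)
    rw [BF_add hg hG hu hw hab a b, BF_symm hg hG hu hab, BF_symm hg hG hw hab,
      BF_add hg hG hu hw hu a b, BF_add hg hG hu hw hw a b, BF_symm hg hG hw hu]
    ring
  have exp2 : ∀ a b : ℝ, ∫ x : Sph d, (a * u x + b * w x) ^ 2 ∂(sig d) =
      a ^ 2 * ∫ x : Sph d, u x ^ 2 ∂(sig d) + 2 * (a * b) * ∫ x : Sph d, u x * w x ∂(sig d) +
        b ^ 2 * ∫ x : Sph d, w x ^ 2 ∂(sig d) := by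
    intro a b
    have i1 : Integrable (fun x => a ^ 2 * u x ^ 2) (sig d) := (hu2.integrable _).const_mul _
    have i2 : Integrable (fun x => 2 * (a * b) * (u x * w x)) (sig d) :=
      (huw.integrable _).const_mul _
    have i3 : Integrable (fun x => b ^ 2 * w x ^ 2) (sig d) := (hw2.integrable _).const_mul _
    have i12 : Integrable (fun x => a ^ 2 * u x ^ 2 + 2 * (a * b) * (u x * w x)) (sig d) :=
      i1.add i2
    rw [← integral_const_mul, ← integral_const_mul, ← integral_const_mul,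
      ← integral_add i1 i2, ← integral_add i12 i3]
    congr 1; funext x; ring
  rw [exp1, exp2] at dp dm
  have hrr : r * r⁻¹ = 1 := mul_inv_cancel₀ hr0.ne'
  have hri : r⁻¹ ^ 2 = s⁻¹ := by rw [← hrs, sq, mul_inv]
  have hr2 : r ^ 2 = s := by rw [sq, hrs]
  have hri' : (-r⁻¹) ^ 2 = s⁻¹ := by rw [neg_sq, hri]
  have hrr' : r * -r⁻¹ = -1 := by rw [mul_neg, hrr]
  rw [hrr, hri, hr2] at dp
  rw [hrr', hri', hr2] at dm
  rw [abs_le] at dp dm ⊢
  constructor
  · nlinarith [dp.1, dp.2, dm.1, dm.2]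
  · nlinarith [dp.1, dp.2, dm.1, dm.2]

end Pool.Agent.Helper47.LB
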