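import Pool.Agent.Helper47.LB.Pos2
import Pool.Agent.Helper47.LB.Ident
import Pool.Agent.Helper47.LB.Constr
import Pool.Agent.Helper47.LB.Lin
import Pool.Agent.Helper47.LB.Op
import Pool.Agent.Helper47.LB.Mrec
import Pool.Agent.Helper47.LB.Num1
import Pool.Agent.Helper47.LB.Num2
import Pool.Agent.Helper47.LB.Num3
import Pool.Agent.Helper47.LB.Feas

/-!
The lower bound for the Lasserre hierarchy.
-/

set_option autoImplicit false

open MeasureTheory Finset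
open scoped RealInnerProductSpace

namespace Pool.Agent.Helper47.LB

open Pool.Agent.Helper47.KP (Bd pim sig Sph EE den PP Par)

/-- the abstract bound -/
theorem abstract_bound {X : Type} [MetricSpace X] [CompactSpace X] [MeasurableSpace X]
    [BorelSpace X] [DecidableEq X] {σ : Measure X} [IsProbabilityMeasure σ] {g : X → X → ℝ}
    {G v ε : ℝ} (k : Ker σ g G v ε) {R : X → X → Prop} {t : ℕ} {K : Finset X → Finset X → ℝ}
    (hR : IsClosed {p : X × X | R p.1 p.2}) (hirr : ∀ x, ¬ R x x) (hgR : ∀ x y, g x y ≠ 0 → R x y)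
    (hK : PK R t K) (ht : 1 ≤ t)
    (hc : ∀ S : Finset X, S.Nonempty → S.card ≤ 2 * t → (∀ x ∈ S, ∀ y ∈ S, x ≠ y → R x y) →
      (∑ J ∈ S.powerset, ∑ J' ∈ S.powerset, if J ∪ J' = S ∧ J.card ≤ t ∧ J'.card ≤ t then
        K J J' else 0) ≤ if S.card = 1 then -1 else 0)
    {N : ℝ} (hN : 0 < N) (hNv : 1 ≤ N * v) {δ : ℝ} (hδ : 0 ≤ δ) (hε : ε ≤ δ * v)
    (h1 : δ * 2 ^ t * (G ^ t * ((t : ℝ) + 1)) ^ t ≤ 1)
    (h2 : ((t : ℝ) + 1) ^ 2 * 2 ^ t * G ^ (t ^ 2) * (N * v) ^ t *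
      (δ * 2 ^ t * (G ^ t * ((t : ℝ) + 1)) ^ t) ≤ 1) :
    N ≤ K ∅ ∅ := by
  have hG := k.one_le
  have hgx : ∀ x, g x x = 0 := fun x => by
    by_contra h
    exact hirr x (hgR x x h)
  have hM : ∀ p q, 1 ≤ p → p ≤ t → 1 ≤ q → q ≤ t → MM G δ q p ≤
      δ * 2 ^ t * (G ^ t * ((t : ℝ) + 1)) ^ t := fun p q hp hpt hq hqt =>
    MM_le hG hδ h1 hp hq hpt hqt
  have hMm : 0 ≤ δ * 2 ^ t * (G ^ t * ((t : ℝ) + 1)) ^ t := by positivity
  have hpos : 0 ≤ Form σ t N g (trunc R t K) :=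
    Form_nonneg k hR hirr hK hN.le fun F hF =>
      Form_rank_one k hN hNv hδ hε hMm hM h2 hF
  rw [← Lam_eq_Form k t N (trunc_bd hR hirr hK)] at hpos
  have hle := Lam_le k hgx ht hN.le (K := trunc R t K) (trunc_bd hR hirr hK) (by
    intro S hS hSt hSg
    refine le_trans (le_of_eq ?_) (hc S hS hSt fun x hx y hy hxy => hgR x y (hSg x hx y hy hxy))
    refine sum_congr rfl fun J hJ => sum_congr rfl fun J' hJ' => ?_
    rw [mem_powerset] at hJ hJ'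
    by_cases hcond : J ∪ J' = S ∧ J.card ≤ t ∧ J'.card ≤ t
    · rw [if_pos hcond, if_pos hcond, trunc, if_pos]
      refine ⟨⟨hcond.2.1, fun x hx y hy hxy => hgR x y (hSg x (hJ hx) y (hJ hy) hxy)⟩,
        hcond.2.2, fun x hx y hy hxy => hgR x y (hSg x (hJ' hx) y (hJ' hy) hxy)⟩
    · rw [if_neg hcond, if_neg hcond])
  have h0 : trunc R t K ∅ ∅ = K ∅ ∅ := by
    rw [trunc, if_pos]
    constructor <;> exact ⟨by simp, fun x hx => absurd hx (notMem_empty x)⟩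
  rw [h0] at hle
  linarith

theorem lasserre_barrier : ∃ d₀ : ℕ, ∀ d : ℕ, d₀ ≤ d → ∀ t : ℕ, 1 ≤ t →
    (t : ℝ) ≤ d / (400 * Real.log d) → ∀ K : Finset (Sph d) → Finset (Sph d) → ℝ,
      LFeas d t K → (2 / √3) ^ d * (2 : ℝ) ^ ((0.08 : ℝ) * d / t) ≤ K ∅ ∅ := by
  classical
  -- the parameters
  set A : ℝ := 187 / 50 with hA
  set b : ℝ := 2 * A / (A ^ 2 + 1) with hb
  have hPar : Par A b := ⟨by rw [hA]; norm_num, by rw [hb]; field_simp⟩
  have hb2 : b < 1 / 2 := by rw [hb, hA]; norm_num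
  have hβ : 2 * (1 / 13 : ℝ) < 2 / (A ^ 2 - 1) := by rw [hA]; norm_num
  obtain ⟨C, θ, hC, hθ0, hθ1, hdens⟩ := exists_density2 hPar hb2 (by norm_num) hβ
  obtain ⟨d₁, hd₁⟩ := VV_choose_large
  obtain ⟨d₂, hd₂20, hd₂⟩ := growth hC hθ0 hθ1
  obtain ⟨d₃, hd₃⟩ := VV_le_one
  obtain ⟨d₄, hd₄⟩ := value_le
  refine ⟨max (max d₁ d₂) (max d₃ d₄), fun d hd t ht htd K hf => ?_⟩
  have hdd1 : d₁ ≤ d := le_trans (le_trans (le_max_left _ _) (le_max_left _ _)) hd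
  have hdd2 : d₂ ≤ d := le_trans (le_trans (le_max_right _ _) (le_max_left _ _)) hd
  have hdd3 : d₃ ≤ d := le_trans (le_trans (le_max_left _ _) (le_max_right _ _)) hd
  have hdd4 : d₄ ≤ d := le_trans (le_trans (le_max_right _ _) (le_max_right _ _)) hd
  have hd20 : 20 ≤ d := le_trans hd₂20 hdd2
  have : NeZero d := ⟨by omega⟩
  obtain ⟨hr1, hgrow⟩ := hd₂ d hdd2
  have hgrow := hgrow t ht htd
  have hval := hd₄ d hdd4 t ht htd
  have hV0 := VV_pos (show 4 ≤ d by omega)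
  have hV1 := hd₃ d hdd3
  have hch := hd₁ d hdd1
  set n := (d - 3) / 13 with hn
  have hn1 : 1 ≤ n := by omega
  have hnβ : (n : ℝ) ≤ 1 / 13 * ((d - 3 : ℕ) : ℝ) := by
    have h1 : 13 * ((d - 3) / 13) ≤ d - 3 := Nat.mul_div_le _ _
    have h2 : (13 : ℝ) * (((d - 3) / 13 : ℕ) : ℝ) ≤ ((d - 3 : ℕ) : ℝ) := by exact_mod_cast h1
    rw [hn]
    linarith
  obtain ⟨g, hgm, hg0, hg1, hgz, hgs, hgI, hgv, hgj⟩ := hdens d n (by omega) hn1 hnβ hr1
  set r := C * (2 * (n : ℝ) + 1) * θ ^ (d - 3) with hr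
  have hr0 : 0 ≤ r := by positivity
  set v := VV d with hv
  set ch : ℝ := (Nat.choose (n + (d - 3)) n : ℝ) with hchdef
  have hch0 : 0 < ch := by
    rw [hchdef]; exact_mod_cast Nat.choose_pos (by omega)
  set ε := √(v / ch) with hε
  set δ := √(1 / (v * ch)) with hδ
  have hεδ : ε ≤ δ * v := by
    have h1 : δ * v = √(1 / (v * ch)) * √(v ^ 2) := by rw [Real.sqrt_sq hV0.le]
    rw [h1, ← Real.sqrt_mul (by positivity)]
    apply Real.sqrt_le_sqrt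
    apply le_of_eq
    field_simp
  have hgG : ∀ s, |g s| ≤ 1 + r := fun s => by
    rw [abs_of_nonneg (hg0 s)]; exact hg1 s
  have hker : Ker (sig d) (fun x y : Sph d => g ⟪(x : EE d), (y : EE d)⟫) (1 + r) v ε := by
    refine ⟨hgm.comp KP.continuous_inner2.measurable, fun x y => ?_, fun x y => hg0 _,
      fun x y => hg1 _, by linarith, fun x y => hgs _, fun x => ?_, hV0, hV1,
      Real.sqrt_nonneg _, op_bound (by omega) hgm hgG hgI (Real.sqrt_nonneg _) hgj⟩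
    · show g _ = g _
      rw [real_inner_comm]
    · have h1 := KP.int_zonal_den (show 3 ≤ d by omega) x (f := fun s => (g s - 1) ^ 2)
        ((hgm.sub_const 1).pow_const 2)
      show ∫ y : Sph d, (g ⟪(x : EE d), (y : EE d)⟫ - 1) ^ 2 ∂(sig d) ≤ v
      rw [h1]
      exact hgv
  set Z : ℝ := (2 : ℝ) ^ ((0.09 : ℝ) * d / t) with hZ
  have hZ1 : 1 ≤ Z := Real.one_le_rpow (by norm_num) (by positivity)
  set N := Z / v with hN
  have hN0 : 0 < N := by positivity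
  have hNv : N * v = Z := by rw [hN]; field_simp
  have hδ0 : 0 ≤ δ := Real.sqrt_nonneg _
  have hδle : δ ≤ (2 : ℝ) ^ (-(0.096 : ℝ) * d) := by
    rw [hδ, Real.sqrt_le_left (by positivity)]
    rw [← Real.rpow_natCast ((2 : ℝ) ^ (-(0.096 : ℝ) * d)) 2, ← Real.rpow_mul (by norm_num)]
    have e1 : -(0.096 : ℝ) * d * ((2 : ℕ) : ℝ) = -((0.192 : ℝ) * d) := by push_cast; ring
    rw [e1, Real.rpow_neg (by norm_num), one_div]
    exact inv_anti₀ (by positivity) hch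
  have ht0 : (0 : ℝ) < t := by exact_mod_cast ht
  have hZt : Z ^ t = (2 : ℝ) ^ ((0.09 : ℝ) * d) := by
    rw [hZ, ← Real.rpow_natCast, ← Real.rpow_mul (by norm_num)]
    congr 1
    field_simp
  have htt : (1 : ℝ) ≤ (t : ℝ) + 1 := by linarith
  have hG1 : (1 : ℝ) ≤ 1 + r := by linarith
  have hprod : ((t : ℝ) + 1) ^ 2 * 2 ^ t * (1 + r) ^ (t ^ 2) * (N * v) ^ t *
      (δ * 2 ^ t * ((1 + r) ^ t * ((t : ℝ) + 1)) ^ t) ≤ 1 := by
    rw [hNv, hZt]
    have e1 : ((t : ℝ) + 1) ^ 2 * 2 ^ t * (1 + r) ^ (t ^ 2) * (2 : ℝ) ^ ((0.09 : ℝ) * d) *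
        (δ * 2 ^ t * ((1 + r) ^ t * ((t : ℝ) + 1)) ^ t) =
        (((t : ℝ) + 1) ^ (t + 2) * 4 ^ t * (1 + r) ^ (2 * t ^ 2)) *
          ((2 : ℝ) ^ ((0.09 : ℝ) * d) * δ) := by
      have e2 : (4 : ℝ) ^ t = 2 ^ t * 2 ^ t := by rw [← mul_pow]; norm_num
      have e3 : (1 + r) ^ (2 * t ^ 2) = (1 + r) ^ (t ^ 2) * ((1 + r) ^ t) ^ t := by
        rw [← pow_mul, ← pow_add]; congr 1; ring
      rw [e2, e3, mul_pow]
      ring
    rw [e1]
    calc _ ≤ (2 : ℝ) ^ ((0.005 : ℝ) * d) * ((2 : ℝ) ^ ((0.09 : ℝ) * d) *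
          (2 : ℝ) ^ (-(0.096 : ℝ) * d)) := by
          apply mul_le_mul hgrow _ (by positivity) (by positivity)
          exact mul_le_mul_of_nonneg_left hδle (by positivity)
      _ = (2 : ℝ) ^ (-(0.001 : ℝ) * d) := by
          rw [← Real.rpow_add (by norm_num), ← Real.rpow_add (by norm_num)]
          congr 1; ring
      _ ≤ 1 := Real.rpow_le_one_of_one_le_of_nonpos (by norm_num) (by
          have : (0 : ℝ) ≤ d := Nat.cast_nonneg d
          nlinarith)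
  have hprod1 : δ * 2 ^ t * ((1 + r) ^ t * ((t : ℝ) + 1)) ^ t ≤ 1 := by
    refine le_trans ?_ hprod
    apply le_mul_of_one_le_left (by positivity)
    rw [hNv]
    have a1 : (1 : ℝ) ≤ ((t : ℝ) + 1) ^ 2 := one_le_pow₀ htt
    have a2 : (1 : ℝ) ≤ 2 ^ t := one_le_pow₀ (by norm_num)
    have a3 : (1 : ℝ) ≤ (1 + r) ^ (t ^ 2) := one_le_pow₀ hG1
    have a4 : (1 : ℝ) ≤ Z ^ t := one_le_pow₀ hZ1
    exact one_le_mul_of_one_le_of_one_le (one_le_mul_of_one_le_of_one_le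
      (one_le_mul_of_one_le_of_one_le a1 a2) a3) a4
  refine hval.trans ?_
  refine abstract_bound hker (R := fun x y : Sph d => ⟪(x : EE d), (y : EE d)⟫ ≤ 1 / 2)
    (t := t) (K := K) (isClosed_le KP.continuous_inner2 continuous_const)
    (fun x => ?_) (fun x y hxy => ?_) ?_ ht ?_ hN0 ?_ hδ0 hεδ hprod1 hprod
  · rw [KP.inner_self_S]; norm_num
  · by_contra hcon
    push Not at hcon
    exact hxy (hgz _ hcon)
  · refine ⟨fun p q hp hq => ?_, fun S T hS hT => hf.symm S T hS.1 hT.1 hS.2 hT.2,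
      fun n S c hS => hf.psd n S c hS⟩
    exact hf.cont p q hp hq
  · intro S hS hSt hSs
    exact hf.le S hS hSt hSs
  · rw [hNv]; exact hZ1

end Pool.Agent.Helper47.LB
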