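import Pool.Agent.Helper47.LB.N1

/-!
BLOCK LB-C. `NB.tensor`: tensor products with a bounded multiplier between the two factors.

For `u : A × T → ℝ`, `w : B × B' → ℝ` put `W a b = ∫_{b'} w (b, b') * H a b'`. By Fubini the form
is `∫_a [∫_t ∫_b u (a,t) * (m a b * W a b) * S t b]`. For fixed `a` the bracket is at most
`C' √(∫_t u(a,t)²) √(∫_b (m W)²) ≤ C' G' √(∫_t u(a,t)²) √(∫_b W(a,b)²)`; by `cs` in `a` the whole
is at most `C' G' √(∫∫ u²) √(∫_a ∫_b W²)`, and `∫_b ∫_a W(a,b)² ≤ ∫_b C² ∫_{b'} w(b,b')²` by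
`NB.apply_sq` for each fixed `b`.
-/

set_option autoImplicit false

open MeasureTheory Finset

namespace Pool.Agent.Helper47.LB

open Pool.Agent.Helper47.KP (Bd pim)

private lemma Bd.sqrt67 {Y : Type} [MeasurableSpace Y] {f : Y → ℝ} (h : Bd f) :
    Bd (fun y => √(f y)) := by
  obtain ⟨C, hC⟩ := h.bd
  refine ⟨h.meas.sqrt, √C, fun y => ?_⟩
  rw [abs_of_nonneg (Real.sqrt_nonneg _)]
  exact Real.sqrt_le_sqrt ((le_abs_self _).trans (hC y))

private lemma Bd.sq67 {Y : Type} [MeasurableSpace Y] {f : Y → ℝ} (h : Bd f) :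
    Bd (fun y => f y ^ 2) := by
  simp only [sq]
  exact h.mul h

theorem NB.tensor {A T B B' : Type} [MeasurableSpace A] [MeasurableSpace T] [MeasurableSpace B]
    [MeasurableSpace B'] (α : Measure A) (τ : Measure T) (β : Measure B) (ν : Measure B')
    [IsProbabilityMeasure α] [IsProbabilityMeasure τ] [IsProbabilityMeasure β]
    [IsProbabilityMeasure ν] {H : A → B' → ℝ} {S : T → B → ℝ} {m : A → B → ℝ} {C C' G' : ℝ}
    (hH : NB α ν H C) (hS : NB τ β S C') (hC : 0 ≤ C) (hC' : 0 ≤ C')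
    (bH : Bd fun p : A × B' => H p.1 p.2) (bS : Bd fun p : T × B => S p.1 p.2)
    (bm : Bd fun p : A × B => m p.1 p.2) (hG : 0 ≤ G') (hm : ∀ a b, |m a b| ≤ G') :
    NB (α.prod τ) (β.prod ν) (fun p q => m p.1 q.1 * (H p.1 q.2 * S p.2 q.1)) (C * C' * G') := by
  intro u w hu hw
  -- the function `W`
  have hWF : Bd fun q : (A × B) × B' => w (q.1.2, q.2) * H q.1.1 q.2 :=
    (hw.comp (g := fun q : (A × B) × B' => (q.1.2, q.2)) (by fun_prop)).mul
      (bH.comp (g := fun q : (A × B) × B' => (q.1.1, q.2)) (by fun_prop))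
  have hW : Bd fun q : A × B => ∫ b', w (q.2, b') * H q.1 b' ∂ν := Bd.integral hWF ν
  set W : A → B → ℝ := fun a b => ∫ b', w (b, b') * H a b' ∂ν with hWdef
  have hW' : Bd fun q : A × B => W q.1 q.2 := hW
  -- the whole integrand
  have hF : Bd fun q : (A × T) × (B × B') =>
      u q.1 * w q.2 * (m q.1.1 q.2.1 * (H q.1.1 q.2.2 * S q.1.2 q.2.1)) :=
    ((hu.comp (g := fun q : (A × T) × (B × B') => q.1) (by fun_prop)).mul
      (hw.comp (g := fun q : (A × T) × (B × B') => q.2) (by fun_prop))).mul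
      ((bm.comp (g := fun q : (A × T) × (B × B') => (q.1.1, q.2.1)) (by fun_prop)).mul
        ((bH.comp (g := fun q : (A × T) × (B × B') => (q.1.1, q.2.2)) (by fun_prop)).mul
        (bS.comp (g := fun q : (A × T) × (B × B') => (q.1.2, q.2.1)) (by fun_prop))))
  have e1 : ∀ p : A × T, ∫ q : B × B', u p * w q * (m p.1 q.1 * (H p.1 q.2 * S p.2 q.1))
      ∂(β.prod ν) = ∫ b, u p * (m p.1 b * W p.1 b) * S p.2 b ∂β := by
    intro p
    have hb : Bd fun q : B × B' => u p * w q * (m p.1 q.1 * (H p.1 q.2 * S p.2 q.1)) :=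
      hF.comp (g := fun q : B × B' => (p, q)) (by fun_prop)
    rw [integral_prod _ (hb.integrable _)]
    refine integral_congr_ae (Filter.Eventually.of_forall fun b => ?_)
    simp only [hWdef]
    rw [show u p * (m p.1 b * ∫ b', w (b, b') * H p.1 b' ∂ν) * S p.2 b =
      (u p * m p.1 b * S p.2 b) * ∫ b', w (b, b') * H p.1 b' ∂ν by ring, ← integral_const_mul]
    refine integral_congr_ae (Filter.Eventually.of_forall fun b' => ?_)
    simp only
    ring
  have hG3 : Bd fun q : (A × T) × B => u q.1 * (m q.1.1 q.2 * W q.1.1 q.2) * S q.1.2 q.2 :=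
    ((hu.comp (g := fun q : (A × T) × B => q.1) (by fun_prop)).mul
      ((bm.comp (g := fun q : (A × T) × B => (q.1.1, q.2)) (by fun_prop)).mul
        (hW'.comp (g := fun q : (A × T) × B => (q.1.1, q.2)) (by fun_prop)))).mul
        (bS.comp (g := fun q : (A × T) × B => (q.1.2, q.2)) (by fun_prop))
  have hG2 : Bd fun p : A × T => ∫ b, u p * (m p.1 b * W p.1 b) * S p.2 b ∂β :=
    Bd.integral hG3 β
  have e2 : ∫ p : A × T, ∫ q : B × B', u p * w q * (m p.1 q.1 * (H p.1 q.2 * S p.2 q.1))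
      ∂(β.prod ν) ∂(α.prod τ) =
      ∫ a, ∫ t, ∫ b, u (a, t) * (m a b * W a b) * S t b ∂β ∂τ ∂α := by
    simp only [e1]
    exact integral_prod _ (hG2.integrable _)
  rw [e2]
  have hU : Bd fun a => ∫ t, u (a, t) ^ 2 ∂τ := Bd.integral (Bd.sq67 hu) τ
  have hV : Bd fun a => ∫ b, W a b ^ 2 ∂β := Bd.integral (Bd.sq67 hW') β
  have ha := Bd.sqrt67 hU
  have hb := Bd.sqrt67 hV
  have hΦ : ∀ a, |∫ t, ∫ b, u (a, t) * (m a b * W a b) * S t b ∂β ∂τ| ≤
      (C' * G') * (√(∫ t, u (a, t) ^ 2 ∂τ) * √(∫ b, W a b ^ 2 ∂β)) := by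
    intro a
    have hm1 : Bd fun b : B => m a b := bm.comp (g := fun b : B => (a, b)) (by fun_prop)
    have hW1 : Bd fun b : B => W a b := hW'.comp (g := fun b : B => (a, b)) (by fun_prop)
    have h1 := hS (fun t => u (a, t)) (fun b => m a b * W a b)
      (hu.comp (g := fun t : T => (a, t)) (by fun_prop)) (hm1.mul hW1)
    refine h1.trans ?_
    have h2 : ∫ b, (m a b * W a b) ^ 2 ∂β ≤ G' ^ 2 * ∫ b, W a b ^ 2 ∂β := by
      rw [← integral_const_mul]
      refine integral_mono ((Bd.sq67 (hm1.mul hW1)).integrable β)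
        (((Bd.const _).mul (Bd.sq67 hW1)).integrable β) fun b => ?_
      simp only [mul_pow]
      refine mul_le_mul_of_nonneg_right ?_ (sq_nonneg _)
      rw [← sq_abs (m a b)]
      exact pow_le_pow_left₀ (abs_nonneg _) (hm a b) 2
    have h3 : √(∫ b, (m a b * W a b) ^ 2 ∂β) ≤ G' * √(∫ b, W a b ^ 2 ∂β) := by
      refine (Real.sqrt_le_sqrt h2).trans ?_
      rw [Real.sqrt_mul (sq_nonneg _), Real.sqrt_sq hG]
    calc C' * (√(∫ t, u (a, t) ^ 2 ∂τ) * √(∫ b, (m a b * W a b) ^ 2 ∂β))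
        ≤ C' * (√(∫ t, u (a, t) ^ 2 ∂τ) * (G' * √(∫ b, W a b ^ 2 ∂β))) :=
          mul_le_mul_of_nonneg_left (mul_le_mul_of_nonneg_left h3 (Real.sqrt_nonneg _)) hC'
      _ = _ := by ring
  have h1 : |∫ a, ∫ t, ∫ b, u (a, t) * (m a b * W a b) * S t b ∂β ∂τ ∂α| ≤
      ∫ a, (C' * G') * (√(∫ t, u (a, t) ^ 2 ∂τ) * √(∫ b, W a b ^ 2 ∂β)) ∂α := by
    have hi : Integrable (fun a => (C' * G') * (√(∫ t, u (a, t) ^ 2 ∂τ) *
        √(∫ b, W a b ^ 2 ∂β))) α := ((Bd.const (C' * G')).mul (ha.mul hb)).integrable α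
    have := norm_integral_le_of_norm_le (μ := α) hi
      (f := fun a => ∫ t, ∫ b, u (a, t) * (m a b * W a b) * S t b ∂β ∂τ)
      (Filter.Eventually.of_forall fun a => by rw [Real.norm_eq_abs]; exact hΦ a)
    simpa [Real.norm_eq_abs] using this
  refine h1.trans ?_
  rw [integral_const_mul]
  have h2 := (le_abs_self _).trans (cs α ha hb)
  have ea : ∫ a, √(∫ t, u (a, t) ^ 2 ∂τ) ^ 2 ∂α = ∫ p, u p ^ 2 ∂(α.prod τ) := by
    have e3 : ∫ a, √(∫ t, u (a, t) ^ 2 ∂τ) ^ 2 ∂α = ∫ a, ∫ t, u (a, t) ^ 2 ∂τ ∂α := by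
      refine integral_congr_ae (Filter.Eventually.of_forall fun a => ?_)
      exact Real.sq_sqrt (integral_nonneg fun y => sq_nonneg _)
    rw [e3]
    exact (integral_prod _ ((Bd.sq67 hu).integrable _)).symm
  have eb : ∫ a, √(∫ b, W a b ^ 2 ∂β) ^ 2 ∂α ≤ C ^ 2 * ∫ q, w q ^ 2 ∂(β.prod ν) := by
    have e3 : ∫ a, √(∫ b, W a b ^ 2 ∂β) ^ 2 ∂α = ∫ a, ∫ b, W a b ^ 2 ∂β ∂α := by
      refine integral_congr_ae (Filter.Eventually.of_forall fun a => ?_)
      exact Real.sq_sqrt (integral_nonneg fun y => sq_nonneg _)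
    have hsw : Bd fun q : B × A => W q.2 q.1 ^ 2 :=
      (Bd.sq67 hW').comp (g := fun q : B × A => (q.2, q.1)) (by fun_prop)
    have e5 : ∫ q, w q ^ 2 ∂(β.prod ν) = ∫ b, ∫ b', w (b, b') ^ 2 ∂ν ∂β :=
      integral_prod _ ((Bd.sq67 hw).integrable _)
    rw [e3, integral_integral_swap (f := fun a b => W a b ^ 2) ((Bd.sq67 hW').integrable _), e5,
      ← integral_const_mul]
    refine integral_mono ((Bd.integral hsw α).integrable β)
      (((Bd.const _).mul (Bd.integral (Bd.sq67 hw) ν)).integrable β) fun b => ?_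
    exact hH.apply_sq bH hC (w := fun b' => w (b, b'))
      (hw.comp (g := fun b' : B' => (b, b')) (by fun_prop))
  have h4 : √(∫ a, √(∫ b, W a b ^ 2 ∂β) ^ 2 ∂α) ≤ C * √(∫ q, w q ^ 2 ∂(β.prod ν)) := by
    refine (Real.sqrt_le_sqrt eb).trans ?_
    rw [Real.sqrt_mul (sq_nonneg _), Real.sqrt_sq hC]
  rw [ea] at h2
  have hCG : 0 ≤ C' * G' := mul_nonneg hC' hG
  calc (C' * G') * ∫ a, √(∫ t, u (a, t) ^ 2 ∂τ) * √(∫ b, W a b ^ 2 ∂β) ∂α
      ≤ (C' * G') * (√(∫ p, u p ^ 2 ∂(α.prod τ)) * (C * √(∫ q, w q ^ 2 ∂(β.prod ν)))) := by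
        refine mul_le_mul_of_nonneg_left (h2.trans ?_) hCG
        exact mul_le_mul_of_nonneg_left h4 (Real.sqrt_nonneg _)
    _ = _ := by ring

end Pool.Agent.Helper47.LB
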