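import Pool.Agent.Helper47.LB.Star
import Pool.Agent.Helper47.LB.N3
import Pool.Agent.Helper47.LB.Mob

/-!
BLOCK LB-F. The norm of `HH`.

Induction on `q` for all `ι`. `q = 0`: `HH_zero`, `NB.one`, `NB.zero`. Step `q + 1`:
`HH_cons` after `Fin (q + 1) → X = X × (Fin q → X)` (`MeasurableEquiv.piFinSuccAbove _ 0`).
The first term: `NB.fib` with `Y = (ι → X)`, `Z = (Fin q → X)`, `T = X`,
`k a y = ∏ i, g (a i) y - 1`, `κ = p * G^p * √v` where `p = card ι` (`prod_sub_sq`). The term
with the set `A ≠ univ`: `NB.tensor` with `A := ({i // i ∈ A} → X)`, `T := ({i // i ∉ A} → X)`,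
`B := X`, `B' := (Fin q → X)`, `m a y = ∏ g (a i) y ≤ G^p`, `H = HH`, `S = star` (`star_NB` with
`card = (p - 1 - #A) + 1`), transported by `MeasurableEquiv.piEquivPiSubtypeProd`
(`measurePreserving_piEquivPiSubtypeProd`). The norm is at most
`(√v^(#A + q) * MM G δ q #A) * (ε * √v^(p - 1 - #A)) * G^p
  ≤ √v^(p + q + 1) * (G^p * δ * MM G δ q #A)` since `ε ≤ δ * √v * √v`. Finally sum over `A` by
cardinality (`Finset.sum_powerset_apply_card`-type lemma) and put `k = p - 1 - #A`.
-/

set_option autoImplicit false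

open MeasureTheory Finset

namespace Pool.Agent.Helper47.LB

open Pool.Agent.Helper47.KP (Bd pim)

variable {X : Type} [MeasurableSpace X] {σ : Measure X} [IsProbabilityMeasure σ]
  {g : X → X → ℝ} {G v ε : ℝ}

omit [IsProbabilityMeasure σ] in
private lemma Ker.abs_le (K : Ker σ g G v ε) (x y : X) : |g x y| ≤ G := by
  rw [abs_of_nonneg (K.nonneg x y)]
  exact K.le x y

omit [IsProbabilityMeasure σ] in
private lemma Ker.bdg (K : Ker σ g G v ε) : Bd fun p : X × X => g p.1 p.2 :=
  ⟨K.meas, G, fun p => K.abs_le p.1 p.2⟩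

omit [IsProbabilityMeasure σ] in
private lemma Ker.abs_prod_le (K : Ker σ g G v ε) {ι : Type} (s : Finset ι) (a : ι → X) (y : X) :
    |∏ i ∈ s, g (a i) y| ≤ G ^ s.card := by
  rw [Finset.abs_prod]
  calc ∏ i ∈ s, |g (a i) y| ≤ ∏ _i ∈ s, G :=
        Finset.prod_le_prod (fun i _ => abs_nonneg _) fun i _ => K.abs_le _ _
    _ = G ^ s.card := by rw [Finset.prod_const]

omit [IsProbabilityMeasure σ] in
private lemma Ker.abs_prod_sub (K : Ker σ g G v ε) {ι : Type} (s : Finset ι) (a : ι → X)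
    (y : X) : |∏ i ∈ s, g (a i) y - 1| ≤ G ^ s.card * ∑ i ∈ s, |g (a i) y - 1| := by
  classical
  have hG0 : (0 : ℝ) ≤ G := zero_le_one.trans K.one_le
  induction s using Finset.induction_on with
  | empty => simp
  | insert j s hj ih =>
    rw [Finset.prod_insert hj, Finset.sum_insert hj, Finset.card_insert_of_notMem hj]
    have e : g (a j) y * ∏ i ∈ s, g (a i) y - 1 =
        g (a j) y * (∏ i ∈ s, g (a i) y - 1) + (g (a j) y - 1) := by ring
    rw [e]
    refine (abs_add_le _ _).trans ?_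
    rw [abs_mul]
    have h1 : |g (a j) y| * |∏ i ∈ s, g (a i) y - 1| ≤
        G * (G ^ s.card * ∑ i ∈ s, |g (a i) y - 1|) :=
      mul_le_mul (K.abs_le _ _) ih (abs_nonneg _) hG0
    have h2 : |g (a j) y - 1| ≤ G ^ (s.card + 1) * |g (a j) y - 1| :=
      le_mul_of_one_le_left (abs_nonneg _) (one_le_pow₀ K.one_le)
    calc _ ≤ G * (G ^ s.card * ∑ i ∈ s, |g (a i) y - 1|) +
          G ^ (s.card + 1) * |g (a j) y - 1| := add_le_add h1 h2
      _ = _ := by ring

/-- `∏ g_i - 1 = ∑_i (g_i - 1) ∏_{i' < i} g_{i'}` and Cauchy-Schwarz. -/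
theorem prod_sub_sq (K : Ker σ g G v ε) {ι : Type} [Fintype ι] (a : ι → X) :
    ∫ y, (∏ i, g (a i) y - 1) ^ 2 ∂σ ≤
      ((Fintype.card ι : ℝ) * G ^ Fintype.card ι * √v) ^ 2 := by
  have hG0 : (0 : ℝ) ≤ G := zero_le_one.trans K.one_le
  set n := Fintype.card ι with hn
  have hcard : (univ : Finset ι).card = n := Finset.card_univ
  have b1 : ∀ i, Bd fun y => g (a i) y := fun i =>
    K.bdg.comp (g := fun y : X => (a i, y)) (by fun_prop)
  have b2 : ∀ i, Bd fun y => (g (a i) y - 1) ^ 2 := by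
    intro i
    have h := (b1 i).add (Bd.const (-1))
    have h2 := h.mul h
    refine ⟨?_, ?_⟩
    · have := h2.meas
      simpa only [sq, sub_eq_add_neg] using this
    · obtain ⟨C, hC⟩ := h2.bd
      exact ⟨C, fun y => by simpa only [sq, sub_eq_add_neg] using hC y⟩
  have b3 : Bd fun y => (∏ i, g (a i) y - 1) ^ 2 := by
    have h := (Bd.prod univ fun i _ => b1 i).add (Bd.const (-1))
    have h2 := h.mul h
    refine ⟨?_, ?_⟩
    · have := h2.meas
      simpa only [sq, sub_eq_add_neg] using this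
    · obtain ⟨C, hC⟩ := h2.bd
      exact ⟨C, fun y => by simpa only [sq, sub_eq_add_neg] using hC y⟩
  have b4 : Bd fun y => (G ^ n) ^ 2 * ((n : ℝ) * ∑ i, (g (a i) y - 1) ^ 2) :=
    (Bd.const _).mul ((Bd.const _).mul (Bd.sum _ fun i _ => b2 i))
  have hpt : ∀ y, (∏ i, g (a i) y - 1) ^ 2 ≤
      (G ^ n) ^ 2 * ((n : ℝ) * ∑ i, (g (a i) y - 1) ^ 2) := by
    intro y
    have h1 := K.abs_prod_sub univ a y
    rw [hcard] at h1
    have h2 : (∑ i, |g (a i) y - 1|) ^ 2 ≤ (n : ℝ) * ∑ i, (g (a i) y - 1) ^ 2 := by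
      have h3 := sq_sum_le_card_mul_sum_sq (s := (univ : Finset ι))
        (f := fun i => |g (a i) y - 1|)
      rw [hcard] at h3
      simpa only [sq_abs] using h3
    calc (∏ i, g (a i) y - 1) ^ 2 = |∏ i, g (a i) y - 1| ^ 2 := (sq_abs _).symm
      _ ≤ (G ^ n * ∑ i, |g (a i) y - 1|) ^ 2 := pow_le_pow_left₀ (abs_nonneg _) h1 2
      _ = (G ^ n) ^ 2 * (∑ i, |g (a i) y - 1|) ^ 2 := by ring
      _ ≤ _ := mul_le_mul_of_nonneg_left h2 (sq_nonneg _)
  calc ∫ y, (∏ i, g (a i) y - 1) ^ 2 ∂σ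
      ≤ ∫ y, (G ^ n) ^ 2 * ((n : ℝ) * ∑ i, (g (a i) y - 1) ^ 2) ∂σ :=
        integral_mono (b3.integrable σ) (b4.integrable σ) hpt
    _ = (G ^ n) ^ 2 * ((n : ℝ) * ∑ i, ∫ y, (g (a i) y - 1) ^ 2 ∂σ) := by
        rw [integral_const_mul, integral_const_mul,
          integral_finsetSum _ fun i _ => (b2 i).integrable σ]
    _ ≤ (G ^ n) ^ 2 * ((n : ℝ) * ∑ _i : ι, v) := by
        refine mul_le_mul_of_nonneg_left (mul_le_mul_of_nonneg_left ?_ (Nat.cast_nonneg _))
          (sq_nonneg _)
        exact Finset.sum_le_sum fun i _ => K.var (a i)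
    _ = ((n : ℝ) * G ^ n * √v) ^ 2 := by
        rw [Finset.sum_const, hcard, nsmul_eq_mul, mul_pow, mul_pow, Real.sq_sqrt K.v0.le]
        ring

theorem MM_nonneg {δ : ℝ} (hG : 1 ≤ G) (hδ : 0 ≤ δ) (q p : ℕ) : 0 ≤ MM G δ q p := by
  have hG0 : (0 : ℝ) ≤ G := zero_le_one.trans hG
  induction q generalizing p with
  | zero =>
    unfold MM
    split_ifs <;> norm_num
  | succ q ih =>
    unfold MM
    refine add_nonneg (Finset.sum_nonneg fun k _ => ?_) ?_
    · exact mul_nonneg (Nat.cast_nonneg _)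
        (mul_nonneg (mul_nonneg (pow_nonneg hG0 _) hδ) (ih _))
    · exact mul_nonneg (mul_nonneg (Nat.cast_nonneg _) (pow_nonneg hG0 _)) (ih _)

private lemma sum_erase_card (n : ℕ) {ι : Type} [Fintype ι] [DecidableEq ι]
    (hn : Fintype.card ι = n) (f : ℕ → ℝ) :
    ∑ A ∈ univ.erase (univ : Finset ι), f A.card =
      ∑ k ∈ range n, (n.choose (k + 1) : ℝ) * f (n - 1 - k) := by
  have h1 : ∑ A : Finset ι, f A.card = ∑ m ∈ range (n + 1), (n.choose m : ℝ) * f m := by
    have h := Finset.sum_powerset_apply_card f (x := (univ : Finset ι))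
    rw [Finset.powerset_univ, Finset.card_univ, hn] at h
    rw [h]
    exact Finset.sum_congr rfl fun m _ => by rw [nsmul_eq_mul]
  have h2 := Finset.add_sum_erase (univ : Finset (Finset ι)) (fun A => f A.card)
    (Finset.mem_univ (univ : Finset ι))
  rw [Finset.card_univ, hn, h1, Finset.sum_range_succ, Nat.choose_self, Nat.cast_one,
    one_mul] at h2
  have h3 : ∑ A ∈ univ.erase (univ : Finset ι), f A.card =
      ∑ m ∈ range n, (n.choose m : ℝ) * f m := by linarith
  rw [h3, ← Finset.sum_range_reflect]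
  refine Finset.sum_congr rfl fun k hk => ?_
  have hk' := Finset.mem_range.1 hk
  have e : n.choose (n - 1 - k) = n.choose (k + 1) := by
    rw [← Nat.choose_symm (show k + 1 ≤ n by omega)]
    congr 1
    omega
  rw [e]

omit [IsProbabilityMeasure σ] in
private lemma pis_inst (σ : Measure X) (ι : Type) (i1 i2 : Fintype ι) :
    @pis X _ σ ι i1 = @pis X _ σ ι i2 := by
  have h : i1 = i2 := Subsingleton.elim _ _
  subst h
  rfl

theorem HH_NB (K : Ker σ g G v ε) {δ : ℝ} (hδ : 0 ≤ δ) (hε : ε ≤ δ * v) (q : ℕ) (ι : Type)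
    [Fintype ι] : NB (pis σ ι) (pim σ q) (HH g)
      (√v ^ (Fintype.card ι + q) * MM G δ q (Fintype.card ι)) := by
  have hG0 : (0 : ℝ) ≤ G := zero_le_one.trans K.one_le
  have hsv : 0 ≤ √v := Real.sqrt_nonneg v
  have hvv : √v * √v = v := Real.mul_self_sqrt K.v0.le
  have hMM := fun q p => MM_nonneg (G := G) K.one_le hδ q p
  induction q generalizing ι with
  | zero =>
    by_cases hι : Fintype.card ι = 0
    · refine (NB.one.mono (C' := √v ^ (Fintype.card ι + 0) * MM G δ 0 (Fintype.card ι))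
        ?_).congr fun a b => ?_
      · rw [hι]
        simp [MM]
      · rw [HH_zero, if_pos hι]
    · refine (NB.zero.mono (C' := √v ^ (Fintype.card ι + 0) * MM G δ 0 (Fintype.card ι))
        ?_).congr fun a b => ?_
      · exact mul_nonneg (pow_nonneg hsv _) (hMM _ _)
      · rw [HH_zero, if_neg hι]
  | succ q ih =>
    classical
    set n := Fintype.card ι with hn
    have bHH : ∀ (κ : Type) [Fintype κ], Bd fun p : (κ → X) × (Fin q → X) => HH g p.1 p.2 :=
      fun κ _ => Bd_HH K.bdg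
    -- first term
    have bk : Bd fun p : (ι → X) × X => ∏ i, g (p.1 i) p.2 - 1 := by
      have h1 : Bd fun p : (ι → X) × X => ∏ i, g (p.1 i) p.2 :=
        Bd.prod _ fun i _ => K.bdg.comp (g := fun p : (ι → X) × X => (p.1 i, p.2)) (by fun_prop)
      have h2 := h1.add (Bd.const (-1))
      simpa only [sub_eq_add_neg] using h2
    have t1 : NB (pis σ ι) (σ.prod (pim σ q))
        (fun a p => (∏ i, g (a i) p.1 - 1) * HH g a p.2)
        ((√v ^ (n + q) * MM G δ q n) * ((n : ℝ) * G ^ n * √v)) :=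
      NB.fib σ (bHH ι) (ih ι) (mul_nonneg (pow_nonneg hsv _) (hMM _ _)) bk
        (mul_nonneg (mul_nonneg (Nat.cast_nonneg _) (pow_nonneg hG0 _)) hsv)
        (fun y => prod_sub_sq K y)
    -- the other terms
    have t2 : ∀ A ∈ univ.erase (univ : Finset ι), NB (pis σ ι) (σ.prod (pim σ q))
        (fun a p => (∏ i : {i // i ∈ A}, g (a i) p.1) *
          (HH g (fun i : {i // i ∈ A} => a i) p.2 * ∏ i : {i // i ∉ A}, (g (a i) p.1 - 1)))
        (√v ^ (n + (q + 1)) * (G ^ n * δ * MM G δ q A.card)) := by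
      intro A hA
      have hAne : A ≠ univ := (Finset.mem_erase.1 hA).1
      have hAlt : A.card < n := by
        rw [hn, ← Finset.card_univ]
        exact Finset.card_lt_card ((Finset.ssubset_univ_iff).2 hAne)
      have hcA : Fintype.card {i // i ∈ A} = A.card := Fintype.card_coe A
      have hcB : Fintype.card {i // i ∉ A} = (n - 1 - A.card) + 1 := by
        rw [Fintype.card_subtype_compl, ← hn, hcA]
        omega
      have hH := ih {i // i ∈ A}
      rw [hcA] at hH
      have hS := star_NB K (n - 1 - A.card) {i // i ∉ A} hcB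
      have bS : Bd fun p : ({i // i ∉ A} → X) × X => ∏ i, (g (p.1 i) p.2 - 1) := by
        refine Bd.prod _ fun i _ => ?_
        have h2 := (K.bdg.comp (g := fun p : ({i // i ∉ A} → X) × X => (p.1 i, p.2))
          (by fun_prop)).add (Bd.const (-1))
        simpa only [sub_eq_add_neg] using h2
      have bm : Bd fun p : ({i // i ∈ A} → X) × X => ∏ i, g (p.1 i) p.2 :=
        Bd.prod _ fun i _ => K.bdg.comp (g := fun p : ({i // i ∈ A} → X) × X => (p.1 i, p.2))
          (by fun_prop)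
      have hm : ∀ (a : {i // i ∈ A} → X) (b : X), |∏ i, g (a i) b| ≤ G ^ n := by
        intro a b
        refine (K.abs_prod_le univ a b).trans ?_
        refine pow_le_pow_right₀ K.one_le ?_
        rw [Finset.card_univ, hcA]
        exact hAlt.le
      have hT := NB.tensor (pis σ {i // i ∈ A}) (pis σ {i // i ∉ A}) σ (pim σ q) hH hS
        (mul_nonneg (pow_nonneg hsv _) (hMM _ _)) (mul_nonneg K.ε0 (pow_nonneg hsv _))
        (bHH {i // i ∈ A}) bS bm (pow_nonneg hG0 n) hm
      have hE : MeasurePreserving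
          (MeasurableEquiv.piEquivPiSubtypeProd (fun _ : ι => X) (fun i => i ∈ A)) (pis σ ι)
          ((pis σ {i // i ∈ A}).prod (pis σ {i // i ∉ A})) := by
        have hE0 := measurePreserving_piEquivPiSubtypeProd (fun _ : ι => σ) (fun i => i ∈ A)
        rw [pis_inst σ {i // i ∈ A} _ (Subtype.fintype fun i => i ∈ A),
          pis_inst σ {i // i ∉ A} _ (Subtype.fintype fun i => i ∉ A)]
        exact hE0
      have hT2 := NB.equiv (MeasurableEquiv.piEquivPiSubtypeProd (fun _ : ι => X) (fun i => i ∈ A))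
        hE (MeasurableEquiv.refl _) (MeasurePreserving.id _) hT
      refine (hT2.mono ?_).congr fun a p => ?_
      · have e1 : √v ^ (A.card + q) * MM G δ q A.card * (ε * √v ^ (n - 1 - A.card)) * G ^ n =
            (√v ^ (A.card + q) * √v ^ (n - 1 - A.card)) * (G ^ n * MM G δ q A.card) * ε := by
          ring
        have e2 : √v ^ (n + (q + 1)) =
            (√v ^ (A.card + q) * √v ^ (n - 1 - A.card)) * v := by
          rw [show n + (q + 1) = (A.card + q) + (n - 1 - A.card) + 2 by omega, pow_add, pow_add,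
            sq, hvv]
        rw [e1, e2]
        calc (√v ^ (A.card + q) * √v ^ (n - 1 - A.card)) * (G ^ n * MM G δ q A.card) * ε
            ≤ (√v ^ (A.card + q) * √v ^ (n - 1 - A.card)) * (G ^ n * MM G δ q A.card) *
              (δ * v) := by
              refine mul_le_mul_of_nonneg_left hε ?_
              exact mul_nonneg (mul_nonneg (pow_nonneg hsv _) (pow_nonneg hsv _))
                (mul_nonneg (pow_nonneg hG0 _) (hMM _ _))
          _ = _ := by ring
      · rfl
    -- the sum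
    have b1 : Bd fun p : (ι → X) × (X × (Fin q → X)) =>
        (∏ i, g (p.1 i) p.2.1 - 1) * HH g p.1 p.2.2 :=
      (bk.comp (g := fun p : (ι → X) × (X × (Fin q → X)) => (p.1, p.2.1)) (by fun_prop)).mul
        ((bHH ι).comp (g := fun p : (ι → X) × (X × (Fin q → X)) => (p.1, p.2.2)) (by fun_prop))
    have b2 : ∀ A ∈ univ.erase (univ : Finset ι), Bd fun p : (ι → X) × (X × (Fin q → X)) =>
        (∏ i : {i // i ∈ A}, g (p.1 i) p.2.1) *
          (HH g (fun i : {i // i ∈ A} => p.1 i) p.2.2 *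
            ∏ i : {i // i ∉ A}, (g (p.1 i) p.2.1 - 1)) := by
      intro A _
      have h1 : Bd fun p : (ι → X) × (X × (Fin q → X)) => ∏ i : {i // i ∈ A}, g (p.1 i) p.2.1 :=
        Bd.prod _ fun i _ => K.bdg.comp
          (g := fun p : (ι → X) × (X × (Fin q → X)) => (p.1 i, p.2.1)) (by fun_prop)
      have h2 : Bd fun p : (ι → X) × (X × (Fin q → X)) =>
          HH g (fun i : {i // i ∈ A} => p.1 i) p.2.2 :=
        (bHH {i // i ∈ A}).comp (g := fun p : (ι → X) × (X × (Fin q → X)) =>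
          ((fun i : {i // i ∈ A} => p.1 i), p.2.2)) (by fun_prop)
      have h3 : Bd fun p : (ι → X) × (X × (Fin q → X)) =>
          ∏ i : {i // i ∉ A}, (g (p.1 i) p.2.1 - 1) := by
        refine Bd.prod _ fun i _ => ?_
        have h4 := (K.bdg.comp (g := fun p : (ι → X) × (X × (Fin q → X)) => (p.1 i, p.2.1))
          (by fun_prop)).add (Bd.const (-1))
        simpa only [sub_eq_add_neg] using h4
      exact h1.mul (h2.mul h3)
    have t3 := NB.add b1 (Bd.sum _ b2) t1 (NB.sum _ b2 t2)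
    have hE := measurePreserving_piFinSuccAbove (fun _ : Fin (q + 1) => σ) 0
    have t4 := NB.equiv (MeasurableEquiv.refl _) (MeasurePreserving.id _)
      (MeasurableEquiv.piFinSuccAbove (fun _ : Fin (q + 1) => X) 0) hE t3
    refine (t4.mono (le_of_eq ?_)).congr fun a b => ?_
    · rw [← Finset.mul_sum, sum_erase_card n hn.symm (fun m => G ^ n * δ * MM G δ q m)]
      change _ = √v ^ (n + (q + 1)) * (∑ k ∈ range n, (n.choose (k + 1) : ℝ) *
        (G ^ n * δ * MM G δ q (n - 1 - k)) + n * G ^ n * MM G δ q n)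
      rw [show n + (q + 1) = (n + q) + 1 by ring, pow_succ]
      ring
    · have h := HH_cons g a (b 0) (fun j => b j.succ)
      have hb : (Fin.cons (b 0) (fun j => b j.succ) : Fin (q + 1) → X) = b :=
        Fin.cons_self_tail b
      rw [hb] at h
      rw [h]
      rfl

end Pool.Agent.Helper47.LB
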