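import Pool.Agent.Helper47.LB.Final

open scoped RealInnerProductSpace

namespace Pool.Agent.Helper47.LB.LasserreBarrierKeep

/-- The unit sphere of `ℝ^d`. -/
abbrev Sph (d : ℕ) : Type := Metric.sphere (0 : EuclideanSpace ℝ (Fin d)) 1

/-- Finite sets of points of the sphere with pairwise inner products at most `1/2` (the
independent sets of the packing graph of the kissing problem). -/
def Separated {d : ℕ} (S : Finset (Sph d)) : Prop :=
  ∀ x ∈ S, ∀ y ∈ S, x ≠ y → ⟪(x : EuclideanSpace ℝ (Fin d)), y⟫ ≤ 1 / 2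

open Classical in
/-- The operator `A_t` of the Lasserre hierarchy: `A_t K (S)` is the sum of `K(J, J')` over all
pairs `J, J' ⊆ S` with at most `t` elements each and `J ∪ J' = S`. -/
noncomputable def opA {d : ℕ} (t : ℕ) (K : Finset (Sph d) → Finset (Sph d) → ℝ)
    (S : Finset (Sph d)) : ℝ :=
  ∑ J ∈ S.powerset, ∑ J' ∈ S.powerset,
    if J ∪ J' = S ∧ J.card ≤ t ∧ J'.card ≤ t then K J J' else 0

open Classical in
/-- Feasible solutions `K` of the level `t` of the Lasserre hierarchy (in the form of de Laat and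
Vallentin, dual side) for the kissing number in dimension `d`: `K(J, J')` is a symmetric positive
semidefinite kernel on the separated sets with at most `t` elements, it is a continuous
function of the points of `J` and of `J'`, and `A_t K (S) ≤ -1` for `#S = 1`, `A_t K (S) ≤ 0` for
`2 ≤ #S ≤ 2 t`, for all separated sets `S`. -/
structure IsFeasible (d t : ℕ) (K : Finset (Sph d) → Finset (Sph d) → ℝ) : Prop where
  continuous : ∀ p q, p ≤ t → q ≤ t → ContinuousOn
    (fun w : (Fin p → Sph d) × (Fin q → Sph d) =>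
      K (Finset.univ.image w.1) (Finset.univ.image w.2))
    {w | (∀ a b, a ≠ b → ⟪(w.1 a : EuclideanSpace ℝ (Fin d)), w.1 b⟫ ≤ 1 / 2) ∧
      ∀ a b, a ≠ b → ⟪(w.2 a : EuclideanSpace ℝ (Fin d)), w.2 b⟫ ≤ 1 / 2}
  symm : ∀ S T, S.card ≤ t → T.card ≤ t → Separated S → Separated T → K S T = K T S
  psd : ∀ (n : ℕ) (S : Fin n → Finset (Sph d)) (c : Fin n → ℝ),
    (∀ i, (S i).card ≤ t ∧ Separated (S i)) → 0 ≤ ∑ i, ∑ j, c i * c j * K (S i) (S j)
  le : ∀ S : Finset (Sph d), S.Nonempty → S.card ≤ 2 * t → Separated S →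
    opA t K S ≤ if S.card = 1 then -1 else 0

/-- The bound for the kissing number that a feasible solution proves: `K(∅, ∅)`. -/
def value {d : ℕ} (K : Finset (Sph d) → Finset (Sph d) → ℝ) : ℝ := K ∅ ∅

lemma IsFeasible.toHelper {d t : ℕ} {K : Finset (Sph d) → Finset (Sph d) → ℝ}
    (hf : IsFeasible d t K) : Pool.Agent.Helper47.LB.LFeas d t K where
  cont := fun p q hp hq => hf.continuous p q hp hq
  symm := hf.symm
  psd := hf.psd
  le := fun S h1 h2 h3 => hf.le S h1 h2 h3

/-- Every feasible solution bounds the number of points of every kissing configuration (known;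
not part of `result`, only a check of the definitions). -/
theorem sound {d t : ℕ} (ht : 1 ≤ t) {K : Finset (Sph d) → Finset (Sph d) → ℝ}
    (hf : IsFeasible d t K) {I : Finset (Sph d)} (hI : Separated I) :
    (I.card : ℝ) ≤ value K :=
  Pool.Agent.Helper47.LB.feasible_bound ht hf.toHelper hI

/-- There is `d₀` such that for all dimensions `d ≥ d₀` and all levels `1 ≤ t ≤ d / (400 log d)`
every feasible solution of the level `t` of the Lasserre hierarchy for the kissing number in
dimension `d` has value at least `(2/√3)^d * 2^(0.08 d / t)`. -/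
theorem result : ∃ d₀ : ℕ, ∀ d : ℕ, d₀ ≤ d → ∀ t : ℕ, 1 ≤ t →
    (t : ℝ) ≤ d / (400 * Real.log d) → ∀ K : Finset (Sph d) → Finset (Sph d) → ℝ,
      IsFeasible d t K → (2 / √3) ^ d * (2 : ℝ) ^ ((0.08 : ℝ) * d / t) ≤ value K := by
  obtain ⟨d₀, h⟩ := Pool.Agent.Helper47.LB.lasserre_barrier
  exact ⟨d₀, fun d hd t ht htd K hf => h d hd t ht htd K hf.toHelper⟩

end Pool.Agent.Helper47.LB.LasserreBarrierKeep
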