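import Pool.Agent.Helper47.LB.Alg
import Pool.Agent.Helper47.LB.Split

/-!
BLOCK LB-J. The one sided expansion.

`∏ i, (1 + k (a i)) = ∑ A : Finset (Fin p), ∏ i ∈ A, k (a i)` (`Finset.prod_one_add`, or
`Finset.prod_add`). For each `A` with the equivalence `e` of `exists_split`,
`∫ ph z a * ∏ i ∈ A, k (a i) = ∫ a₁, ∫ a₀, ph z (Sum.elim a₁ a₀) * ∏ i, k (a₁ i)` by `int_equiv`
and `ph_equiv` (the tuple `a` is `Sum.elim a₁ a₀ ∘ e.symm`), and by `ph_elim` this is
`f #A (p - #A)` with `f r q = ∫ a₁ : Fin r → X, cr z a₁ * sf a₁ * (∏ k (a₁ i)) *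
∫ a₀ : Fin q → X, ph (Sum.elim z a₁) a₀`. Now `sum_split` with `M = t`; the terms with
`r + q > t` are zero in any case (`ph` vanishes), so the condition `r + q ≤ t` can be dropped, and
the sum over `q` is `XX σ t N g F (Sum.elim z a₁)`.
-/

set_option autoImplicit false

open MeasureTheory Finset

namespace Pool.Agent.Helper47.LB

open Pool.Agent.Helper47.KP (Bd pim)

variable {X : Type} [MeasurableSpace X] [DecidableEq X] {σ : Measure X} [IsProbabilityMeasure σ]
  {g : X → X → ℝ} {G v ε : ℝ}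

namespace LemU

/-- the integrand after the splitting -/
noncomputable def Psi (t : ℕ) (g : X → X → ℝ) (F : Finset X → ℝ) {ι : Type} [Fintype ι]
    (z : ι → X) (k : X → ℝ) (r q : ℕ) (y : Fin r → X) (b : Fin q → X) : ℝ :=
  cr g z y * sf g y * ph t g F (Sum.elim z y) b * ∏ i, k (y i)

/-- the integral after the splitting -/
noncomputable def ff (σ : Measure X) (t : ℕ) (g : X → X → ℝ) (F : Finset X → ℝ) {ι : Type}
    [Fintype ι] (z : ι → X) (k : X → ℝ) (r q : ℕ) : ℝ :=
  ∫ y : Fin r → X, ∫ b : Fin q → X, Psi t g F z k r q y b ∂(pis σ (Fin q)) ∂(pis σ (Fin r))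

omit [DecidableEq X] in
theorem meas_elim {ι κ : Type} [Fintype ι] [Fintype κ] (z : ι → X) :
    Measurable fun y : κ → X => (Sum.elim z y : ι ⊕ κ → X) := by
  rw [measurable_pi_iff]
  intro i
  rcases i with i | i
  · exact measurable_const
  · exact measurable_pi_apply i

omit [DecidableEq X] in
theorem Bd_prod {k : X → ℝ} (hk : Bd k) {κ : Type} [Fintype κ] :
    Bd fun y : κ → X => ∏ i, k (y i) :=
  Bd.prod _ fun i _ => hk.comp (g := fun y : κ → X => y i) (measurable_pi_apply i)

theorem Bd_Psi (hg : Bd fun p : X × X => g p.1 p.2) (t : ℕ) {F : Finset X → ℝ} (hF : FB F)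
    {ι : Type} [Fintype ι] (z : ι → X) {k : X → ℝ} (hk : Bd k) (r q : ℕ) :
    Bd fun p : (Fin r → X) × (Fin q → X) => Psi t g F z k r q p.1 p.2 := by
  have h1 : Bd fun y : Fin r → X => cr g z y :=
    (Bd_cr (ι := ι) (κ := Fin r) hg).comp (g := fun y : Fin r → X => (z, y))
      (measurable_const.prodMk measurable_id)
  have h2 : Bd fun y : Fin r → X => sf g y := Bd_sf hg
  have h3 : Bd fun p : (Fin r → X) × (Fin q → X) => ph t g F (Sum.elim z p.1) p.2 :=
    (Bd_ph (ι := ι ⊕ Fin r) (κ := Fin q) t hg hF).comp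
      (g := fun p : (Fin r → X) × (Fin q → X) => ((Sum.elim z p.1 : ι ⊕ Fin r → X), p.2))
      (((meas_elim z).comp measurable_fst).prodMk measurable_snd)
  have h4 : Bd fun y : Fin r → X => ∏ i, k (y i) := Bd_prod hk
  exact (((h1.comp measurable_fst).mul (h2.comp measurable_fst)).mul h3).mul
    (h4.comp measurable_fst)

/-- the term of one set `A` -/
theorem term (hg : Bd fun p : X × X => g p.1 p.2) (hs : ∀ x y, g x y = g y x)
    (h0 : ∀ x y, 0 ≤ g x y) (t : ℕ) {F : Finset X → ℝ} (hF : FB F) {ι : Type}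
    [Fintype ι] (z : ι → X) {k : X → ℝ} (hk : Bd k) {p : ℕ} (A : Finset (Fin p)) :
    ∫ a : Fin p → X, ph t g F z a * ∏ i ∈ A, k (a i) ∂(pim σ p) =
      ff σ t g F z k A.card (p - A.card) := by
  obtain ⟨e, he, -⟩ := exists_split A
  have h1 := int_equiv σ e (Bd_Psi hg t hF z hk A.card (p - A.card))
  unfold ff
  rw [← h1]
  refine integral_congr_ae (Filter.Eventually.of_forall fun x => ?_)
  show ph t g F z x * ∏ i ∈ A, k (x i) = _
  have h2 : ph t g F z x = ph t g F z (fun i => x (e i)) :=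
    (ph_equiv t (Equiv.refl ι) e z x).symm
  have h3 : (fun i => x (e i)) = Sum.elim (fun i => x (e (Sum.inl i))) (fun j => x (e (Sum.inr j))) := by
    funext i
    rcases i with i | i <;> rfl
  have h4 : ∏ i ∈ A, k (x i) = ∏ i, k (x (e (Sum.inl i))) := by
    conv_lhs => rw [← he]
    rw [prod_image]
    intro i _ j _ hij
    exact Sum.inl_injective (e.injective hij)
  rw [h2, h3, ph_elim t hs h0, h4]
  rfl

theorem ff_zero (σ : Measure X) (t : ℕ) (g : X → X → ℝ) (F : Finset X → ℝ) {ι : Type}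
    [Fintype ι] (z : ι → X) (k : X → ℝ) (r q : ℕ) (h : ¬ r + q ≤ t) :
    ff σ t g F z k r q = 0 := by
  have h1 : ∀ (y : Fin r → X) (b : Fin q → X), Psi t g F z k r q y b = 0 := by
    intro y b
    unfold Psi ph
    rw [if_neg]
    · ring
    · simp only [Fintype.card_sum, Fintype.card_fin]
      omega
  unfold ff
  simp only [h1, integral_zero]

end LemU

open LemU in
theorem lemU (K : Ker σ g G v ε) (t : ℕ) (N : ℝ) {F : Finset X → ℝ} (hF : FB F) {ι : Type}
    [Fintype ι] (z : ι → X) {k : X → ℝ} (hk : Bd k) :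
    ∑ p ∈ range (t + 1), N ^ p / (p.factorial : ℝ) *
      ∫ a : Fin p → X, ph t g F z a * ∏ i, (1 + k (a i)) ∂(pim σ p) =
    ∑ p ∈ range (t + 1), N ^ p / (p.factorial : ℝ) *
      ∫ a : Fin p → X, Ph σ t N g F z a * ∏ i, k (a i) ∂(pim σ p) := by
  have hg : Bd fun p : X × X => g p.1 p.2 := K.bd
  have hph : ∀ p : ℕ, Bd fun a : Fin p → X => ph t g F z a := fun p =>
    (Bd_ph (ι := ι) (κ := Fin p) t hg hF).comp (g := fun a : Fin p → X => (z, a))
      (measurable_const.prodMk measurable_id)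
  have hL : ∀ p : ℕ, ∫ a : Fin p → X, ph t g F z a * ∏ i, (1 + k (a i)) ∂(pim σ p) =
      ∑ A : Finset (Fin p), ff σ t g F z k A.card (p - A.card) := by
    intro p
    have h1 : (fun a : Fin p → X => ph t g F z a * ∏ i, (1 + k (a i))) =
        fun a : Fin p → X => ∑ A : Finset (Fin p), ph t g F z a * ∏ i ∈ A, k (a i) := by
      funext a
      rw [← mul_sum, Finset.prod_one_add]
      simp
    rw [h1, integral_finsetSum]
    · exact sum_congr rfl fun A _ => term hg K.symm K.nonneg t hF z hk A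
    · intro A _
      exact ((hph p).mul (Bd.prod _ fun i _ =>
        hk.comp (g := fun y : Fin p → X => y i) (measurable_pi_apply i))).integrable _
  have hR : ∀ p : ℕ, ∫ a : Fin p → X, Ph σ t N g F z a * ∏ i, k (a i) ∂(pim σ p) =
      ∑ q ∈ range (t + 1), N ^ q / (q.factorial : ℝ) * ff σ t g F z k p q := by
    intro p
    have h1 : (fun a : Fin p → X => Ph σ t N g F z a * ∏ i, k (a i)) =
        fun a : Fin p → X => ∑ q ∈ range (t + 1), N ^ q / (q.factorial : ℝ) *
          ∫ b : Fin q → X, Psi t g F z k p q a b ∂(pis σ (Fin q)) := by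
      funext a
      unfold Ph XX
      rw [mul_sum, sum_mul]
      refine sum_congr rfl fun q _ => ?_
      have h2 : ∫ b : Fin q → X, Psi t g F z k p q a b ∂(pis σ (Fin q)) =
          (cr g z a * sf g a * ∏ i, k (a i)) *
            ∫ b : Fin q → X, ph t g F (Sum.elim z a) b ∂(pim σ q) := by
        rw [← integral_const_mul]
        refine integral_congr_ae (Filter.Eventually.of_forall fun b => ?_)
        simp only [Psi]
        ring
      rw [h2]
      ring
    rw [h1, integral_finsetSum]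
    · refine sum_congr rfl fun q _ => ?_
      rw [integral_const_mul]
      rfl
    · intro q _
      exact (((Bd.const (N ^ q / (q.factorial : ℝ))).mul
        ((Bd_Psi hg t hF z hk p q).integral (pis σ (Fin q)))).integrable _)
  simp only [hL, hR]
  rw [sum_split]
  refine sum_congr rfl fun r _ => ?_
  rw [mul_sum]
  refine sum_congr rfl fun q _ => ?_
  split_ifs with h
  · ring
  · rw [ff_zero σ t g F z k r q h]
    ring

end Pool.Agent.Helper47.LB
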