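import Pool.Agent.Helper47.LB.Basic

/-!
BLOCK LB-A. Elementary properties of the norm bound `NB`.

* `cs`: Cauchy-Schwarz for bounded measurable functions (for instance from
  `0 ≤ ∫ (s f - r g)²` with `r² = ∫ f²`, `s² = ∫ g²`, or from
  `MeasureTheory.integral_mul_le_Lp_mul_Lq_of_nonneg`; note the case `∫ f² = 0`).
* `NB.apply_sq`: with `W y = ∫ w z * H y z`, `∫ W² = ∫∫ W y * w z * H y z ≤ C √(∫W²) √(∫w²)`,
  divide by `√(∫ W²)`.
* `NB.equiv`: change of variables (`MeasurePreserving.integral_comp'`).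
-/

set_option autoImplicit false

open MeasureTheory Finset

namespace Pool.Agent.Helper47.LB

open Pool.Agent.Helper47.KP (Bd pim)

variable {Y Z : Type} [MeasurableSpace Y] [MeasurableSpace Z]

theorem Bd_sq_h22 {f : Y → ℝ} (hf : Bd f) : Bd fun y => f y ^ 2 := by
  simpa only [pow_two] using hf.mul hf

/-- Cauchy-Schwarz without square roots -/
theorem cs_sq (μ : Measure Y) [IsProbabilityMeasure μ] {f g : Y → ℝ} (hf : Bd f) (hg : Bd g) :
    (∫ y, f y * g y ∂μ) ^ 2 ≤ (∫ y, f y ^ 2 ∂μ) * ∫ y, g y ^ 2 ∂μ := by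
  have h : ∀ x : ℝ, 0 ≤ (∫ y, g y ^ 2 ∂μ) * (x * x) + (2 * ∫ y, f y * g y ∂μ) * x +
      ∫ y, f y ^ 2 ∂μ := by
    intro x
    have h1 : 0 ≤ ∫ y, (f y + x * g y) ^ 2 ∂μ := integral_nonneg fun y => sq_nonneg _
    have h2 : ∫ y, (f y + x * g y) ^ 2 ∂μ = (∫ y, f y ^ 2 ∂μ) + ((2 * x) * (∫ y, f y * g y ∂μ) +
        x ^ 2 * ∫ y, g y ^ 2 ∂μ) := by
      rw [← integral_const_mul, ← integral_const_mul, ← integral_add, ← integral_add]
      · congr 1; funext y; ring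
      · exact (Bd_sq_h22 hf).integrable μ
      · exact (((Bd.const (2 * x)).mul (hf.mul hg)).add
          ((Bd.const (x ^ 2)).mul (Bd_sq_h22 hg))).integrable μ
      · exact ((Bd.const (2 * x)).mul (hf.mul hg)).integrable μ
      · exact ((Bd.const (x ^ 2)).mul (Bd_sq_h22 hg)).integrable μ
    rw [h2] at h1
    linarith
  have h3 := discrim_le_zero h
  unfold discrim at h3
  nlinarith

theorem cs (μ : Measure Y) [IsProbabilityMeasure μ] {f g : Y → ℝ} (hf : Bd f) (hg : Bd g) :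
    |∫ y, f y * g y ∂μ| ≤ √(∫ y, f y ^ 2 ∂μ) * √(∫ y, g y ^ 2 ∂μ) := by
  rw [← Real.sqrt_mul (integral_nonneg fun y => sq_nonneg _), ← Real.sqrt_sq_eq_abs]
  exact Real.sqrt_le_sqrt (cs_sq μ hf hg)

variable {μ : Measure Y} {ν : Measure Z} {H H' : Y → Z → ℝ} {C C' : ℝ}

theorem NB.mono (h : NB μ ν H C) (hC : C ≤ C') : NB μ ν H C' := by
  intro u w hu hw
  exact (h u w hu hw).trans (mul_le_mul_of_nonneg_right hC
    (mul_nonneg (Real.sqrt_nonneg _) (Real.sqrt_nonneg _)))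

theorem NB.congr (h : NB μ ν H C) (hH : ∀ y z, H' y z = H y z) : NB μ ν H' C := by
  intro u w hu hw
  simp only [hH]
  exact h u w hu hw

theorem NB.zero : NB μ ν (fun _ _ => 0) 0 := by
  intro u w _ _
  simp

theorem NB.one [IsProbabilityMeasure μ] [IsProbabilityMeasure ν] : NB μ ν (fun _ _ => 1) 1 := by
  intro u w hu hw
  have e : ∫ y, ∫ z, u y * w z * 1 ∂ν ∂μ = (∫ y, u y * 1 ∂μ) * ∫ z, w z * 1 ∂ν := by
    simp only [mul_one]
    rw [← integral_mul_const]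
    congr 1; funext y
    rw [integral_const_mul]
  rw [e, abs_mul, one_mul]
  have h1 := cs μ hu (Bd.const 1)
  have h2 := cs ν hw (Bd.const 1)
  have e1 : √(∫ _ : Y, (1 : ℝ) ^ 2 ∂μ) = 1 := by simp
  have e2 : √(∫ _ : Z, (1 : ℝ) ^ 2 ∂ν) = 1 := by simp
  rw [e1, mul_one] at h1
  rw [e2, mul_one] at h2
  exact mul_le_mul h1 h2 (abs_nonneg _) (Real.sqrt_nonneg _)

theorem Bd_uw_h22 {H : Y → Z → ℝ} (hH : Bd fun p : Y × Z => H p.1 p.2) {u : Y → ℝ} {w : Z → ℝ}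
    (hu : Bd u) (hw : Bd w) : Bd fun p : Y × Z => u p.1 * w p.2 * H p.1 p.2 :=
  ((hu.comp measurable_fst).mul (hw.comp measurable_snd)).mul hH

theorem Bd_slice_h22 {F : Y × Z → ℝ} (hF : Bd F) (y : Y) : Bd fun z => F (y, z) :=
  hF.comp (g := fun z => (y, z)) measurable_prodMk_left

theorem ii_add_h22 [IsProbabilityMeasure μ] [IsProbabilityMeasure ν] {F G : Y × Z → ℝ}
    (hF : Bd F) (hG : Bd G) :
    ∫ y, ∫ z, (F (y, z) + G (y, z)) ∂ν ∂μ =
      (∫ y, ∫ z, F (y, z) ∂ν ∂μ) + ∫ y, ∫ z, G (y, z) ∂ν ∂μ := by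
  rw [← integral_add ((hF.integral ν).integrable μ) ((hG.integral ν).integrable μ)]
  congr 1; funext y
  exact integral_add ((Bd_slice_h22 hF y).integrable ν) ((Bd_slice_h22 hG y).integrable ν)

theorem NB.add [IsProbabilityMeasure μ] [IsProbabilityMeasure ν]
    (hH : Bd fun p : Y × Z => H p.1 p.2) (hH' : Bd fun p : Y × Z => H' p.1 p.2)
    (h : NB μ ν H C) (h' : NB μ ν H' C') : NB μ ν (fun y z => H y z + H' y z) (C + C') := by
  intro u w hu hw
  have e : ∫ y, ∫ z, u y * w z * (H y z + H' y z) ∂ν ∂μ =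
      (∫ y, ∫ z, u y * w z * H y z ∂ν ∂μ) + ∫ y, ∫ z, u y * w z * H' y z ∂ν ∂μ := by
    rw [← ii_add_h22 (F := fun p : Y × Z => u p.1 * w p.2 * H p.1 p.2)
      (G := fun p : Y × Z => u p.1 * w p.2 * H' p.1 p.2) (Bd_uw_h22 hH hu hw)
      (Bd_uw_h22 hH' hu hw)]
    simp only [mul_add]
  rw [e, add_mul]
  exact (abs_add_le _ _).trans (add_le_add (h u w hu hw) (h' u w hu hw))

theorem NB.sum [IsProbabilityMeasure μ] [IsProbabilityMeasure ν] {ι : Type} (s : Finset ι)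
    {H : ι → Y → Z → ℝ} {C : ι → ℝ} (hH : ∀ i ∈ s, Bd fun p : Y × Z => H i p.1 p.2)
    (h : ∀ i ∈ s, NB μ ν (H i) (C i)) :
    NB μ ν (fun y z => ∑ i ∈ s, H i y z) (∑ i ∈ s, C i) := by
  classical
  induction s using Finset.induction_on with
  | empty => simpa using (NB.zero : NB μ ν (fun _ _ => 0) 0)
  | insert i s hi ih =>
    simp only [Finset.sum_insert hi]
    exact NB.add (hH i (Finset.mem_insert_self _ _))
      (Bd.sum s fun j hj => hH j (Finset.mem_insert_of_mem hj))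
      (h i (Finset.mem_insert_self _ _))
      (ih (fun j hj => hH j (Finset.mem_insert_of_mem hj))
        fun j hj => h j (Finset.mem_insert_of_mem hj))

theorem NB.swap [IsProbabilityMeasure μ] [IsProbabilityMeasure ν]
    (hH : Bd fun p : Y × Z => H p.1 p.2) (h : NB μ ν H C) : NB ν μ (fun z y => H y z) C := by
  intro u w hu hw
  have e : ∫ z, ∫ y, u z * w y * H y z ∂μ ∂ν = ∫ y, ∫ z, w y * u z * H y z ∂ν ∂μ := by
    rw [integral_integral_swap (f := fun y z => w y * u z * H y z)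
      ((Bd_uw_h22 hH hw hu).integrable (μ.prod ν))]
    congr 1; funext z
    congr 1; funext y
    ring
  rw [e]
  refine (h w u hw hu).trans (le_of_eq ?_)
  ring

theorem NB.equiv {Y' Z' : Type} [MeasurableSpace Y'] [MeasurableSpace Z'] {μ' : Measure Y'}
    {ν' : Measure Z'} (e : Y' ≃ᵐ Y) (he : MeasurePreserving e μ' μ) (f : Z' ≃ᵐ Z)
    (hf : MeasurePreserving f ν' ν) (h : NB μ ν H C) :
    NB μ' ν' (fun y z => H (e y) (f z)) C := by
  intro u w hu hw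
  have h1 := h (fun y => u (e.symm y)) (fun z => w (f.symm z)) (hu.comp e.symm.measurable)
    (hw.comp f.symm.measurable)
  have e1 : ∫ y, ∫ z, u y * w z * H (e y) (f z) ∂ν' ∂μ' =
      ∫ y, ∫ z, u (e.symm y) * w (f.symm z) * H y z ∂ν ∂μ := by
    rw [← he.integral_comp' (fun y => ∫ z, u (e.symm y) * w (f.symm z) * H y z ∂ν)]
    congr 1; funext y
    rw [← hf.integral_comp' (fun z => u (e.symm (e y)) * w (f.symm z) * H (e y) z)]
    simp only [MeasurableEquiv.symm_apply_apply]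
  have e2 : ∫ y, u (e.symm y) ^ 2 ∂μ = ∫ y, u y ^ 2 ∂μ' := by
    rw [← he.integral_comp' (fun y => u (e.symm y) ^ 2)]
    simp only [MeasurableEquiv.symm_apply_apply]
  have e3 : ∫ z, w (f.symm z) ^ 2 ∂ν = ∫ z, w z ^ 2 ∂ν' := by
    rw [← hf.integral_comp' (fun z => w (f.symm z) ^ 2)]
    simp only [MeasurableEquiv.symm_apply_apply]
  rw [e2, e3, ← e1] at h1
  exact h1

theorem NB.apply_sq [IsProbabilityMeasure μ] [IsProbabilityMeasure ν]
    (hH : Bd fun p : Y × Z => H p.1 p.2) (h : NB μ ν H C) (hC : 0 ≤ C) {w : Z → ℝ} (hw : Bd w) :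
    ∫ y, (∫ z, w z * H y z ∂ν) ^ 2 ∂μ ≤ C ^ 2 * ∫ z, w z ^ 2 ∂ν := by
  have hW : Bd fun y => ∫ z, w z * H y z ∂ν :=
    Bd.integral (F := fun p : Y × Z => w p.2 * H p.1 p.2) ((hw.comp measurable_snd).mul hH) ν
  have h1 := h (fun y => ∫ z, w z * H y z ∂ν) w hW hw
  have e : ∫ y, ∫ z, (∫ z, w z * H y z ∂ν) * w z * H y z ∂ν ∂μ =
      ∫ y, (∫ z, w z * H y z ∂ν) ^ 2 ∂μ := by
    congr 1; funext y
    rw [pow_two, ← integral_const_mul]
    congr 1; funext z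
    ring
  rw [e] at h1
  have hA : 0 ≤ ∫ y, (∫ z, w z * H y z ∂ν) ^ 2 ∂μ := integral_nonneg fun y => sq_nonneg _
  have hB : 0 ≤ ∫ z, w z ^ 2 ∂ν := integral_nonneg fun y => sq_nonneg _
  rw [abs_of_nonneg hA] at h1
  set A := ∫ y, (∫ z, w z * H y z ∂ν) ^ 2 ∂μ
  set B := ∫ z, w z ^ 2 ∂ν
  have hsA := Real.sq_sqrt hA
  have hsB := Real.sq_sqrt hB
  have nA := Real.sqrt_nonneg A
  have nB := Real.sqrt_nonneg B
  rcases nA.eq_or_lt with h0 | h0
  · rw [← hsA, ← h0]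
    have := mul_nonneg (sq_nonneg C) hB
    simpa using this
  · have h2 : √A ≤ C * √B := by
      have h3 : √A * √A ≤ √A * (C * √B) := by nlinarith
      exact le_of_mul_le_mul_left h3 h0
    calc A = √A ^ 2 := hsA.symm
      _ ≤ (C * √B) ^ 2 := pow_le_pow_left₀ nA h2 2
      _ = C ^ 2 * B := by rw [mul_pow, hsB]

end Pool.Agent.Helper47.LB
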