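import Pool.Agent.Helper47.LB.N1

/-!
BLOCK LB-B. `NB.fib`: adding a vertex.

For `u : Y → ℝ`, `w : T × Z → ℝ`: by Fubini the form is
`∫_t [∫_y ∫_z (u y * k y t) * w (t, z) * H y z]`. For fixed `t` the bracket is at most
`C √(∫ (u y * k y t)² dy) √(∫ w (t,z)² dz)` in absolute value, and by Cauchy-Schwarz (`cs`) in `t`
the whole is at most `C √(∫_t ∫_y u² k²) √(∫_t ∫_z w²)`, where
`∫_t ∫_y u(y)² k(y,t)² = ∫_y u(y)² ∫_t k² ≤ κ² ∫ u²`.
All functions are bounded and measurable (`Bd`), so integrability is `Bd.integrable`, measurability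
of the inner integrals is `Bd.integral`.
-/

set_option autoImplicit false

open MeasureTheory Finset

namespace Pool.Agent.Helper47.LB

open Pool.Agent.Helper47.KP (Bd pim)

private lemma Bd.sqrt' {Y : Type} [MeasurableSpace Y] {f : Y → ℝ} (h : Bd f) :
    Bd (fun y => √(f y)) := by
  obtain ⟨C, hC⟩ := h.bd
  refine ⟨h.meas.sqrt, √C, fun y => ?_⟩
  rw [abs_of_nonneg (Real.sqrt_nonneg _)]
  exact Real.sqrt_le_sqrt ((le_abs_self _).trans (hC y))

private lemma Bd.sq' {Y : Type} [MeasurableSpace Y] {f : Y → ℝ} (h : Bd f) :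
    Bd (fun y => f y ^ 2) := by
  simp only [sq]
  exact h.mul h

theorem NB.fib {Y Z T : Type} [MeasurableSpace Y] [MeasurableSpace Z] [MeasurableSpace T]
    {μ : Measure Y} {ν : Measure Z} (τ : Measure T) [IsProbabilityMeasure μ]
    [IsProbabilityMeasure ν] [IsProbabilityMeasure τ] {H : Y → Z → ℝ} {C : ℝ}
    (hH : Bd fun p : Y × Z => H p.1 p.2) (h : NB μ ν H C) (hC : 0 ≤ C) {k : Y → T → ℝ}
    (hk : Bd fun p : Y × T => k p.1 p.2) {κ : ℝ} (hκ : 0 ≤ κ)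
    (hk2 : ∀ y, ∫ t, k y t ^ 2 ∂τ ≤ κ ^ 2) :
    NB μ (τ.prod ν) (fun y p => k y p.1 * H y p.2) (C * κ) := by
  intro u w hu hw
  -- the integrand on `Y × (T × Z)`
  have hF : Bd fun q : (Y × T) × Z => u q.1.1 * w (q.1.2, q.2) * (k q.1.1 q.1.2 * H q.1.1 q.2) :=
    ((hu.comp (g := fun q : (Y × T) × Z => q.1.1) (by fun_prop)).mul
      (hw.comp (g := fun q : (Y × T) × Z => (q.1.2, q.2)) (by fun_prop))).mul
      ((hk.comp (g := fun q : (Y × T) × Z => (q.1.1, q.1.2)) (by fun_prop)).mul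
        (hH.comp (g := fun q : (Y × T) × Z => (q.1.1, q.2)) (by fun_prop)))
  -- inner integral over `Z`
  have hG : Bd fun q : Y × T => ∫ z, u q.1 * w (q.2, z) * (k q.1 q.2 * H q.1 z) ∂ν :=
    Bd.integral hF ν
  have e1 : ∀ y, ∫ p : T × Z, u y * w p * (k y p.1 * H y p.2) ∂(τ.prod ν) =
      ∫ t, ∫ z, u y * w (t, z) * (k y t * H y z) ∂ν ∂τ := by
    intro y
    have hb : Bd fun p : T × Z => u y * w p * (k y p.1 * H y p.2) :=
      hF.comp (g := fun p : T × Z => ((y, p.1), p.2)) (by fun_prop)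
    exact integral_prod _ (hb.integrable _)
  have e2 : ∫ y, ∫ p : T × Z, u y * w p * (k y p.1 * H y p.2) ∂(τ.prod ν) ∂μ =
      ∫ t, ∫ y, ∫ z, (u y * k y t) * w (t, z) * H y z ∂ν ∂μ ∂τ := by
    simp only [e1]
    rw [integral_integral_swap (hG.integrable _)]
    refine integral_congr_ae (Filter.Eventually.of_forall fun t => ?_)
    refine integral_congr_ae (Filter.Eventually.of_forall fun y => ?_)
    refine integral_congr_ae (Filter.Eventually.of_forall fun z => ?_)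
    simp only
    ring
  rw [e2]
  have hA : Bd fun t => ∫ y, (u y * k y t) ^ 2 ∂μ := by
    have hb : Bd fun q : T × Y => (u q.2 * k q.2 q.1) ^ 2 :=
      Bd.sq' ((hu.comp (g := fun q : T × Y => q.2) (by fun_prop)).mul
        (hk.comp (g := fun q : T × Y => (q.2, q.1)) (by fun_prop)))
    exact Bd.integral hb μ
  have hB : Bd fun t => ∫ z, w (t, z) ^ 2 ∂ν := Bd.integral (Bd.sq' hw) ν
  have ha := Bd.sqrt' hA
  have hb := Bd.sqrt' hB
  have hΦ : ∀ t, |∫ y, ∫ z, (u y * k y t) * w (t, z) * H y z ∂ν ∂μ| ≤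
      C * (√(∫ y, (u y * k y t) ^ 2 ∂μ) * √(∫ z, w (t, z) ^ 2 ∂ν)) := by
    intro t
    exact h (fun y => u y * k y t) (fun z => w (t, z))
      (hu.mul (hk.comp (g := fun y : Y => (y, t)) (by fun_prop)))
      (hw.comp (g := fun z : Z => (t, z)) (by fun_prop))
  have h1 : |∫ t, ∫ y, ∫ z, (u y * k y t) * w (t, z) * H y z ∂ν ∂μ ∂τ| ≤
      ∫ t, C * (√(∫ y, (u y * k y t) ^ 2 ∂μ) * √(∫ z, w (t, z) ^ 2 ∂ν)) ∂τ := by
    have hi : Integrable (fun t => C * (√(∫ y, (u y * k y t) ^ 2 ∂μ) *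
        √(∫ z, w (t, z) ^ 2 ∂ν))) τ := ((Bd.const C).mul (ha.mul hb)).integrable τ
    have := norm_integral_le_of_norm_le (μ := τ) hi
      (f := fun t => ∫ y, ∫ z, (u y * k y t) * w (t, z) * H y z ∂ν ∂μ)
      (Filter.Eventually.of_forall fun t => by rw [Real.norm_eq_abs]; exact hΦ t)
    simpa [Real.norm_eq_abs] using this
  refine h1.trans ?_
  rw [integral_const_mul, mul_assoc]
  refine mul_le_mul_of_nonneg_left ?_ hC
  have h2 := (le_abs_self _).trans (cs τ ha hb)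
  refine h2.trans ?_
  have ea : ∫ t, √(∫ y, (u y * k y t) ^ 2 ∂μ) ^ 2 ∂τ ≤ κ ^ 2 * ∫ y, u y ^ 2 ∂μ := by
    have e3 : ∫ t, √(∫ y, (u y * k y t) ^ 2 ∂μ) ^ 2 ∂τ = ∫ t, ∫ y, (u y * k y t) ^ 2 ∂μ ∂τ := by
      refine integral_congr_ae (Filter.Eventually.of_forall fun t => ?_)
      exact Real.sq_sqrt (integral_nonneg fun y => sq_nonneg _)
    have hb2 : Bd fun q : Y × T => (u q.1 * k q.1 q.2) ^ 2 :=
      Bd.sq' ((hu.comp (g := fun q : Y × T => q.1) (by fun_prop)).mul hk)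
    rw [e3, ← integral_integral_swap (f := fun y t => (u y * k y t) ^ 2) (hb2.integrable _),
      ← integral_const_mul]
    refine integral_mono (Bd.integral hb2 τ |>.integrable μ)
      (((Bd.const _).mul (Bd.sq' hu)).integrable μ) fun y => ?_
    simp only [mul_pow]
    rw [integral_const_mul, mul_comm]
    exact mul_le_mul_of_nonneg_right (hk2 y) (sq_nonneg _)
  have eb : ∫ t, √(∫ z, w (t, z) ^ 2 ∂ν) ^ 2 ∂τ = ∫ p, w p ^ 2 ∂(τ.prod ν) := by
    have e3 : ∫ t, √(∫ z, w (t, z) ^ 2 ∂ν) ^ 2 ∂τ = ∫ t, ∫ z, w (t, z) ^ 2 ∂ν ∂τ := by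
      refine integral_congr_ae (Filter.Eventually.of_forall fun t => ?_)
      exact Real.sq_sqrt (integral_nonneg fun y => sq_nonneg _)
    rw [e3]
    exact (integral_prod _ ((Bd.sq' hw).integrable _)).symm
  rw [eb]
  have h3 : √(∫ t, √(∫ y, (u y * k y t) ^ 2 ∂μ) ^ 2 ∂τ) ≤ κ * √(∫ y, u y ^ 2 ∂μ) := by
    refine (Real.sqrt_le_sqrt ea).trans ?_
    rw [Real.sqrt_mul (sq_nonneg _), Real.sqrt_sq hκ]
  calc _ ≤ (κ * √(∫ y, u y ^ 2 ∂μ)) * √(∫ p, w p ^ 2 ∂(τ.prod ν)) :=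
        mul_le_mul_of_nonneg_right h3 (Real.sqrt_nonneg _)
    _ = _ := by ring

end Pool.Agent.Helper47.LB
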