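import Pool.Agent.Helper47.KP.Remez

/-!
A Nikolskii inequality: `|f(t)| ≤ 6 (n+1)^2 / b ∫_{|s| ≤ b} |f(s)| ds` for `|t| ≤ b`, `deg f ≤ n`.
-/

set_option autoImplicit false

open MeasureTheory Set Metric Polynomial
open scoped Real

namespace Pool.Agent.Helper47.LB

open Pool.Agent.Helper47.KP

lemma Fz_symm (f : ℝ[X]) (n : ℕ) (b : ℝ) {z : ℂ} (hz : z ≠ 0) :
    Fz f n b z = z ^ (2 * n) * Fz f n b z⁻¹ := by
  unfold Fz
  rw [Finset.mul_sum]
  apply Finset.sum_congr rfl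
  intro k hk
  rw [Finset.mem_range] at hk
  have h1 : z ^ (2 * n) = z ^ (n - k) * (z ^ (n - k) * (z ^ 2) ^ k) := by
    rw [← pow_mul, ← pow_add, ← pow_add]
    congr 1; omega
  have h2 : (z ^ 2 + 1) ^ k = (z ^ 2) ^ k * (z⁻¹ ^ 2 + 1) ^ k := by
    rw [← mul_pow]
    congr 1
    field_simp
    ring
  have h3 : z ^ (n - k) * z⁻¹ ^ (n - k) = 1 := by
    rw [← mul_pow, mul_inv_cancel₀ hz, one_pow]
  rw [h1, h2]
  linear_combination (-((f.coeff k : ℝ) : ℂ) * (((b / 2 : ℝ) : ℂ)) ^ k * z ^ (n - k) *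
    (z ^ 2) ^ k * (z⁻¹ ^ 2 + 1) ^ k) * h3

lemma differentiable_Fz (f : ℝ[X]) (n : ℕ) (b : ℝ) : Differentiable ℂ (Fz f n b) := by
  unfold Fz
  fun_prop

lemma Fz_small {A b : ℝ} (h : Par A b) {f : ℝ[X]} {n : ℕ} (hf : f.natDegree ≤ n) {w : ℂ}
    (hw : ‖w‖ < 1) : ‖Fz f n b w‖ * (1 - ‖w‖) ^ 2 ≤ 2 / (π * b) * ∫ s in (-b)..b, |f.eval s| := by
  have h1 := cauchy_est h hf 0 hw
  have e1 : Hz f n 0 A b w = Fz f n b w * (1 - w ^ 2) := by
    unfold Hz; simp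
  have e2 : ∀ s, wt 0 s = 1 := fun s => by simp [wt]
  simp only [e2, mul_one] at h1
  rw [e1, norm_mul] at h1
  refine le_trans ?_ h1
  have h2 : 1 - ‖w‖ ≤ ‖1 - w ^ 2‖ := by
    have h3 := norm_sub_norm_le (1 : ℂ) (w ^ 2)
    rw [norm_one, norm_pow] at h3
    have h4 : ‖w‖ ^ 2 ≤ ‖w‖ := by
      have := norm_nonneg w
      nlinarith
    linarith
  have h5 : 0 ≤ 1 - ‖w‖ := by linarith
  calc ‖Fz f n b w‖ * (1 - ‖w‖) ^ 2 = ‖Fz f n b w‖ * (1 - ‖w‖) * (1 - ‖w‖) := by ring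
    _ ≤ ‖Fz f n b w‖ * ‖1 - w ^ 2‖ * (1 - ‖w‖) := by gcongr

theorem nikolskii {A b : ℝ} (h : Par A b) {f : ℝ[X]} {n : ℕ} (hn : 1 ≤ n)
    (hf : f.natDegree ≤ n) {t : ℝ} (ht : |t| ≤ b) :
    |f.eval t| ≤ 6 * ((n : ℝ) + 1) ^ 2 / b * ∫ s in (-b)..b, |f.eval s| := by
  have hb := h.b_pos
  have hπ := Real.pi_pos
  have hn0 : (0 : ℝ) < n := by exact_mod_cast hn
  set I := ∫ s in (-b)..b, |f.eval s| with hI
  have hI0 : 0 ≤ I := intervalIntegral.integral_nonneg (by linarith) fun _ _ => abs_nonneg _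
  set R : ℝ := 1 + 1 / n with hR
  have hR1 : 1 < R := by
    have : 0 < 1 / (n : ℝ) := by positivity
    linarith
  have hR0 : 0 < R := by linarith
  have hRn : R ^ (2 * n) ≤ 9 := by
    have h1 : R ≤ Real.exp (1 / n) := by
      have := Real.add_one_le_exp (1 / (n : ℝ))
      linarith
    have h2 : R ^ (2 * n) ≤ Real.exp (1 / n) ^ (2 * n) := by gcongr
    have h3 : Real.exp (1 / (n : ℝ)) ^ (2 * n) = Real.exp 1 ^ 2 := by
      rw [← Real.exp_nat_mul, ← Real.exp_nat_mul]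
      congr 1
      push_cast
      field_simp
    rw [h3] at h2
    have h4 := Real.exp_one_lt_d9
    have h5 := Real.exp_pos 1
    nlinarith
  -- the bound on the circle of radius R
  have hcirc : ∀ z ∈ frontier (ball (0 : ℂ) R), ‖Fz f n b z‖ ≤ 6 * ((n : ℝ) + 1) ^ 2 / b * I := by
    intro z hz
    rw [frontier_ball _ hR0.ne', mem_sphere_zero_iff_norm] at hz
    have hz0 : z ≠ 0 := by
      intro h0
      rw [h0, norm_zero] at hz
      linarith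
    have hw : ‖z⁻¹‖ = R⁻¹ := by rw [norm_inv, hz]
    have hw1 : ‖z⁻¹‖ < 1 := by rw [hw]; exact inv_lt_one_of_one_lt₀ hR1
    have h1 := Fz_small h hf hw1
    have h2 : 1 - ‖z⁻¹‖ = 1 / ((n : ℝ) + 1) := by
      rw [hw, hR]; field_simp; ring
    rw [h2] at h1
    have h3 : ‖Fz f n b z⁻¹‖ ≤ ((n : ℝ) + 1) ^ 2 * (2 / (π * b) * I) := by
      have h4 : ‖Fz f n b z⁻¹‖ = ((n : ℝ) + 1) ^ 2 * (‖Fz f n b z⁻¹‖ * (1 / ((n : ℝ) + 1)) ^ 2) := by
        field_simp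
      rw [h4]
      gcongr
    rw [Fz_symm f n b hz0, norm_mul, norm_pow, hz]
    calc R ^ (2 * n) * ‖Fz f n b z⁻¹‖ ≤ 9 * (((n : ℝ) + 1) ^ 2 * (2 / (π * b) * I)) := by gcongr
      _ = 18 / π * (((n : ℝ) + 1) ^ 2 / b * I) := by field_simp; ring
      _ ≤ 6 * (((n : ℝ) + 1) ^ 2 / b * I) := by
        gcongr
        rw [div_le_iff₀ hπ]
        have := Real.pi_gt_three
        linarith
      _ = 6 * ((n : ℝ) + 1) ^ 2 / b * I := by ring
  -- the point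
  set θ := Real.arccos (t / b) with hθ
  have htb : t / b ∈ Icc (-1 : ℝ) 1 := by
    rw [abs_le] at ht
    constructor
    · rw [le_div_iff₀ hb]; linarith [ht.1]
    · rw [div_le_one hb]; exact ht.2
  have hcos : b * Real.cos θ = t := by
    rw [hθ, Real.cos_arccos htb.1 htb.2]
    field_simp
  set z := Complex.exp (θ * Complex.I) with hz
  have hz0 : z ≠ 0 := Complex.exp_ne_zero _
  have hzn : ‖z‖ = 1 := Complex.norm_exp_ofReal_mul_I θ
  have hzc : z = (Real.cos θ : ℂ) + (Real.sin θ : ℂ) * Complex.I := by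
    rw [hz, Complex.exp_mul_I, Complex.ofReal_cos, Complex.ofReal_sin]
  have hzinv : z⁻¹ = (Real.cos θ : ℂ) - (Real.sin θ : ℂ) * Complex.I := by
    rw [hz, ← Complex.exp_neg, ← neg_mul, Complex.exp_mul_I, Complex.cos_neg, Complex.sin_neg,
      Complex.ofReal_cos, Complex.ofReal_sin]
    ring
  have hr : ((b / 2 : ℝ) : ℂ) * (z + z⁻¹) = (t : ℂ) := by
    rw [hzinv, hzc, ← hcos]; push_cast; ring
  have e1 := Fz_eq hf hz0 hr
  have e2 : ‖Fz f n b z‖ = |f.eval t| := by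
    rw [e1, norm_mul, norm_pow, hzn, one_pow, one_mul, Complex.norm_real, Real.norm_eq_abs]
  rw [← e2]
  refine Complex.norm_le_of_forall_mem_frontier_norm_le isBounded_ball
    (differentiable_Fz f n b).diffContOnCl hcirc ?_
  rw [closure_ball _ hR0.ne', mem_closedBall_zero_iff, hzn]
  exact hR1.le

end Pool.Agent.Helper47.LB
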