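import Pool.Agent.Helper47.LB.Alg
import Pool.Agent.Helper47.LB.Split
import Pool.Agent.Helper47.LB.HHb

/-!
BLOCK LB-L. The error terms.

`AP_le`: `sf z * Ph(z,a)² = (sf * XX²)(Sum.elim z a) * (cr z a * sf a)` by `sf_elim`. If
`l + p ≤ t` then `cr z a * sf a ≤ G^(l p) G^(p p) ≤ G^(t^2)` and
`∫_z ∫_a (sf * XX²)(Sum.elim z a) = ∫_{Fin (l+p) → X} sf * XX²` (`int_equiv` with
`finSumFinEquiv`, `sf_equiv`, `XX_equiv`) `= (l+p)! / N^(l+p) * YY (l+p)`. If `l + p > t` the left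
side is zero (`XX_of_lt`) and the right side is `≥ 0`.

`term_le`: for every `z`, by `HH_NB`,
`|∫∫ Ph Ph HH| ≤ √v^(p+q) * MM * √A * √B` with `A = ∫ Ph(z,a)²` over `Fin p`, `B` over `Fin q`,
and `√A * √B ≤ (c A + c⁻¹ B) / 2` with `c = √N^p / √N^q`. Integrate against `sf z` and use `AP_le`:
`N^q/q! * c * (1/p!) * (l+p)!/l! = √N^(p+q) * choose (l+p) p / q! ≤ √N^(p+q) * 2^t`
(if `l + p ≤ t`; otherwise `YY (l+p) = 0`), and `√N^(p+q) √v^(p+q) = √(N v)^(p+q) ≤ (N v)^t` since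
`p, q ≤ t` and `N v ≥ 1`.
-/

set_option autoImplicit false

open MeasureTheory Finset

namespace Pool.Agent.Helper47.LB

open Pool.Agent.Helper47.KP (Bd pim)

variable {X : Type} [MeasurableSpace X] [DecidableEq X] {σ : Measure X} [IsProbabilityMeasure σ]
  {g : X → X → ℝ} {G v ε : ℝ}

theorem YY_nonneg {t : ℕ} {N : ℝ} (hN : 0 < N) {F : Finset X → ℝ} (m : ℕ) :
    0 ≤ YY σ t N g F m := by
  unfold YY
  refine mul_nonneg (by positivity) (integral_nonneg fun z => ?_)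
  exact mul_nonneg (sf_nonneg g z) (sq_nonneg _)

theorem YY_of_lt {t : ℕ} {N : ℝ} {F : Finset X → ℝ} {m : ℕ} (h : t < m) :
    YY σ t N g F m = 0 := by
  unfold YY
  have h0 : ∀ z : Fin m → X, XX σ t N g F z = 0 := fun z =>
    XX_of_lt σ t N z (by rwa [Fintype.card_fin])
  simp only [h0]
  simp

namespace Pos1

omit [DecidableEq X] in
theorem measurable_elim {ι κ : Type} :
    Measurable (fun p : (ι → X) × (κ → X) => (Sum.elim p.1 p.2 : ι ⊕ κ → X)) := by
  refine measurable_pi_iff.2 fun s => ?_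
  cases s with
  | inl i => exact (measurable_pi_apply i).comp measurable_fst
  | inr j => exact (measurable_pi_apply j).comp measurable_snd

theorem Bd_sq {Y : Type} [MeasurableSpace Y] {f : Y → ℝ} (h : Bd f) : Bd fun y => f y ^ 2 := by
  simpa only [pow_two] using h.mul h

/-- the integrand of `YY` -/
theorem Bd_Psi (K : Ker σ g G v ε) (t : ℕ) (N : ℝ) {F : Finset X → ℝ} (hF : FB F) (l p : ℕ) :
    Bd fun q : (Fin l → X) × (Fin p → X) =>
      sf g (Sum.elim q.1 q.2) * XX σ t N g F (Sum.elim q.1 q.2) ^ 2 :=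
  ((Bd_sf K.bd).comp measurable_elim).mul (Bd_sq ((Bd_XX σ t N K.bd hF).comp measurable_elim))

theorem int_Psi (K : Ker σ g G v ε) (t : ℕ) {N : ℝ} (hN : 0 < N) {F : Finset X → ℝ} (hF : FB F)
    (l p : ℕ) :
    ∫ z : Fin l → X, ∫ a : Fin p → X,
      sf g (Sum.elim z a) * XX σ t N g F (Sum.elim z a) ^ 2 ∂(pim σ p) ∂(pim σ l) =
    ((l + p).factorial : ℝ) / N ^ (l + p) * YY σ t N g F (l + p) := by
  have h := int_equiv σ (finSumFinEquiv : Fin l ⊕ Fin p ≃ Fin (l + p))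
    (Ψ := fun z a => sf g (Sum.elim z a) * XX σ t N g F (Sum.elim z a) ^ 2)
    (Bd_Psi K t N hF l p)
  have h1 : ∀ x : Fin (l + p) → X,
      sf g (Sum.elim (fun i => x (finSumFinEquiv (Sum.inl i)))
        (fun j => x (finSumFinEquiv (Sum.inr j)))) *
      XX σ t N g F (Sum.elim (fun i => x (finSumFinEquiv (Sum.inl i)))
        (fun j => x (finSumFinEquiv (Sum.inr j)))) ^ 2 = sf g x * XX σ t N g F x ^ 2 := by
    intro x
    have h2 : (Sum.elim (fun i => x (finSumFinEquiv (Sum.inl i)))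
        (fun j => x (finSumFinEquiv (Sum.inr j))) : Fin l ⊕ Fin p → X) =
        fun s => x (finSumFinEquiv s) := by
      funext s
      cases s <;> rfl
    rw [h2, sf_equiv, XX_equiv]
  rw [← h]
  unfold YY
  have hN' : N ^ (l + p) ≠ 0 := by positivity
  have hf : ((l + p).factorial : ℝ) ≠ 0 := by positivity
  have e : ((l + p).factorial : ℝ) / N ^ (l + p) * (N ^ (l + p) / ((l + p).factorial : ℝ)) = 1 := by
    field_simp
  rw [← mul_assoc, e, one_mul]
  congr 1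
  funext x
  exact h1 x

omit [IsProbabilityMeasure σ] in
theorem AP_aux (K : Ker σ g G v ε) {t : ℕ} {N : ℝ} {F : Finset X → ℝ} (l p : ℕ)
    (h : l + p ≤ t) (z : Fin l → X) (a : Fin p → X) :
    sf g z * Ph σ t N g F z a ^ 2 ≤
      G ^ (t ^ 2) * (sf g (Sum.elim z a) * XX σ t N g F (Sum.elim z a) ^ 2) := by
  have h1 : cr g z a * sf g a ≤ G ^ (t ^ 2) := by
    have h2 := cr_le K.nonneg K.le z a
    have h3 := sf_le K.one_le K.le a
    rw [Fintype.card_fin, Fintype.card_fin] at h2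
    rw [Fintype.card_fin] at h3
    have hG0 : (0 : ℝ) ≤ G := zero_le_one.trans K.one_le
    calc cr g z a * sf g a ≤ G ^ (l * p) * G ^ (p * p) :=
          mul_le_mul h2 h3 (sf_nonneg g a) (pow_nonneg hG0 _)
      _ = G ^ (l * p + p * p) := (pow_add _ _ _).symm
      _ ≤ G ^ (t ^ 2) := by
          refine pow_le_pow_right₀ K.one_le ?_
          nlinarith
  have h4 : sf g z * Ph σ t N g F z a ^ 2 = (cr g z a * sf g a) *
      (sf g (Sum.elim z a) * XX σ t N g F (Sum.elim z a) ^ 2) := by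
    unfold Ph
    rw [sf_elim K.symm K.nonneg z a]
    ring
  rw [h4]
  exact mul_le_mul_of_nonneg_right h1 (mul_nonneg (sf_nonneg g _) (sq_nonneg _))

end Pos1

open Pos1

theorem AP_le (K : Ker σ g G v ε) {t : ℕ} {N : ℝ} (hN : 0 < N) {F : Finset X → ℝ} (hF : FB F)
    (l p : ℕ) :
    N ^ l / (l.factorial : ℝ) * ∫ z : Fin l → X, sf g z *
      (∫ a : Fin p → X, Ph σ t N g F z a ^ 2 ∂(pim σ p)) ∂(pim σ l) ≤
    G ^ (t ^ 2) * (((l + p).factorial : ℝ) / (l.factorial * N ^ p)) * YY σ t N g F (l + p) := by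
  have hG0 : (0 : ℝ) ≤ G := zero_le_one.trans K.one_le
  have hY := YY_nonneg (σ := σ) (g := g) (t := t) hN (F := F) (l + p)
  rcases Nat.lt_or_ge t (l + p) with h | h
  · have h0 : ∀ (z : Fin l → X) (a : Fin p → X), Ph σ t N g F z a = 0 := by
      intro z a
      unfold Ph
      rw [XX_of_lt σ t N (Sum.elim z a) (by
        rw [Fintype.card_sum, Fintype.card_fin, Fintype.card_fin]
        exact h), mul_zero]
    simp only [h0]
    have h1 : (0 : ℝ) ≤ G ^ (t ^ 2) * (((l + p).factorial : ℝ) / (l.factorial * N ^ p)) *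
        YY σ t N g F (l + p) := by positivity
    simpa using h1
  · have hPh : Bd fun q : (Fin l → X) × (Fin p → X) => Ph σ t N g F q.1 q.2 :=
      Bd_Ph σ t N K.bd hF
    have hsf : Bd fun q : (Fin l → X) × (Fin p → X) => sf g q.1 :=
      (Bd_sf K.bd).comp measurable_fst
    have hL : Bd fun q : (Fin l → X) × (Fin p → X) => sf g q.1 * Ph σ t N g F q.1 q.2 ^ 2 :=
      hsf.mul (Bd_sq hPh)
    have hR : Bd fun q : (Fin l → X) × (Fin p → X) => G ^ (t ^ 2) *
        (sf g (Sum.elim q.1 q.2) * XX σ t N g F (Sum.elim q.1 q.2) ^ 2) :=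
      (Bd.const _).mul (Bd_Psi K t N hF l p)
    have h2 : ∫ z : Fin l → X, sf g z *
        (∫ a : Fin p → X, Ph σ t N g F z a ^ 2 ∂(pim σ p)) ∂(pim σ l) ≤
        G ^ (t ^ 2) * (((l + p).factorial : ℝ) / N ^ (l + p) * YY σ t N g F (l + p)) := by
      rw [← int_Psi K t hN hF l p, ← integral_const_mul]
      simp only [← integral_const_mul]
      refine integral_mono ((hL.integral (pim σ p)).integrable _)
        ((hR.integral (pim σ p)).integrable _) fun z => ?_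
      refine integral_mono ((hL.comp (g := fun a : Fin p → X => (z, a))
        measurable_prodMk_left).integrable _) ((hR.comp (g := fun a : Fin p → X => (z, a))
        measurable_prodMk_left).integrable _) fun a => ?_
      exact AP_aux K l p h z a
    calc N ^ l / (l.factorial : ℝ) * ∫ z : Fin l → X, sf g z *
        (∫ a : Fin p → X, Ph σ t N g F z a ^ 2 ∂(pim σ p)) ∂(pim σ l)
        ≤ N ^ l / (l.factorial : ℝ) *
          (G ^ (t ^ 2) * (((l + p).factorial : ℝ) / N ^ (l + p) * YY σ t N g F (l + p))) :=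
          mul_le_mul_of_nonneg_left h2 (by positivity)
      _ = G ^ (t ^ 2) * (((l + p).factorial : ℝ) / (l.factorial * N ^ p)) *
          YY σ t N g F (l + p) := by
          rw [pow_add]
          field_simp

namespace Pos1

/-- the estimate of the binomial coefficients -/
theorem coef_le {t : ℕ} {N : ℝ} (hN : 0 < N) {F : Finset X → ℝ} (l p q : ℕ) :
    (N ^ p / (p.factorial : ℝ)) * (N ^ q / (q.factorial : ℝ)) * (√N ^ p / √N ^ q) *
      (((l + p).factorial : ℝ) / (l.factorial * N ^ p)) * YY σ t N g F (l + p) ≤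
    √N ^ (p + q) * 2 ^ t * YY σ t N g F (l + p) := by
  rcases Nat.lt_or_ge t (l + p) with h | h
  · rw [YY_of_lt h, mul_zero, mul_zero]
  · refine mul_le_mul_of_nonneg_right ?_ (YY_nonneg hN _)
    have hs : 0 < √N := Real.sqrt_pos.2 hN
    have h1 : N ^ q = √N ^ q * √N ^ q := by
      rw [← mul_pow, Real.mul_self_sqrt hN.le]
    have h2 : ((l + p).factorial : ℝ) = ((l + p).choose p : ℝ) * (l.factorial * p.factorial) := by
      have h3 := Nat.choose_mul_factorial_mul_factorial (Nat.le_add_left p l)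
      rw [Nat.add_sub_cancel] at h3
      rw [← h3]
      push_cast
      ring
    have h4 : (N ^ p / (p.factorial : ℝ)) * (N ^ q / (q.factorial : ℝ)) * (√N ^ p / √N ^ q) *
        (((l + p).factorial : ℝ) / (l.factorial * N ^ p)) =
        √N ^ (p + q) * (((l + p).choose p : ℝ) / q.factorial) := by
      rw [h2, h1, pow_add]
      field_simp
    rw [h4]
    refine mul_le_mul_of_nonneg_left ?_ (by positivity)
    have h5 : ((l + p).choose p : ℝ) ≤ 2 ^ t := by
      have h6 : (l + p).choose p ≤ 2 ^ (l + p) := Nat.choose_le_two_pow _ _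
      have h7 : 2 ^ (l + p) ≤ 2 ^ t := Nat.pow_le_pow_right (by norm_num) h
      exact_mod_cast h6.trans h7
    have h8 : (1 : ℝ) ≤ q.factorial := by
      exact_mod_cast Nat.succ_le_of_lt (Nat.factorial_pos q)
    calc ((l + p).choose p : ℝ) / q.factorial ≤ ((l + p).choose p : ℝ) / 1 :=
          div_le_div_of_nonneg_left (by positivity) one_pos h8
      _ ≤ 2 ^ t := by rwa [div_one]

theorem amgm {c A B : ℝ} (hc : 0 < c) (hA : 0 ≤ A) (hB : 0 ≤ B) :
    √A * √B ≤ (c * A + c⁻¹ * B) / 2 := by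
  have h1 : (0 : ℝ) ≤ (√c * √A - √(c⁻¹) * √B) ^ 2 := sq_nonneg _
  have h2 : √c * √(c⁻¹) = 1 := by
    rw [← Real.sqrt_mul hc.le, mul_inv_cancel₀ hc.ne', Real.sqrt_one]
  have h3 : √c ^ 2 = c := Real.sq_sqrt hc.le
  have h4 : √(c⁻¹) ^ 2 = c⁻¹ := Real.sq_sqrt (inv_pos.2 hc).le
  have h5 : √A ^ 2 = A := Real.sq_sqrt hA
  have h6 : √B ^ 2 = B := Real.sq_sqrt hB
  have h7 : (√c * √A - √(c⁻¹) * √B) ^ 2 =
      √c ^ 2 * √A ^ 2 + √(c⁻¹) ^ 2 * √B ^ 2 - 2 * (√c * √(c⁻¹)) * (√A * √B) := by ring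
  rw [h7, h2, h3, h4, h5, h6] at h1
  linarith

end Pos1

theorem term_le (K : Ker σ g G v ε) {t : ℕ} {N : ℝ} (hN : 0 < N) (hNv : 1 ≤ N * v) {δ : ℝ}
    (hδ : 0 ≤ δ) (hε : ε ≤ δ * v) {F : Finset X → ℝ} (hF : FB F) {p q : ℕ} (l : ℕ)
    (hpt : p ≤ t) (hqt : q ≤ t) :
    N ^ l / (l.factorial : ℝ) * (N ^ p / (p.factorial : ℝ)) * (N ^ q / (q.factorial : ℝ)) *
      |∫ z : Fin l → X, sf g z * ∫ a : Fin p → X, ∫ b : Fin q → X,
        Ph σ t N g F z a * Ph σ t N g F z b * HH g a b ∂(pim σ q) ∂(pim σ p) ∂(pim σ l)| ≤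
    (N * v) ^ t * MM G δ q p * G ^ (t ^ 2) * 2 ^ t *
      ((YY σ t N g F (l + p) + YY σ t N g F (l + q)) / 2) := by
  have hM := MM_nonneg (G := G) K.one_le hδ q p
  have hs : 0 < √N := Real.sqrt_pos.2 hN
  set c : ℝ := √N ^ p / √N ^ q with hc
  have hc0 : 0 < c := by positivity
  have hPp : Bd fun r : (Fin l → X) × (Fin p → X) => Ph σ t N g F r.1 r.2 :=
    Bd_Ph σ t N K.bd hF
  have hPq : Bd fun r : (Fin l → X) × (Fin q → X) => Ph σ t N g F r.1 r.2 :=
    Bd_Ph σ t N K.bd hF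
  have hsf : Bd fun z : Fin l → X => sf g z := Bd_sf K.bd
  have hA : Bd fun z : Fin l → X => ∫ a : Fin p → X, Ph σ t N g F z a ^ 2 ∂(pim σ p) :=
    (Bd_sq hPp).integral (pim σ p)
  have hB : Bd fun z : Fin l → X => ∫ b : Fin q → X, Ph σ t N g F z b ^ 2 ∂(pim σ q) :=
    (Bd_sq hPq).integral (pim σ q)
  set C : ℝ := √v ^ (p + q) * MM G δ q p with hCdef
  have hC : 0 ≤ C := by positivity
  -- the estimate for fixed `z`
  have h1 : ∀ z : Fin l → X, |∫ a : Fin p → X, ∫ b : Fin q → X,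
      Ph σ t N g F z a * Ph σ t N g F z b * HH g a b ∂(pim σ q) ∂(pim σ p)| ≤
      C * ((c * (∫ a : Fin p → X, Ph σ t N g F z a ^ 2 ∂(pim σ p)) +
        c⁻¹ * (∫ b : Fin q → X, Ph σ t N g F z b ^ 2 ∂(pim σ q))) / 2) := by
    intro z
    have h2 := HH_NB K hδ hε q (Fin p) (fun a => Ph σ t N g F z a) (fun b => Ph σ t N g F z b)
      (hPp.comp (g := fun a : Fin p → X => (z, a)) measurable_prodMk_left)
      (hPq.comp (g := fun a : Fin q → X => (z, a)) measurable_prodMk_left)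
    rw [Fintype.card_fin] at h2
    refine h2.trans (mul_le_mul_of_nonneg_left ?_ hC)
    exact amgm hc0 (integral_nonneg fun _ => sq_nonneg _) (integral_nonneg fun _ => sq_nonneg _)
  -- the integral over `z`
  have hint : |∫ z : Fin l → X, sf g z * ∫ a : Fin p → X, ∫ b : Fin q → X,
        Ph σ t N g F z a * Ph σ t N g F z b * HH g a b ∂(pim σ q) ∂(pim σ p) ∂(pim σ l)| ≤
      C / 2 * (c * (∫ z : Fin l → X, sf g z *
          (∫ a : Fin p → X, Ph σ t N g F z a ^ 2 ∂(pim σ p)) ∂(pim σ l)) +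
        c⁻¹ * (∫ z : Fin l → X, sf g z *
          (∫ b : Fin q → X, Ph σ t N g F z b ^ 2 ∂(pim σ q)) ∂(pim σ l))) := by
    have h3 : ∫ z : Fin l → X, sf g z * (C * ((c * (∫ a : Fin p → X,
        Ph σ t N g F z a ^ 2 ∂(pim σ p)) + c⁻¹ * (∫ b : Fin q → X,
        Ph σ t N g F z b ^ 2 ∂(pim σ q))) / 2)) ∂(pim σ l) =
      C / 2 * (c * (∫ z : Fin l → X, sf g z *
          (∫ a : Fin p → X, Ph σ t N g F z a ^ 2 ∂(pim σ p)) ∂(pim σ l)) +
        c⁻¹ * (∫ z : Fin l → X, sf g z *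
          (∫ b : Fin q → X, Ph σ t N g F z b ^ 2 ∂(pim σ q)) ∂(pim σ l))) := by
      rw [← integral_const_mul c, ← integral_const_mul c⁻¹, ← integral_add
        (((hsf.mul hA).integrable _).const_mul c) (((hsf.mul hB).integrable _).const_mul c⁻¹),
        ← integral_const_mul]
      congr 1
      funext z
      ring
    rw [← h3]
    have h4 : Bd fun z : Fin l → X => sf g z * (C * ((c * (∫ a : Fin p → X,
        Ph σ t N g F z a ^ 2 ∂(pim σ p)) + c⁻¹ * (∫ b : Fin q → X,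
        Ph σ t N g F z b ^ 2 ∂(pim σ q))) / 2)) := by
      have h5 := hsf.mul ((Bd.const C).mul ((((Bd.const c).mul hA).add
        ((Bd.const c⁻¹).mul hB)).mul (Bd.const (2 : ℝ)⁻¹)))
      simpa only [div_eq_mul_inv] using h5
    rw [← Real.norm_eq_abs]
    refine norm_integral_le_of_norm_le (h4.integrable _) (Filter.Eventually.of_forall fun z => ?_)
    rw [Real.norm_eq_abs, abs_mul, abs_of_nonneg (sf_nonneg g z)]
    exact mul_le_mul_of_nonneg_left (h1 z) (sf_nonneg g z)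
  -- the two error terms
  have hAP := AP_le K (t := t) hN hF l p
  have hAQ := AP_le K (t := t) hN hF l q
  have hG0 : (0 : ℝ) ≤ G := zero_le_one.trans K.one_le
  have hP1 := coef_le (σ := σ) (g := g) (t := t) hN (F := F) l p q
  have hQ1 := coef_le (σ := σ) (g := g) (t := t) hN (F := F) l q p
  have hcinv : √N ^ q / √N ^ p = c⁻¹ := by rw [hc, inv_div]
  rw [hcinv] at hQ1
  rw [← hc] at hP1
  set A : ℝ := ∫ z : Fin l → X, sf g z *
    (∫ a : Fin p → X, Ph σ t N g F z a ^ 2 ∂(pim σ p)) ∂(pim σ l) with hAdef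
  set B : ℝ := ∫ z : Fin l → X, sf g z *
    (∫ b : Fin q → X, Ph σ t N g F z b ^ 2 ∂(pim σ q)) ∂(pim σ l) with hBdef
  have hYp := YY_nonneg (σ := σ) (g := g) (t := t) hN (F := F) (l + p)
  have hYq := YY_nonneg (σ := σ) (g := g) (t := t) hN (F := F) (l + q)
  set Yp := YY σ t N g F (l + p)
  set Yq := YY σ t N g F (l + q)
  set Np : ℝ := N ^ p / (p.factorial : ℝ) with hNp
  set Nq : ℝ := N ^ q / (q.factorial : ℝ) with hNq
  set Nl : ℝ := N ^ l / (l.factorial : ℝ) with hNl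
  have hNp0 : 0 < Np := by positivity
  have hNq0 : 0 < Nq := by positivity
  have hNl0 : 0 < Nl := by positivity
  have hstepP : Np * Nq * (c * (Nl * A)) ≤ G ^ (t ^ 2) * (√N ^ (p + q) * 2 ^ t * Yp) := by
    calc Np * Nq * (c * (Nl * A)) ≤ Np * Nq * (c * (G ^ (t ^ 2) *
          (((l + p).factorial : ℝ) / (l.factorial * N ^ p)) * Yp)) := by gcongr
      _ = G ^ (t ^ 2) * (Np * Nq * c *
          (((l + p).factorial : ℝ) / (l.factorial * N ^ p)) * Yp) := by ring
      _ ≤ _ := mul_le_mul_of_nonneg_left hP1 (by positivity)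
  have hstepQ : Np * Nq * (c⁻¹ * (Nl * B)) ≤ G ^ (t ^ 2) * (√N ^ (p + q) * 2 ^ t * Yq) := by
    calc Np * Nq * (c⁻¹ * (Nl * B)) ≤ Np * Nq * (c⁻¹ * (G ^ (t ^ 2) *
          (((l + q).factorial : ℝ) / (l.factorial * N ^ q)) * Yq)) := by gcongr
      _ = G ^ (t ^ 2) * (Nq * Np * c⁻¹ *
          (((l + q).factorial : ℝ) / (l.factorial * N ^ q)) * Yq) := by ring
      _ ≤ G ^ (t ^ 2) * (√N ^ (q + p) * 2 ^ t * Yq) :=
          mul_le_mul_of_nonneg_left hQ1 (by positivity)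
      _ = _ := by rw [add_comm q p]
  have hNvpow : √N ^ (p + q) * √v ^ (p + q) ≤ (N * v) ^ t := by
    rw [← mul_pow, ← Real.sqrt_mul hN.le]
    have h6 : (1 : ℝ) ≤ √(N * v) := by
      rw [Real.one_le_sqrt]
      exact hNv
    calc √(N * v) ^ (p + q) ≤ √(N * v) ^ (2 * t) := pow_le_pow_right₀ h6 (by omega)
      _ = (N * v) ^ t := by rw [pow_mul, Real.sq_sqrt (by linarith)]
  calc Nl * Np * Nq * |∫ z : Fin l → X, sf g z * ∫ a : Fin p → X, ∫ b : Fin q → X,
        Ph σ t N g F z a * Ph σ t N g F z b * HH g a b ∂(pim σ q) ∂(pim σ p) ∂(pim σ l)|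
      ≤ Nl * Np * Nq * (C / 2 * (c * A + c⁻¹ * B)) :=
        mul_le_mul_of_nonneg_left hint (by positivity)
    _ = C / 2 * (Np * Nq * (c * (Nl * A)) + Np * Nq * (c⁻¹ * (Nl * B))) := by ring
    _ ≤ C / 2 * (G ^ (t ^ 2) * (√N ^ (p + q) * 2 ^ t * Yp) +
          G ^ (t ^ 2) * (√N ^ (p + q) * 2 ^ t * Yq)) :=
        mul_le_mul_of_nonneg_left (add_le_add hstepP hstepQ) (by positivity)
    _ = (√N ^ (p + q) * √v ^ (p + q)) * (MM G δ q p * G ^ (t ^ 2) * 2 ^ t *
          ((Yp + Yq) / 2)) := by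
        rw [hCdef]
        ring
    _ ≤ (N * v) ^ t * (MM G δ q p * G ^ (t ^ 2) * 2 ^ t * ((Yp + Yq) / 2)) :=
        mul_le_mul_of_nonneg_right hNvpow (by positivity)
    _ = _ := by ring

end Pool.Agent.Helper47.LB
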