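import Pool.Agent.Helper47.LB.Expand
import Pool.Agent.Helper47.LB.Pos1

/-!
BLOCK LB-M. Positivity of the form on rank one kernels.

`Form_eq`: the integrand of `Form` for `K = F ⊗ F` is `sf z * (ph z a * ph z b * cr a b)`; take
`sf z` out, exchange the finite sums over `p, q` with the integral over `z` (everything is `Bd`),
use `expand` for each `z`, and exchange back.

`Form_rank_one`: in `Form_eq` the term `p = q = 0` is `YY l` (`HH = 1`, `cr z a = 1`, `sf a = 1`,
`XX (Sum.elim z a) = XX z` by `XX_equiv` for the empty tuple `a`); the terms with exactly one of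
`p, q` equal to `0` vanish (`HH_zero`, `HH_empty`); the others are at least
`- κ (YY (l+p) + YY (l+q)) / 2` by `term_le`, `κ = (N v)^t * Mm * G^(t^2) * 2^t`; they vanish when
`l + p > t` or `l + q > t` (`XX_of_lt`). Each `YY m` occurs at most `(t+1)²` times, so
`Form ≥ (1 - κ (t+1)²) ∑ YY m ≥ 0`. (For instance: `∑_{l,p,q ≤ t} YY (l+p) ≤ (t+1) ∑_{l,p ≤ t}
YY (l+p) ≤ (t+1) * (t+1) * ∑_{m ≤ t} YY m`, because for each `l`,
`∑_{p ≤ t} YY (l+p) ≤ ∑_{m ≤ t} YY m` as `YY m = 0` for `m > t`.)
-/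

set_option autoImplicit false

open MeasureTheory Finset

namespace Pool.Agent.Helper47.LB

open Pool.Agent.Helper47.KP (Bd pim)

variable {X : Type} [MeasurableSpace X] [DecidableEq X] {σ : Measure X} [IsProbabilityMeasure σ]
  {g : X → X → ℝ} {G v ε : ℝ}

omit [DecidableEq X] in
theorem Bd_int2_16 {l p q : ℕ} {H : (Fin l → X) → (Fin p → X) → (Fin q → X) → ℝ}
    (hH : Bd fun w : ((Fin l → X) × (Fin p → X)) × (Fin q → X) => H w.1.1 w.1.2 w.2) :
    Bd fun z : Fin l → X => ∫ a : Fin p → X, ∫ b : Fin q → X, H z a b ∂(pim σ q) ∂(pim σ p) := by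
  have h1 : Bd fun w : (Fin l → X) × (Fin p → X) => ∫ b : Fin q → X, H w.1 w.2 b ∂(pim σ q) :=
    hH.integral (pim σ q)
  exact h1.integral (pim σ p)

omit [DecidableEq X] in
theorem exch16 {l : ℕ} (t : ℕ) (c d : ℝ) (e : ℕ → ℝ) {s : (Fin l → X) → ℝ} (hs : Bd s)
    {I J : ℕ → ℕ → (Fin l → X) → ℝ} (hI : ∀ p q, Bd (I p q)) (hJ : ∀ p q, Bd (J p q))
    (h : ∀ z, ∑ p ∈ range (t + 1), ∑ q ∈ range (t + 1), e p * e q * I p q z =
      ∑ p ∈ range (t + 1), ∑ q ∈ range (t + 1), e p * e q * J p q z) :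
    ∑ p ∈ range (t + 1), ∑ q ∈ range (t + 1), c * e p * e q *
      ∫ z, s z * I p q z ∂(pim σ l) =
    ∑ p ∈ range (t + 1), ∑ q ∈ range (t + 1), c * e p * e q *
      ∫ z, s z * J p q z ∂(pim σ l) := by
  have key : ∀ {I : ℕ → ℕ → (Fin l → X) → ℝ}, (∀ p q, Bd (I p q)) →
      ∑ p ∈ range (t + 1), ∑ q ∈ range (t + 1), c * e p * e q *
        ∫ z, s z * I p q z ∂(pim σ l) =
      c * ∫ z, s z * (∑ p ∈ range (t + 1), ∑ q ∈ range (t + 1), e p * e q * I p q z)
        ∂(pim σ l) := by
    intro I hI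
    have h1 : ∀ z, s z * (∑ p ∈ range (t + 1), ∑ q ∈ range (t + 1), e p * e q * I p q z) =
        ∑ p ∈ range (t + 1), ∑ q ∈ range (t + 1), e p * e q * (s z * I p q z) := by
      intro z
      rw [mul_sum]
      refine sum_congr rfl fun p _ => ?_
      rw [mul_sum]
      exact sum_congr rfl fun q _ => by ring
    have hb : ∀ p q, Bd fun z => e p * e q * (s z * I p q z) := fun p q =>
      (Bd.const _).mul (hs.mul (hI p q))
    simp only [h1]
    rw [integral_finsetSum _ fun p _ => (Bd.sum _ fun q _ => hb p q).integrable _, mul_sum]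
    refine sum_congr rfl fun p _ => ?_
    rw [integral_finsetSum _ fun q _ => (hb p q).integrable _, mul_sum]
    refine sum_congr rfl fun q _ => ?_
    rw [integral_const_mul]
    ring
  rw [key hI, key hJ]
  simp only [h]

theorem Form_eq (K : Ker σ g G v ε) (t : ℕ) (N : ℝ) {F : Finset X → ℝ} (hF : FB F) :
    Form σ t N g (fun S T => F S * F T) =
    ∑ l ∈ range (t + 1), ∑ p ∈ range (t + 1), ∑ q ∈ range (t + 1),
      N ^ l / (l.factorial : ℝ) * (N ^ p / (p.factorial : ℝ)) * (N ^ q / (q.factorial : ℝ)) *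
      ∫ z : Fin l → X, sf g z * ∫ a : Fin p → X, ∫ b : Fin q → X,
        Ph σ t N g F z a * Ph σ t N g F z b * HH g a b ∂(pim σ q) ∂(pim σ p) ∂(pim σ l) := by
  have hg : Bd fun p : X × X => g p.1 p.2 := K.bd
  unfold Form
  refine sum_congr rfl fun l _ => ?_
  have hpt : ∀ (p q : ℕ) (z : Fin l → X),
      ∫ a : Fin p → X, ∫ b : Fin q → X,
        (if l + p ≤ t ∧ l + q ≤ t then
          F (univ.image z ∪ univ.image a) * F (univ.image z ∪ univ.image b) else 0) *
        (sf g z * (cr g z a * sf g a) * (cr g z b * sf g b) * cr g a b)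
        ∂(pim σ q) ∂(pim σ p) =
      sf g z * ∫ a : Fin p → X, ∫ b : Fin q → X, ph t g F z a * ph t g F z b * cr g a b
        ∂(pim σ q) ∂(pim σ p) := by
    intro p q z
    rw [← integral_const_mul]
    refine integral_congr_ae (Filter.Eventually.of_forall fun a => ?_)
    simp only
    rw [← integral_const_mul]
    refine integral_congr_ae (Filter.Eventually.of_forall fun b => ?_)
    simp only [ph, Fintype.card_fin]
    by_cases h1 : l + p ≤ t
    · by_cases h2 : l + q ≤ t
      · simp only [h1, h2, and_self, if_true]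
        ring
      · simp only [h1, h2, and_false, if_false, if_true]
        ring
    · simp only [h1, false_and, if_false]
      ring
  simp only [hpt]
  have hI : ∀ p q : ℕ, Bd fun z : Fin l → X => ∫ a : Fin p → X, ∫ b : Fin q → X,
      ph t g F z a * ph t g F z b * cr g a b ∂(pim σ q) ∂(pim σ p) := by
    intro p q
    refine Bd_int2_16 (H := fun z a b => ph t g F z a * ph t g F z b * cr g a b) ?_
    have k1 : Measurable fun w : ((Fin l → X) × (Fin p → X)) × (Fin q → X) => (w.1.1, w.1.2) :=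
      (measurable_fst.comp measurable_fst).prodMk (measurable_snd.comp measurable_fst)
    have k2 : Measurable fun w : ((Fin l → X) × (Fin p → X)) × (Fin q → X) => (w.1.1, w.2) :=
      (measurable_fst.comp measurable_fst).prodMk measurable_snd
    have k3 : Measurable fun w : ((Fin l → X) × (Fin p → X)) × (Fin q → X) => (w.1.2, w.2) :=
      (measurable_snd.comp measurable_fst).prodMk measurable_snd
    exact (((Bd_ph (ι := Fin l) (κ := Fin p) t hg hF).comp k1).mul
      ((Bd_ph (ι := Fin l) (κ := Fin q) t hg hF).comp k2)).mul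
      ((Bd_cr (ι := Fin p) (κ := Fin q) hg).comp k3)
  have hJ : ∀ p q : ℕ, Bd fun z : Fin l → X => ∫ a : Fin p → X, ∫ b : Fin q → X,
      Ph σ t N g F z a * Ph σ t N g F z b * HH g a b ∂(pim σ q) ∂(pim σ p) := by
    intro p q
    refine Bd_int2_16 (H := fun z a b => Ph σ t N g F z a * Ph σ t N g F z b * HH g a b) ?_
    have k1 : Measurable fun w : ((Fin l → X) × (Fin p → X)) × (Fin q → X) => (w.1.1, w.1.2) :=
      (measurable_fst.comp measurable_fst).prodMk (measurable_snd.comp measurable_fst)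
    have k2 : Measurable fun w : ((Fin l → X) × (Fin p → X)) × (Fin q → X) => (w.1.1, w.2) :=
      (measurable_fst.comp measurable_fst).prodMk measurable_snd
    have k3 : Measurable fun w : ((Fin l → X) × (Fin p → X)) × (Fin q → X) => (w.1.2, w.2) :=
      (measurable_snd.comp measurable_fst).prodMk measurable_snd
    exact (((Bd_Ph (ι := Fin l) (κ := Fin p) σ t N hg hF).comp k1).mul
      ((Bd_Ph (ι := Fin l) (κ := Fin q) σ t N hg hF).comp k2)).mul
      ((Bd_HH (ι := Fin p) (κ := Fin q) hg).comp k3)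
  exact exch16 t (N ^ l / (l.factorial : ℝ)) 0 (fun p => N ^ p / (p.factorial : ℝ)) (Bd_sf hg)
    hI hJ fun z => expand K t N hF z

theorem term_zero16 (K : Ker σ g G v ε) {t : ℕ} {N : ℝ} {F : Finset X → ℝ} (hF : FB F) (l : ℕ) :
    N ^ l / (l.factorial : ℝ) * (N ^ 0 / ((0 : ℕ).factorial : ℝ)) *
      (N ^ 0 / ((0 : ℕ).factorial : ℝ)) *
      ∫ z : Fin l → X, sf g z * ∫ a : Fin 0 → X, ∫ b : Fin 0 → X,
        Ph σ t N g F z a * Ph σ t N g F z b * HH g a b ∂(pim σ 0) ∂(pim σ 0) ∂(pim σ l) =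
      YY σ t N g F l := by
  have h1 : ∀ (z : Fin l → X) (a : Fin 0 → X), Ph σ t N g F z a = XX σ t N g F z := by
    intro z a
    unfold Ph
    have e1 : cr g z a = 1 := by
      unfold cr
      simp
    have e2 : sf g a = 1 := by
      unfold sf
      simp
    have e3 : XX σ t N g F (Sum.elim z a) = XX σ t N g F z := by
      rw [← XX_equiv σ t N (Equiv.sumEmpty (Fin l) (Fin 0)) z]
      congr 1
      funext i
      rcases i with i | i
      · rfl
      · exact i.elim0
    rw [e1, e2, e3]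
    ring
  have h2 : ∀ z : Fin l → X, ∫ a : Fin 0 → X, ∫ b : Fin 0 → X,
        Ph σ t N g F z a * Ph σ t N g F z b * HH g a b ∂(pim σ 0) ∂(pim σ 0) =
        XX σ t N g F z ^ 2 := by
    intro z
    have h3 : ∀ (a b : Fin 0 → X), Ph σ t N g F z a * Ph σ t N g F z b * HH g a b =
        XX σ t N g F z ^ 2 := by
      intro a b
      rw [h1, h1, HH_zero]
      simp
      ring
    simp only [h3, integral_const, probReal_univ, one_smul]
  simp only [h2]
  unfold YY
  simp

theorem sum_YY_le16 {t : ℕ} {N : ℝ} (hN : 0 < N) {F : Finset X → ℝ} (l : ℕ) :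
    ∑ p ∈ range (t + 1), YY σ t N g F (l + p) ≤ ∑ m ∈ range (t + 1), YY σ t N g F m := by
  have h1 : ∑ p ∈ range (t + 1), YY σ t N g F (l + p) =
      ∑ m ∈ Ico l (l + (t + 1)), YY σ t N g F m := by
    rw [sum_Ico_eq_sum_range]
    congr 2
    omega
  rw [h1]
  have h2 : ∑ m ∈ Ico l (l + (t + 1)), YY σ t N g F m =
      ∑ m ∈ (Ico l (l + (t + 1))).filter (· ≤ t), YY σ t N g F m := by
    rw [sum_filter]
    refine sum_congr rfl fun m _ => ?_
    split_ifs with h
    · rfl
    · exact YY_of_lt (by omega)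
  rw [h2]
  refine sum_le_sum_of_subset_of_nonneg ?_ fun m _ _ => YY_nonneg hN m
  intro m hm
  rw [mem_filter] at hm
  rw [mem_range]
  omega

theorem Form_rank_one (K : Ker σ g G v ε) {t : ℕ} {N : ℝ} (hN : 0 < N) (hNv : 1 ≤ N * v) {δ : ℝ}
    (hδ : 0 ≤ δ) (hε : ε ≤ δ * v) {Mm : ℝ} (hMm : 0 ≤ Mm)
    (hM : ∀ p q, 1 ≤ p → p ≤ t → 1 ≤ q → q ≤ t → MM G δ q p ≤ Mm)
    (hnum : ((t : ℝ) + 1) ^ 2 * 2 ^ t * G ^ (t ^ 2) * (N * v) ^ t * Mm ≤ 1)
    {F : Finset X → ℝ} (hF : FB F) : 0 ≤ Form σ t N g (fun S T => F S * F T) := by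
  rw [Form_eq K t N hF]
  have hG0 : 0 ≤ G := by
    have := K.one_le
    linarith
  have hNv0 : 0 ≤ N * v := by linarith
  set κ : ℝ := (N * v) ^ t * Mm * G ^ (t ^ 2) * 2 ^ t with hκ
  have hκ0 : 0 ≤ κ := by positivity
  have hY : ∀ m, 0 ≤ YY σ t N g F m := fun m => YY_nonneg hN m
  have hterm : ∀ l, ∀ p ∈ range (t + 1), ∀ q ∈ range (t + 1),
      (if p = 0 ∧ q = 0 then YY σ t N g F l else 0) -
        κ * ((YY σ t N g F (l + p) + YY σ t N g F (l + q)) / 2) ≤
      N ^ l / (l.factorial : ℝ) * (N ^ p / (p.factorial : ℝ)) * (N ^ q / (q.factorial : ℝ)) *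
      ∫ z : Fin l → X, sf g z * ∫ a : Fin p → X, ∫ b : Fin q → X,
        Ph σ t N g F z a * Ph σ t N g F z b * HH g a b ∂(pim σ q) ∂(pim σ p) ∂(pim σ l) := by
    intro l p hp q hq
    rw [mem_range] at hp hq
    have hnn : 0 ≤ κ * ((YY σ t N g F (l + p) + YY σ t N g F (l + q)) / 2) :=
      mul_nonneg hκ0 (by have := hY (l + p); have := hY (l + q); linarith)
    rcases p with _ | p
    · rcases q with _ | q
      · rw [term_zero16 K hF l]
        simp only [and_self, if_true]
        linarith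
      · have h0 : ∀ (a : Fin 0 → X) (b : Fin (q + 1) → X), HH g a b = 0 := fun a b =>
          HH_empty g (by simp) a b
        simp only [h0, mul_zero, integral_zero]
        rw [if_neg (by omega)]
        linarith
    · rcases q with _ | q
      · have h0 : ∀ (a : Fin (p + 1) → X) (b : Fin 0 → X), HH g a b = 0 := by
          intro a b
          rw [HH_zero]
          simp
        simp only [h0, mul_zero, integral_zero]
        rw [if_neg (by omega)]
        linarith
      · rw [if_neg (by omega), zero_sub]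
        have h1 := term_le (t := t) K hN hNv hδ hε hF (p := p + 1) (q := q + 1) l (by omega) (by omega)
        have hc : 0 ≤ N ^ l / (l.factorial : ℝ) * (N ^ (p + 1) / ((p + 1).factorial : ℝ)) *
            (N ^ (q + 1) / ((q + 1).factorial : ℝ)) := by positivity
        have h2 := hM (p + 1) (q + 1) (by omega) (by omega) (by omega) (by omega)
        have h3 : (N * v) ^ t * MM G δ (q + 1) (p + 1) * G ^ (t ^ 2) * 2 ^ t *
            ((YY σ t N g F (l + (p + 1)) + YY σ t N g F (l + (q + 1))) / 2) ≤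
            κ * ((YY σ t N g F (l + (p + 1)) + YY σ t N g F (l + (q + 1))) / 2) := by
          have h4 : 0 ≤ (YY σ t N g F (l + (p + 1)) + YY σ t N g F (l + (q + 1))) / 2 := by
            have := hY (l + (p + 1)); have := hY (l + (q + 1)); linarith
          rw [hκ]
          gcongr
        have h5 := neg_abs_le (∫ z : Fin l → X, sf g z * ∫ a : Fin (p + 1) → X,
          ∫ b : Fin (q + 1) → X, Ph σ t N g F z a * Ph σ t N g F z b * HH g a b
            ∂(pim σ (q + 1)) ∂(pim σ (p + 1)) ∂(pim σ l))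
        have h6 := mul_le_mul_of_nonneg_left h5 hc
        linarith
  have hsum := sum_le_sum fun l (_ : l ∈ range (t + 1)) => sum_le_sum fun p hp =>
    sum_le_sum fun q hq => hterm l p hp q hq
  refine le_trans ?_ hsum
  set S : ℝ := ∑ m ∈ range (t + 1), YY σ t N g F m with hS
  have hS0 : 0 ≤ S := sum_nonneg fun m _ => hY m
  have e1 : ∀ l, ∑ p ∈ range (t + 1), ∑ q ∈ range (t + 1),
      ((if p = 0 ∧ q = 0 then YY σ t N g F l else 0) -
        κ * ((YY σ t N g F (l + p) + YY σ t N g F (l + q)) / 2)) =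
      YY σ t N g F l - κ * (((t : ℝ) + 1) * ∑ p ∈ range (t + 1), YY σ t N g F (l + p)) := by
    intro l
    simp only [sum_sub_distrib]
    congr 1
    · rw [sum_eq_single 0, sum_eq_single 0]
      · simp
      · intro q _ hq
        simp [hq]
      · simp
      · intro p _ hp
        simp [hp]
      · simp
    · simp only [← mul_sum]
      congr 1
      simp only [← sum_div, sum_add_distrib, sum_const, card_range, nsmul_eq_mul]
      rw [← mul_sum]
      push_cast
      ring
  simp only [e1]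
  rw [sum_sub_distrib, ← mul_sum, ← mul_sum]
  have h1 : ∑ l ∈ range (t + 1), ∑ p ∈ range (t + 1), YY σ t N g F (l + p) ≤
      ((t : ℝ) + 1) * S := by
    calc ∑ l ∈ range (t + 1), ∑ p ∈ range (t + 1), YY σ t N g F (l + p) ≤
        ∑ _l ∈ range (t + 1), S := sum_le_sum fun l _ => sum_YY_le16 hN l
      _ = ((t : ℝ) + 1) * S := by
        rw [sum_const, card_range, nsmul_eq_mul]
        push_cast
        ring
  have h2 : κ * (((t : ℝ) + 1) * ∑ l ∈ range (t + 1), ∑ p ∈ range (t + 1),
      YY σ t N g F (l + p)) ≤ κ * (((t : ℝ) + 1) * (((t : ℝ) + 1) * S)) := by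
    gcongr
  have h3 : κ * (((t : ℝ) + 1) * (((t : ℝ) + 1) * S)) =
      (((t : ℝ) + 1) ^ 2 * 2 ^ t * G ^ (t ^ 2) * (N * v) ^ t * Mm) * S := by
    rw [hκ]
    ring
  have h4 : (((t : ℝ) + 1) ^ 2 * 2 ^ t * G ^ (t ^ 2) * (N * v) ^ t * Mm) * S ≤ 1 * S :=
    mul_le_mul_of_nonneg_right hnum hS0
  change 0 ≤ S - _
  linarith

end Pool.Agent.Helper47.LB
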