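import Pool.Agent.Helper47.LB.Nik
import Pool.Agent.Helper47.LB.Dual

/-!
BLOCK LB-T. Size of the polynomial `q`.

Let `v' = ∫_{1/2}^1 wt D`, `Q = ∫_{-b}^b q² wt D`. By `hq` with `f = q`,
`Q = ∫_{1/2}^1 q wt D ≤ √v' * √(∫_{1/2}^1 q² wt D)` (Cauchy-Schwarz), and by `remez_point` applied
to `q²` (degree `≤ 2 n ≤ (2 β) D`), `∫_{1/2}^1 q² wt D ≤ (C₀ θ₀^D / 2) * Q`. So
`Q² ≤ v' (C₀ θ₀^D / 2) Q`, `Q ≤ v' * (C₀ / 2) θ₀^D`. This is the first claim (any `C ≥ C₀/2`,
`θ ≥ θ₀`). For the second: by `nikolskii` applied to `q²`, `q(t)² ≤ 6 (2n+1)² / b * ∫_{-b}^b q²`,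
`∫_{-b}^b q² ≤ Q / wt D b` (`wt D` is at least `wt D b` on `[-b, b]`), and
`v' ≤ (1/2) wt D (1/2) ≤ (1/2) wt D b` as `b < 1/2`. So
`q(t)² ≤ 6 (2n+1)² / b * (C₀ / 4) θ₀^D`: take `θ = √θ₀`.
-/

set_option autoImplicit false

open MeasureTheory Set Polynomial

namespace Pool.Agent.Helper47.LB

open Pool.Agent.Helper47.KP (wt Par)

theorem q_small {A b : ℝ} (h : Par A b) (hb2 : b < 1 / 2) {β : ℝ} (hβ0 : 0 ≤ β)
    (hβ : 2 * β < 2 / (A ^ 2 - 1)) :
    ∃ C θ : ℝ, 0 < C ∧ 0 < θ ∧ θ < 1 ∧ ∀ (D n : ℕ) (q : ℝ[X]), 1 ≤ D → 1 ≤ n →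
      (n : ℝ) ≤ β * D → q.natDegree ≤ n →
      (∀ f : ℝ[X], f.natDegree ≤ n → ∫ t in (-b)..b, q.eval t * (f.eval t * wt D t) =
        ∫ t in (1 / 2 : ℝ)..1, f.eval t * wt D t) →
      ∫ t in (-b)..b, q.eval t ^ 2 * wt D t ≤ C * θ ^ D * ∫ t in (1 / 2 : ℝ)..1, wt D t ∧
      ∀ t : ℝ, |t| ≤ b → |q.eval t| ≤ C * (2 * n + 1) * θ ^ D := by
  obtain ⟨C₀, θ₀, hC₀, hθ₀, hθ₁, hrem⟩ := Pool.Agent.Helper47.KP.remez_point h hb2 hβ
  have hb := h.b_pos
  have hb1 := h.b_lt
  have hsq0 : 0 < Real.sqrt θ₀ := Real.sqrt_pos.2 hθ₀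
  have hsq1 : Real.sqrt θ₀ < 1 := by
    rw [Real.sqrt_lt' one_pos]; simpa using hθ₁
  have hθle : θ₀ ≤ Real.sqrt θ₀ := by
    nlinarith [Real.mul_self_sqrt hθ₀.le]
  set K : ℝ := Real.sqrt (3 * C₀ / (2 * b)) with hK
  have hK0 : 0 ≤ K := Real.sqrt_nonneg _
  have hK2 : K ^ 2 = 3 * C₀ / (2 * b) := Real.sq_sqrt (by positivity)
  refine ⟨C₀ / 2 + K, Real.sqrt θ₀, by positivity, hsq0, hsq1, ?_⟩
  intro D n q hD hn hnβ hdeg hq
  have hdeg2 : (q ^ 2).natDegree ≤ 2 * n := by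
    refine (natDegree_pow_le).trans ?_
    gcongr
  have hcw := Pool.Agent.Helper47.KP.continuous_wt D
  have hwn := Pool.Agent.Helper47.KP.wt_nonneg D
  set r : ℝ := C₀ * θ₀ ^ D with hr
  have hr0 : 0 < r := by positivity
  set Q : ℝ := ∫ t in (-b)..b, q.eval t ^ 2 * wt D t with hQ
  set v : ℝ := ∫ t in (1 / 2 : ℝ)..1, wt D t with hv
  have hv0 : 0 ≤ v := intervalIntegral.integral_nonneg (by norm_num) fun t _ => hwn t
  have hQ0 : 0 ≤ Q := intervalIntegral.integral_nonneg (by linarith)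
    fun t _ => mul_nonneg (sq_nonneg _) (hwn t)
  have hQe : Q = ∫ t in (1 / 2 : ℝ)..1, q.eval t * wt D t := by
    rw [← hq q hdeg, hQ]
    apply intervalIntegral.integral_congr
    intro t _
    simp only
    ring
  -- pointwise bound on [1/2, 1]
  have hpt : ∀ t : ℝ, 1 / 2 ≤ t → t ≤ 1 → q.eval t ^ 2 * wt D t ≤ r * Q := by
    intro t ht1 ht2
    have h1 := hrem D (2 * n) (q ^ 2) hD (by push_cast; nlinarith) hdeg2 t ht1 ht2
    have e1 : ∀ s : ℝ, |(q ^ 2).eval s| = q.eval s ^ 2 := fun s => by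
      rw [eval_pow, abs_of_nonneg (sq_nonneg _)]
    simp only [e1] at h1
    exact h1
  have hint : ∫ t in (1 / 2 : ℝ)..1, q.eval t ^ 2 * wt D t ≤ r / 2 * Q := by
    have h1 : ∫ t in (1 / 2 : ℝ)..1, q.eval t ^ 2 * wt D t ≤ ∫ _ in (1 / 2 : ℝ)..1, r * Q := by
      apply intervalIntegral.integral_mono_on (by norm_num)
      · exact Continuous.intervalIntegrable (by fun_prop) _ _
      · exact intervalIntegrable_const
      · intro t ht
        exact hpt t ht.1 ht.2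
    rw [intervalIntegral.integral_const] at h1
    norm_num at h1
    linarith
  have hQv : Q ≤ r / 2 * v := by
    have h1 : Q ≤ 1 / r * (∫ t in (1 / 2 : ℝ)..1, q.eval t ^ 2 * wt D t) + r / 4 * v := by
      rw [hQe, hv, ← intervalIntegral.integral_const_mul, ← intervalIntegral.integral_const_mul,
        ← intervalIntegral.integral_add (Continuous.intervalIntegrable (by fun_prop) _ _)
          (Continuous.intervalIntegrable (by fun_prop) _ _)]
      apply intervalIntegral.integral_mono_on (by norm_num)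
      · exact Continuous.intervalIntegrable (by fun_prop) _ _
      · exact Continuous.intervalIntegrable (by fun_prop) _ _
      · intro t _
        have h2 : q.eval t ≤ 1 / r * q.eval t ^ 2 + r / 4 := by
          have h3 : 0 ≤ 1 / r * (q.eval t - r / 2) ^ 2 := by positivity
          have h4 : 1 / r * (q.eval t - r / 2) ^ 2 = 1 / r * q.eval t ^ 2 + r / 4 - q.eval t := by
            field_simp
            ring
          linarith
        have h5 := mul_le_mul_of_nonneg_right h2 (hwn t)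
        calc q.eval t * wt D t ≤ (1 / r * q.eval t ^ 2 + r / 4) * wt D t := h5
          _ = 1 / r * (q.eval t ^ 2 * wt D t) + r / 4 * wt D t := by ring
    have h2 : 1 / r * (∫ t in (1 / 2 : ℝ)..1, q.eval t ^ 2 * wt D t) ≤ 1 / r * (r / 2 * Q) := by
      gcongr
    have h3 : 1 / r * (r / 2 * Q) = Q / 2 := by field_simp
    linarith
  have hD0 : (0 : ℝ) ≤ θ₀ ^ D := by positivity
  have hpow : θ₀ ^ D ≤ Real.sqrt θ₀ ^ D := by gcongr
  refine ⟨?_, ?_⟩
  · calc Q ≤ r / 2 * v := hQv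
      _ = (C₀ / 2) * θ₀ ^ D * v := by rw [hr]; ring
      _ ≤ (C₀ / 2 + K) * Real.sqrt θ₀ ^ D * v := by
        gcongr
        linarith
  · intro t ht
    have hbb : |b| < 1 := by rw [abs_of_pos hb]; exact hb1
    have hwb := Pool.Agent.Helper47.KP.wt_pos (D := D) hbb
    have hmono : ∀ s : ℝ, |s| ≤ b → wt D b ≤ wt D s := by
      intro s hs
      unfold wt
      have h1 : s ^ 2 ≤ b ^ 2 := by
        rw [← sq_abs s]
        gcongr
      gcongr
    have hv2 : v ≤ 1 / 2 * wt D b := by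
      have h1 : v ≤ ∫ _ in (1 / 2 : ℝ)..1, wt D b := by
        apply intervalIntegral.integral_mono_on (by norm_num)
        · exact hcw.intervalIntegrable _ _
        · exact intervalIntegrable_const
        · intro s hs
          unfold wt
          have h2 : b ^ 2 ≤ s ^ 2 := by
            have := hs.1
            gcongr
            linarith
          gcongr
      rw [intervalIntegral.integral_const] at h1
      norm_num at h1
      linarith
    have hI : wt D b * ∫ s in (-b)..b, q.eval s ^ 2 ≤ Q := by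
      rw [hQ, ← intervalIntegral.integral_const_mul]
      apply intervalIntegral.integral_mono_on (by linarith)
      · exact Continuous.intervalIntegrable (by fun_prop) _ _
      · exact Continuous.intervalIntegrable (by fun_prop) _ _
      · intro s hs
        rw [mul_comm]
        exact mul_le_mul_of_nonneg_left (hmono s (abs_le.2 hs)) (sq_nonneg _)
    have hI2 : ∫ s in (-b)..b, q.eval s ^ 2 ≤ r / 4 := by
      have h1 : wt D b * (∫ s in (-b)..b, q.eval s ^ 2) ≤ wt D b * (r / 4) := by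
        calc wt D b * (∫ s in (-b)..b, q.eval s ^ 2) ≤ Q := hI
          _ ≤ r / 2 * v := hQv
          _ ≤ r / 2 * (1 / 2 * wt D b) := by gcongr
          _ = wt D b * (r / 4) := by ring
      exact le_of_mul_le_mul_left h1 hwb
    have hnik := nikolskii h (by omega : 1 ≤ 2 * n) hdeg2 ht
    have e1 : ∀ s : ℝ, |(q ^ 2).eval s| = q.eval s ^ 2 := fun s => by
      rw [eval_pow, abs_of_nonneg (sq_nonneg _)]
    simp only [e1] at hnik
    push_cast at hnik
    have hfin : q.eval t ^ 2 ≤ ((2 * n + 1) * K * Real.sqrt θ₀ ^ D) ^ 2 := by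
      calc q.eval t ^ 2 ≤ 6 * ((2 * (n : ℝ)) + 1) ^ 2 / b * ∫ s in (-b)..b, q.eval s ^ 2 := hnik
        _ ≤ 6 * ((2 * (n : ℝ)) + 1) ^ 2 / b * (r / 4) := by gcongr
        _ = (2 * n + 1) ^ 2 * (3 * C₀ / (2 * b)) * θ₀ ^ D := by rw [hr]; field_simp; ring
        _ = ((2 * n + 1) * K * Real.sqrt θ₀ ^ D) ^ 2 := by
          rw [mul_pow, mul_pow, hK2, ← pow_mul, mul_comm D 2, pow_mul, Real.sq_sqrt hθ₀.le]
    have h6 := abs_le_of_sq_le_sq hfin (by positivity)
    calc |q.eval t| ≤ (2 * n + 1) * K * Real.sqrt θ₀ ^ D := h6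
      _ = K * (2 * n + 1) * Real.sqrt θ₀ ^ D := by ring
      _ ≤ (C₀ / 2 + K) * (2 * n + 1) * Real.sqrt θ₀ ^ D := by
        gcongr
        linarith

end Pool.Agent.Helper47.LB
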