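import Pool.Agent.Helper47.LB.N2

/-!
BLOCK LB-E. The norm of a star.

Transport to `ι = Fin (p + 1)` (`NB.equiv` with `MeasurableEquiv.piCongrLeft` and
`measurePreserving_piCongrLeft`, or `MeasurableEquiv.arrowCongr'`-type equivalences; the second
equivalence is `MeasurableEquiv.refl`), then induction on `p`.
`p = 0`: `Fin 1 → X` is `X` (`MeasurableEquiv.funUnique`, `measurePreserving_funUnique`), and this
is `K.op`. Step: `Fin (p + 2) → X` is `X × (Fin (p + 1) → X)`
(`MeasurableEquiv.piFinSuccAbove`, `measurePreserving_piFinSuccAbove`); use `NB.fib` with the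
roles of the two sides exchanged (`NB.swap`): `Y = X` (the centre), `Z = Fin (p+1) → X`, `T = X`
(the new leaf), `k y t = g t y - 1`, `κ = √v` by `K.var` and `K.symm`.
-/

set_option autoImplicit false

open MeasureTheory Finset

namespace Pool.Agent.Helper47.LB

open Pool.Agent.Helper47.KP (Bd pim)

variable {X : Type} [MeasurableSpace X] {σ : Measure X} [IsProbabilityMeasure σ]
  {g : X → X → ℝ} {G v ε : ℝ}

lemma star_Bd (K : Ker σ g G v ε) : Bd fun q : X × X => g q.1 q.2 - 1 :=
  ⟨K.meas.sub measurable_const, 1, fun q => K.abs_sub q.1 q.2⟩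

lemma star_Bd_prod (K : Ker σ g G v ε) (ι : Type) [Fintype ι] :
    Bd fun q : (ι → X) × X => ∏ i, (g (q.1 i) q.2 - 1) :=
  Bd.prod _ fun i _ => (star_Bd K).comp (g := fun q : (ι → X) × X => (q.1 i, q.2))
    (((measurable_pi_apply i).comp measurable_fst).prodMk measurable_snd)

lemma star_fin (K : Ker σ g G v ε) : ∀ p : ℕ,
    NB (pis σ (Fin (p + 1))) σ (fun a y => ∏ i, (g (a i) y - 1)) (ε * √v ^ p) := by
  intro p
  induction p with
  | zero =>
    have h := NB.equiv (MeasurableEquiv.funUnique (Fin 1) X)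
      (measurePreserving_funUnique σ (Fin 1)) (MeasurableEquiv.refl X)
      (MeasurePreserving.id σ) K.op
    rw [pow_zero, mul_one]
    refine h.congr fun a y => ?_
    simp [MeasurableEquiv.funUnique]
  | succ p ih =>
    have hC : 0 ≤ ε * √v ^ p := mul_nonneg K.ε0 (pow_nonneg (Real.sqrt_nonneg _) _)
    have h1 : NB σ (pis σ (Fin (p + 1))) (fun y a => ∏ i, (g (a i) y - 1)) (ε * √v ^ p) :=
      NB.swap (star_Bd_prod K (Fin (p + 1))) ih
    have hB : Bd fun q : X × (Fin (p + 1) → X) => ∏ i, (g (q.2 i) q.1 - 1) :=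
      (star_Bd_prod K (Fin (p + 1))).comp (g := fun q : X × (Fin (p + 1) → X) => (q.2, q.1))
        (measurable_snd.prodMk measurable_fst)
    have hk : Bd fun q : X × X => g q.2 q.1 - 1 :=
      (star_Bd K).comp (g := fun q : X × X => (q.2, q.1)) (measurable_snd.prodMk measurable_fst)
    have hk2 : ∀ y, ∫ t, (g t y - 1) ^ 2 ∂σ ≤ √v ^ 2 := by
      intro y
      rw [Real.sq_sqrt K.v0.le]
      simp only [K.symm _ y]
      exact K.var y
    have h2 := NB.fib σ hB h1 hC (k := fun y t => g t y - 1) hk (Real.sqrt_nonneg v) hk2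
    have h3 : NB (σ.prod (pis σ (Fin (p + 1)))) σ
        (fun q y => (g q.1 y - 1) * ∏ i, (g (q.2 i) y - 1)) (ε * √v ^ p * √v) := by
      refine NB.swap (H := fun y (q : X × (Fin (p + 1) → X)) =>
        (g q.1 y - 1) * ∏ i, (g (q.2 i) y - 1)) ?_ h2
      exact (hk.comp (g := fun r : X × (X × (Fin (p + 1) → X)) => (r.1, r.2.1))
        (by fun_prop)).mul (hB.comp (g := fun r : X × (X × (Fin (p + 1) → X)) => (r.1, r.2.2))
        (by fun_prop))
    have h4 := NB.equiv (MeasurableEquiv.piFinSuccAbove (fun _ : Fin (p + 2) => X) 0)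
      (measurePreserving_piFinSuccAbove (fun _ : Fin (p + 2) => σ) 0) (MeasurableEquiv.refl X)
      (MeasurePreserving.id σ) h3
    rw [pow_succ, ← mul_assoc]
    refine h4.congr fun a y => ?_
    rw [Fin.prod_univ_succ]
    rfl

theorem star_NB (K : Ker σ g G v ε) (p : ℕ) (ι : Type) [Fintype ι]
    (hι : Fintype.card ι = p + 1) :
    NB (pis σ ι) σ (fun a y => ∏ i, (g (a i) y - 1)) (ε * √v ^ p) := by
  have e : ι ≃ Fin (p + 1) := Fintype.equivFinOfCardEq hι
  have h := NB.equiv (MeasurableEquiv.piCongrLeft (fun _ : Fin (p + 1) => X) e)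
    (measurePreserving_piCongrLeft (fun _ : Fin (p + 1) => σ) e) (MeasurableEquiv.refl X)
    (MeasurePreserving.id σ) (star_fin K p)
  refine h.congr fun a y => ?_
  rw [← Equiv.prod_comp e]
  refine Finset.prod_congr rfl fun i _ => ?_
  have h1 : (MeasurableEquiv.piCongrLeft (fun _ : Fin (p + 1) => X) e) a (e i) = a i :=
    Equiv.piCongrLeft_apply_apply (fun _ : Fin (p + 1) => X) e a i
  rw [h1]
  rfl

end Pool.Agent.Helper47.LB
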