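import Pool.Agent.Helper47.LB.Alg

/-!
BLOCK LB-P. Truncation to separated sets of at most `t` points; measurability.

`meas_of_inj`: split `Fin m → X` according to the set `I` of the first occurrences,
`I = {i | ∀ j < i, z j ≠ z i}` (measurable for each value `I`, because the diagonal is
measurable); on the piece of `I` the set `univ.image z` is `univ.image (z ∘ I.orderEmbOfFin rfl)`
and `z ∘ I.orderEmbOfFin` is injective.

`trunc_bd`: for injective tuples `z, w` with `p, q ≤ t`, `SepS R t (univ.image z)` is
`z ∈ SepT R p` (`R` is irreflexive, so `z ∈ SepT` implies that `z` is injective; an injective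
tuple of `p > t` points has `card = p > t`). So on injective tuples
`trunc R t K (im z) (im w)` is the indicator of the closed (compact) set `SepT p ×ˢ SepT q` times a
function continuous on it: measurable and bounded. For general tuples: the image is also the
image of an injective tuple.
-/

set_option autoImplicit false

open MeasureTheory Finset

namespace Pool.Agent.Helper47.LB

open Pool.Agent.Helper47.KP (Bd pim)

section

variable {X : Type}

/-- separated finite sets of at most `t` points -/
def SepS (R : X → X → Prop) (t : ℕ) (S : Finset X) : Prop :=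
  S.card ≤ t ∧ ∀ x ∈ S, ∀ y ∈ S, x ≠ y → R x y

/-- separated tuples -/
def SepT (R : X → X → Prop) (m : ℕ) : Set (Fin m → X) := {z | ∀ a b, a ≠ b → R (z a) (z b)}

open Classical in
/-- truncation of a kernel to separated sets -/
noncomputable def trunc (R : X → X → Prop) (t : ℕ) (K : Finset X → Finset X → ℝ)
    (S T : Finset X) : ℝ :=
  if SepS R t S ∧ SepS R t T then K S T else 0

/-- the assumptions on the kernel of a feasible solution -/
structure PK [TopologicalSpace X] [DecidableEq X] (R : X → X → Prop) (t : ℕ)
    (K : Finset X → Finset X → ℝ) : Prop where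
  cont : ∀ p q, p ≤ t → q ≤ t → ContinuousOn
    (fun w : (Fin p → X) × (Fin q → X) => K (univ.image w.1) (univ.image w.2))
    (SepT R p ×ˢ SepT R q)
  symm : ∀ S T, SepS R t S → SepS R t T → K S T = K T S
  psd : ∀ (n : ℕ) (S : Fin n → Finset X) (c : Fin n → ℝ), (∀ i, SepS R t (S i)) →
    0 ≤ ∑ i, ∑ j, c i * c j * K (S i) (S j)

/-- the set of first occurrences -/
def fo [DecidableEq X] {m : ℕ} (z : Fin m → X) : Finset (Fin m) :=
  univ.filter fun i => ∀ j, j < i → z j ≠ z i

lemma mem_fo [DecidableEq X] {m : ℕ} (z : Fin m → X) (i : Fin m) :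
    i ∈ fo z ↔ ∀ j, j < i → z j ≠ z i := by
  unfold fo
  simp

lemma fo_inj [DecidableEq X] {m : ℕ} (z : Fin m → X) :
    Function.Injective (fun i => z ((fo z).orderEmbOfFin rfl i)) := by
  intro i j hij
  have key : ∀ i j, i < j → z ((fo z).orderEmbOfFin rfl i) ≠ z ((fo z).orderEmbOfFin rfl j) := by
    intro i j hij
    have h1 := Finset.orderEmbOfFin_mem (fo z) rfl j
    rw [mem_fo] at h1
    exact h1 _ ((OrderEmbedding.lt_iff_lt _).2 hij)
  rcases lt_trichotomy i j with h | h | h
  · exact absurd hij (key i j h)
  · exact h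
  · exact absurd hij.symm (key j i h)

lemma fo_image [DecidableEq X] {m : ℕ} (z : Fin m → X) :
    (univ.image fun i => z ((fo z).orderEmbOfFin rfl i)) = univ.image z := by
  classical
  ext x
  simp only [mem_image, mem_univ, true_and]
  constructor
  · rintro ⟨i, rfl⟩
    exact ⟨_, rfl⟩
  · rintro ⟨i, rfl⟩
    have hne : (univ.filter fun k => z k = z i).Nonempty := ⟨i, by simp⟩
    set k := (univ.filter fun k => z k = z i).min' hne with hk
    have hk1 : z k = z i := by
      have := (univ.filter fun k => z k = z i).min'_mem hne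
      rw [mem_filter] at this
      exact this.2
    have hk2 : k ∈ fo z := by
      rw [mem_fo]
      intro j hj h
      have h3 : j ∈ univ.filter fun k => z k = z i := by
        rw [mem_filter]
        exact ⟨mem_univ _, h.trans hk1⟩
      exact absurd hj (not_lt.2 ((univ.filter fun k => z k = z i).min'_le j h3))
    have hr := Finset.range_orderEmbOfFin (fo z) rfl
    have h4 : k ∈ Set.range ((fo z).orderEmbOfFin rfl) := by
      rw [hr]
      exact hk2
    obtain ⟨a, ha⟩ := h4
    exact ⟨a, by rw [ha, hk1]⟩

lemma measurableSet_fo [MeasurableSpace X] [DecidableEq X]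
    (hd : MeasurableSet {p : X × X | p.1 = p.2}) (m : ℕ) (I : Finset (Fin m)) :
    MeasurableSet {z : Fin m → X | fo z = I} := by
  have e : {z : Fin m → X | fo z = I} = ⋂ i : Fin m,
      {z | (i ∈ fo z) ↔ i ∈ I} := by
    ext z
    rw [Set.mem_iInter]
    exact Finset.ext_iff
  rw [e]
  refine MeasurableSet.iInter fun i => ?_
  have h1 : MeasurableSet {z : Fin m → X | i ∈ fo z} := by
    have e2 : {z : Fin m → X | i ∈ fo z} = ⋂ j : Fin m, ⋂ (_ : j < i),
        ((fun z : Fin m → X => (z j, z i)) ⁻¹' {p : X × X | p.1 = p.2})ᶜ := by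
      ext z
      simp [mem_fo]
    rw [e2]
    refine MeasurableSet.iInter fun j => MeasurableSet.iInter fun _ => MeasurableSet.compl ?_
    exact ((measurable_pi_apply j).prodMk (measurable_pi_apply i)) hd
  by_cases hi : i ∈ I
  · simpa [hi] using h1
  · have e3 : {z : Fin m → X | (i ∈ fo z) ↔ i ∈ I} = {z : Fin m → X | i ∈ fo z}ᶜ := by
      ext z
      simp [hi]
    rw [e3]
    exact h1.compl

theorem meas_of_inj [MeasurableSpace X] [DecidableEq X]
    (hd : MeasurableSet {p : X × X | p.1 = p.2}) {F : Finset X → ℝ}
    (h : ∀ m : ℕ, Measurable (fun z : Fin m → X =>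
      if Function.Injective z then F (univ.image z) else 0)) (m : ℕ) :
    Measurable (fun z : Fin m → X => F (univ.image z)) := by
  classical
  have e : (fun z : Fin m → X => F (univ.image z)) = fun z => ∑ I : Finset (Fin m),
      ({z : Fin m → X | fo z = I}.indicator (fun z =>
        if Function.Injective (fun i => z (I.orderEmbOfFin rfl i)) then
          F (univ.image fun i => z (I.orderEmbOfFin rfl i)) else 0)) z := by
    funext z
    rw [Finset.sum_eq_single (fo z)]
    · rw [Set.indicator_of_mem (by simp), if_pos (fo_inj z), fo_image z]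
    · intro I _ hI
      exact Set.indicator_of_notMem (by simpa using hI.symm) _
    · simp
  rw [e]
  refine Finset.measurable_sum _ fun I _ => Measurable.indicator ?_ (measurableSet_fo hd m I)
  have hm : Measurable (fun z : Fin m → X => fun i => z (I.orderEmbOfFin rfl i)) :=
    measurable_pi_iff.2 fun i => measurable_pi_apply _
  exact (h I.card).comp hm

theorem meas_of_inj2 [MeasurableSpace X] [DecidableEq X]
    (hd : MeasurableSet {p : X × X | p.1 = p.2}) {K : Finset X → Finset X → ℝ}
    (h : ∀ p q : ℕ, Measurable (fun w : (Fin p → X) × (Fin q → X) =>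
      if Function.Injective w.1 ∧ Function.Injective w.2 then
        K (univ.image w.1) (univ.image w.2) else 0)) (p q : ℕ) :
    Measurable (fun w : (Fin p → X) × (Fin q → X) => K (univ.image w.1) (univ.image w.2)) := by
  classical
  have e : (fun w : (Fin p → X) × (Fin q → X) => K (univ.image w.1) (univ.image w.2)) =
      fun w => ∑ I : Finset (Fin p), ∑ J : Finset (Fin q),
      ({w : (Fin p → X) × (Fin q → X) | fo w.1 = I ∧ fo w.2 = J}.indicator (fun w =>
        if Function.Injective (fun i => w.1 (I.orderEmbOfFin rfl i)) ∧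
            Function.Injective (fun i => w.2 (J.orderEmbOfFin rfl i)) then
          K (univ.image fun i => w.1 (I.orderEmbOfFin rfl i))
            (univ.image fun i => w.2 (J.orderEmbOfFin rfl i)) else 0)) w := by
    funext w
    rw [Finset.sum_eq_single (fo w.1), Finset.sum_eq_single (fo w.2)]
    · rw [Set.indicator_of_mem (by simp), if_pos ⟨fo_inj w.1, fo_inj w.2⟩, fo_image w.1,
        fo_image w.2]
    · intro J _ hJ
      exact Set.indicator_of_notMem (fun h => hJ h.2.symm) _
    · simp
    · intro I _ hI
      exact Finset.sum_eq_zero fun J _ => Set.indicator_of_notMem (fun h => hI h.1.symm) _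
    · simp
  rw [e]
  refine Finset.measurable_sum _ fun I _ => Finset.measurable_sum _ fun J _ =>
    Measurable.indicator ?_ ?_
  · have hm : Measurable (fun w : (Fin p → X) × (Fin q → X) =>
        ((fun i => w.1 (I.orderEmbOfFin rfl i) : Fin I.card → X),
          (fun i => w.2 (J.orderEmbOfFin rfl i) : Fin J.card → X))) :=
      (measurable_pi_iff.2 fun i => (measurable_pi_apply _).comp measurable_fst).prodMk
        (measurable_pi_iff.2 fun i => (measurable_pi_apply _).comp measurable_snd)
    exact (h I.card J.card).comp hm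
  · exact (measurable_fst (measurableSet_fo hd p I)).inter
      (measurable_snd (measurableSet_fo hd q J))

end

section

variable {X : Type} [MetricSpace X] [CompactSpace X] [MeasurableSpace X] [BorelSpace X]
  [DecidableEq X] {R : X → X → Prop} {t : ℕ} {K : Finset X → Finset X → ℝ}

omit [CompactSpace X] [MeasurableSpace X] [BorelSpace X] [DecidableEq X] in
theorem isClosed_SepT (hR : IsClosed {p : X × X | R p.1 p.2}) (m : ℕ) : IsClosed (SepT R m) := by
  have e : SepT R m = ⋂ a : Fin m, ⋂ b : Fin m, ⋂ (_ : a ≠ b),
      (fun z : Fin m → X => (z a, z b)) ⁻¹' {p : X × X | R p.1 p.2} := by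
    ext z
    simp [SepT]
  rw [e]
  refine isClosed_iInter fun a => isClosed_iInter fun b => isClosed_iInter fun _ =>
    hR.preimage ?_
  exact (continuous_apply a).prodMk (continuous_apply b)

omit [MetricSpace X] [CompactSpace X] [MeasurableSpace X] [BorelSpace X] in
/-- a separated set is the image of a separated tuple -/
theorem exists_tuple {S : Finset X} (hS : SepS R t S) :
    ∃ p : ℕ, p ≤ t ∧ ∃ z : Fin p → X, z ∈ SepT R p ∧ univ.image z = S := by
  refine ⟨S.card, hS.1, fun i => (S.equivFin.symm i : X), ?_, ?_⟩
  · intro a b hab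
    refine hS.2 _ (S.equivFin.symm a).2 _ (S.equivFin.symm b).2 fun h => hab ?_
    exact S.equivFin.symm.injective (Subtype.ext h)
  · ext x
    simp only [mem_image, mem_univ, true_and]
    constructor
    · rintro ⟨i, rfl⟩
      exact (S.equivFin.symm i).2
    · intro hx
      exact ⟨S.equivFin ⟨x, hx⟩, by simp⟩

omit [MetricSpace X] [CompactSpace X] [MeasurableSpace X] [BorelSpace X] [DecidableEq X] in
theorem inj_of_SepT (hirr : ∀ x, ¬ R x x) {m : ℕ} {z : Fin m → X} (hz : z ∈ SepT R m) :
    Function.Injective z := by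
  intro a b hab
  by_contra h
  have := hz a b h
  rw [hab] at this
  exact hirr _ this

omit [MetricSpace X] [CompactSpace X] [MeasurableSpace X] [BorelSpace X] in
/-- the image of an injective tuple is separated iff the tuple is -/
theorem SepS_image {m : ℕ} {z : Fin m → X} (hz : Function.Injective z) :
    SepS R t (univ.image z) ↔ m ≤ t ∧ z ∈ SepT R m := by
  unfold SepS
  rw [Finset.card_image_of_injective _ hz, Finset.card_univ, Fintype.card_fin]
  refine and_congr_right fun _ => ?_
  constructor
  · intro h a b hab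
    exact h _ (by simp) _ (by simp) fun h' => hab (hz h')
  · intro h x hx y hy hxy
    simp only [mem_image, mem_univ, true_and] at hx hy
    obtain ⟨a, rfl⟩ := hx
    obtain ⟨b, rfl⟩ := hy
    exact h a b fun h' => hxy (by rw [h'])

omit [MeasurableSpace X] [BorelSpace X] in
/-- the truncated kernel is bounded on all pairs of finite sets -/
theorem trunc_bounded (hR : IsClosed {p : X × X | R p.1 p.2}) (hK : PK R t K) :
    ∃ C : ℝ, ∀ S T, |trunc R t K S T| ≤ C := by
  have h1 : ∀ p q : ℕ, ∃ C : ℝ, 0 ≤ C ∧ (p ≤ t → q ≤ t → ∀ z ∈ SepT R p, ∀ w ∈ SepT R q,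
      |K (univ.image z) (univ.image w)| ≤ C) := by
    intro p q
    by_cases hp : p ≤ t ∧ q ≤ t
    · have hc : IsCompact (SepT R p ×ˢ SepT R q) :=
        (isClosed_SepT hR p).isCompact.prod (isClosed_SepT hR q).isCompact
      obtain ⟨C, hC⟩ := hc.exists_bound_of_continuousOn (hK.cont p q hp.1 hp.2)
      refine ⟨max C 0, le_max_right _ _, fun _ _ z hz w hw => ?_⟩
      exact (hC (z, w) ⟨hz, hw⟩).trans (le_max_left _ _)
    · exact ⟨0, le_rfl, fun h h' => absurd ⟨h, h'⟩ hp⟩
  choose C hC0 hC using h1
  refine ⟨∑ p ∈ range (t + 1), ∑ q ∈ range (t + 1), C p q, fun S T => ?_⟩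
  have hnn : 0 ≤ ∑ p ∈ range (t + 1), ∑ q ∈ range (t + 1), C p q :=
    Finset.sum_nonneg fun p _ => Finset.sum_nonneg fun q _ => hC0 p q
  unfold trunc
  split_ifs with h
  · obtain ⟨p, hp, z, hz, rfl⟩ := exists_tuple h.1
    obtain ⟨q, hq, w, hw, rfl⟩ := exists_tuple h.2
    refine (hC p q hp hq z hz w hw).trans ?_
    refine (Finset.single_le_sum (f := fun q => C p q) (fun q _ => hC0 p q)
      (mem_range.2 (Nat.lt_succ_of_le hq))).trans ?_
    exact Finset.single_le_sum (f := fun p => ∑ q ∈ range (t + 1), C p q)
      (fun p _ => Finset.sum_nonneg fun q _ => hC0 p q) (mem_range.2 (Nat.lt_succ_of_le hp))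
  · simpa using hnn

theorem trunc_bd (hR : IsClosed {p : X × X | R p.1 p.2}) (hirr : ∀ x, ¬ R x x) (hK : PK R t K)
    (p q : ℕ) : Bd fun w : (Fin p → X) × (Fin q → X) =>
      trunc R t K (univ.image w.1) (univ.image w.2) := by
  classical
  obtain ⟨C, hC⟩ := trunc_bounded hR hK
  refine ⟨?_, C, fun w => hC _ _⟩
  have hd : MeasurableSet {p : X × X | p.1 = p.2} :=
    (isClosed_eq continuous_fst continuous_snd).measurableSet
  refine meas_of_inj2 hd (K := trunc R t K) (fun p q => ?_) p q
  by_cases hp : p ≤ t ∧ q ≤ t
  · have e : (fun w : (Fin p → X) × (Fin q → X) =>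
        if Function.Injective w.1 ∧ Function.Injective w.2 then
          trunc R t K (univ.image w.1) (univ.image w.2) else 0) =
        (SepT R p ×ˢ SepT R q).piecewise
          (fun w : (Fin p → X) × (Fin q → X) => K (univ.image w.1) (univ.image w.2))
          (fun _ => 0) := by
      funext w
      by_cases hw : w ∈ SepT R p ×ˢ SepT R q
      · rw [Set.piecewise_eq_of_mem _ _ _ hw]
        have i1 := inj_of_SepT hirr hw.1
        have i2 := inj_of_SepT hirr hw.2
        rw [if_pos ⟨i1, i2⟩, trunc, if_pos ⟨(SepS_image i1).2 ⟨hp.1, hw.1⟩,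
          (SepS_image i2).2 ⟨hp.2, hw.2⟩⟩]
      · rw [Set.piecewise_eq_of_notMem _ _ _ hw]
        split_ifs with hi
        · rw [trunc, if_neg]
          rintro ⟨h1, h2⟩
          exact hw ⟨((SepS_image hi.1).1 h1).2, ((SepS_image hi.2).1 h2).2⟩
        · rfl
    rw [e]
    exact (hK.cont p q hp.1 hp.2).measurable_piecewise continuousOn_const
      ((isClosed_SepT hR p).prod (isClosed_SepT hR q)).measurableSet
  · have e : (fun w : (Fin p → X) × (Fin q → X) =>
        if Function.Injective w.1 ∧ Function.Injective w.2 then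
          trunc R t K (univ.image w.1) (univ.image w.2) else 0) = fun _ => 0 := by
      funext w
      split_ifs with hi
      · rw [trunc, if_neg]
        rintro ⟨h1, h2⟩
        exact hp ⟨((SepS_image hi.1).1 h1).1, ((SepS_image hi.2).1 h2).1⟩
      · rfl
    rw [e]
    exact measurable_const

end

end Pool.Agent.Helper47.LB
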